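import Pool.Agent.H47.IR.Defs

/-!
JOB IR-7. The sieve of growing dimension.
-/

set_option autoImplicit false

open Finset Filter Topology

namespace Pool.Agent.H47.IR

open Pool.Agent.H16 Pool.Agent.H81.AS

/-- the fundamental lemma with the explicit constant `18` -/
lemma big_flp (K s : ℕ) (hs : 18 * K ≤ s) : FLP K s := by
  intro S a c X z y hz hKz hzy P hP hPz hPy g hg0 hgK ha hc0 hc1 hX
  have hη : (1 / 2 : ℝ) * (1 / 2) ^ s ≤ 1 / 2 := by
    have : (1 / 2 : ℝ) ^ s ≤ 1 := pow_le_one₀ (by norm_num) (by norm_num)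
    linarith
  obtain ⟨h1, h2, h3, hy1⟩ := fundK (K : ℝ) (Nat.cast_nonneg K) s (1 / 2 * (1 / 2) ^ s)
    (by positivity) hη (sum_costK_le K s hs) S a c X z y hz hKz hzy P hP hPz hPy g hg0 hgK ha
    hc0 hc1 hX
  set E := ∑ D ∈ P.powerset.filter (fun D => (∏ p ∈ D, p) ≤ y ^ (4 * s + 5)), |RD S a c X g D|
    with hE
  have hE0 : 0 ≤ E := Finset.sum_nonneg (fun D _ => abs_nonneg _)
  have hy : 0 ≤ Real.log y := Real.log_nonneg (by exact_mod_cast hy1)
  have hyE : 0 ≤ Real.log y * E := mul_nonneg hy hE0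
  have e : 2 * (1 / 2 * (1 / 2 : ℝ) ^ s) = (1 / 2) ^ s := by ring
  rw [e] at h1 h2
  rw [abs_le]
  constructor
  · nlinarith
  · nlinarith

/-- indicator that `p` divides some `q - e` -/
noncomputable def bigc (E : Finset ℕ) (q p : ℕ) : ℝ := by
  classical
  exact if ∃ e ∈ E, (p : ℤ) ∣ (q : ℤ) - e then 1 else 0

lemma bigc_nonneg (E : Finset ℕ) (q p : ℕ) : 0 ≤ bigc E q p := by
  unfold bigc; split_ifs <;> norm_num

lemma bigc_le_one (E : Finset ℕ) (q p : ℕ) : bigc E q p ≤ 1 := by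
  unfold bigc; split_ifs <;> norm_num

lemma bigc_eq (E : Finset ℕ) (z p q : ℕ) (hE : ∀ e ∈ E, e ≤ z) (hp : z < p) :
    bigc E q p = ∑ e ∈ E, if q ≡ e [MOD p] then (1 : ℝ) else 0 := by
  classical
  have key : ∀ e : ℕ, (p : ℤ) ∣ (q : ℤ) - e ↔ q ≡ e [MOD p] := by
    intro e
    rw [Nat.ModEq.comm, Nat.modEq_iff_dvd]
  unfold bigc
  split_ifs with h
  · obtain ⟨e, he, hd⟩ := h
    rw [key] at hd
    rw [Finset.sum_eq_single e]
    · rw [if_pos hd]
    · intro e' he' hne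
      rw [if_neg]
      intro h'
      apply hne
      have h1 : e' ≡ e [MOD p] := h'.symm.trans hd
      exact Nat.ModEq.eq_of_lt_of_lt h1 (lt_of_le_of_lt (hE e' he') hp) (lt_of_le_of_lt (hE e he) hp)
    · intro h'; exact absurd he h'
  · rw [Finset.sum_eq_zero]
    intro e he
    rw [if_neg]
    intro h'
    exact h ⟨e, he, (key e).2 h'⟩

/-- counting one residue class -/
lemma big_base (X W c : ℕ) (hW : 1 ≤ W) :
    |(#((Icc 1 X).filter (fun q => q ≡ c [MOD W])) : ℝ) - (X : ℝ) / W| ≤ 1 := by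
  have h1 : Icc 1 X = Ioc 0 X := by ext q; simp [Nat.succ_le_iff]
  rw [h1]
  have h2 := Nat.Ioc_filter_modEq_card 0 X (r := W) (by omega) c
  have hWr : (0 : ℝ) < W := by exact_mod_cast hW
  have h3 : ((#((Ioc 0 X).filter (fun q => q ≡ c [MOD W])) : ℤ) : ℝ) =
      (((max (⌊((X : ℚ) - c) / W⌋ - ⌊(((0 : ℕ) : ℚ) - c) / W⌋) 0 : ℤ)) : ℝ) := by
    rw [← h2]
  have h4 : ⌊(((0 : ℕ) : ℚ) - c) / W⌋ ≤ ⌊((X : ℚ) - c) / W⌋ := by
    apply Int.floor_le_floor
    apply div_le_div_of_nonneg_right _ (by positivity)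
    have : (0 : ℚ) ≤ X := by positivity
    push_cast
    linarith
  rw [max_eq_left (by omega)] at h3
  have h5 : ((#((Ioc 0 X).filter (fun q => q ≡ c [MOD W])) : ℤ) : ℝ) =
      (#((Ioc 0 X).filter (fun q => q ≡ c [MOD W])) : ℝ) := by push_cast; rfl
  rw [← h5, h3]
  push_cast
  have a1 : (((⌊((X : ℚ) - c) / W⌋ : ℤ) : ℚ)) ≤ ((X : ℚ) - c) / W := Int.floor_le _
  have a2 : ((X : ℚ) - c) / W < ((⌊((X : ℚ) - c) / W⌋ : ℤ) : ℚ) + 1 := Int.lt_floor_add_one _
  have b1 : (((⌊(((0 : ℕ) : ℚ) - c) / W⌋ : ℤ) : ℚ)) ≤ (((0 : ℕ) : ℚ) - c) / W := Int.floor_le _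
  have b2 : (((0 : ℕ) : ℚ) - c) / W < ((⌊(((0 : ℕ) : ℚ) - c) / W⌋ : ℤ) : ℚ) + 1 := Int.lt_floor_add_one _
  have a1' : (((⌊((X : ℚ) - c) / W⌋ : ℤ) : ℝ)) ≤ ((X : ℝ) - c) / W := by exact_mod_cast a1
  have a2' : ((X : ℝ) - c) / W < ((⌊((X : ℚ) - c) / W⌋ : ℤ) : ℝ) + 1 := by exact_mod_cast a2
  have b1' : (((⌊(((0 : ℕ) : ℚ) - c) / W⌋ : ℤ) : ℝ)) ≤ (0 - (c : ℝ)) / W := by
    have := b1
    push_cast at this
    have h : (((⌊((0 : ℚ) - c) / W⌋ : ℤ) : ℚ) : ℝ) ≤ (((0 - (c : ℚ)) / W : ℚ) : ℝ) := by exact_mod_cast this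
    push_cast at h
    push_cast
    exact h
  have b2' : (0 - (c : ℝ)) / W < ((⌊(((0 : ℕ) : ℚ) - c) / W⌋ : ℤ) : ℝ) + 1 := by
    have := b2
    push_cast at this
    have h : (((0 - (c : ℚ)) / W : ℚ) : ℝ) < (((⌊((0 : ℚ) - c) / W⌋ : ℤ) : ℚ) : ℝ) + 1 := by exact_mod_cast this
    push_cast at h
    push_cast
    exact h
  push_cast at b1' b2'
  have e1 : (X : ℝ) / W = ((X : ℝ) - c) / W - (0 - (c : ℝ)) / W := by ring
  rw [e1, abs_le]
  constructor <;> linarith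

/-- the main count -/
lemma big_count (E : Finset ℕ) (κ z X : ℕ) (hcard : #E = κ) (hE : ∀ e ∈ E, e ≤ z) (D : Finset ℕ)
    (hD : ∀ p ∈ D, p.Prime ∧ z < p) : ∀ (W c : ℕ), 1 ≤ W → (∀ p ∈ D, ¬ p ∣ W) →
    |∑ q ∈ (Icc 1 X).filter (fun q => q ≡ c [MOD W]), ∏ p ∈ D, bigc E q p -
      (X : ℝ) / W * ∏ p ∈ D, (κ : ℝ) / p| ≤ (κ : ℝ) ^ #D := by
  classical
  induction D using Finset.induction_on with
  | empty =>
    intro W c hW _
    simp only [Finset.prod_empty, Finset.sum_const, nsmul_eq_mul, mul_one, Finset.card_empty, pow_zero]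
    exact big_base X W c hW
  | insert p D hp ih =>
    intro W c hW hpW
    have hpp := (hD p (Finset.mem_insert_self p D)).1
    have hpz := (hD p (Finset.mem_insert_self p D)).2
    have hcop : Nat.Coprime W p := by
      rw [Nat.coprime_comm, hpp.coprime_iff_not_dvd]
      exact hpW p (Finset.mem_insert_self p D)
    have ih' := ih (fun q hq => hD q (Finset.mem_insert_of_mem hq))
    have hWr : (0 : ℝ) < W := by exact_mod_cast hW
    have hpr : (0 : ℝ) < p := by exact_mod_cast hpp.pos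
    have h1 : ∑ q ∈ (Icc 1 X).filter (fun q => q ≡ c [MOD W]), ∏ p ∈ insert p D, bigc E q p =
        ∑ e ∈ E, ∑ q ∈ (Icc 1 X).filter (fun q => q ≡ (Nat.chineseRemainder hcop c e : ℕ) [MOD W * p]),
          ∏ p ∈ D, bigc E q p := by
      have h2 : ∀ q ∈ (Icc 1 X).filter (fun q => q ≡ c [MOD W]), ∏ p ∈ insert p D, bigc E q p =
          ∑ e ∈ E, (if q ≡ e [MOD p] then ∏ p ∈ D, bigc E q p else 0) := by
        intro q _
        rw [Finset.prod_insert hp, bigc_eq E z p q hE hpz, Finset.sum_mul]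
        apply Finset.sum_congr rfl
        intro e _
        split_ifs <;> simp
      rw [Finset.sum_congr rfl h2, Finset.sum_comm]
      apply Finset.sum_congr rfl
      intro e _
      rw [← Finset.sum_filter, Finset.filter_filter]
      apply Finset.sum_congr _ (fun _ _ => rfl)
      ext q
      simp only [Finset.mem_filter, and_congr_right_iff]
      intro _
      have hk := (Nat.chineseRemainder hcop c e).prop
      constructor
      · rintro ⟨h3, h4⟩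
        exact Nat.chineseRemainder_modEq_unique hcop h3 h4
      · intro h3
        constructor
        · exact (Nat.ModEq.of_mul_right p h3).trans hk.1
        · exact (Nat.ModEq.of_mul_left W h3).trans hk.2
    have h2 : (X : ℝ) / W * ∏ q ∈ insert p D, (κ : ℝ) / q =
        ∑ e ∈ E, (X : ℝ) / ((W * p : ℕ) : ℝ) * ∏ q ∈ D, (κ : ℝ) / q := by
      rw [Finset.prod_insert hp, Finset.sum_const, hcard, nsmul_eq_mul]
      push_cast
      field_simp
    rw [h1, h2, ← Finset.sum_sub_distrib]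
    refine (Finset.abs_sum_le_sum_abs _ _).trans ?_
    have h3 : ∀ e ∈ E, |∑ q ∈ (Icc 1 X).filter (fun q => q ≡ (Nat.chineseRemainder hcop c e : ℕ) [MOD W * p]),
          ∏ p ∈ D, bigc E q p - (X : ℝ) / ((W * p : ℕ) : ℝ) * ∏ q ∈ D, (κ : ℝ) / q| ≤ (κ : ℝ) ^ #D := by
      intro e _
      apply ih' (W * p) _ (Nat.mul_pos hW hpp.pos)
      intro q hq hd
      have hqp := (hD q (Finset.mem_insert_of_mem hq)).1
      rcases (Nat.Prime.dvd_mul hqp).1 hd with h | h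
      · exact hpW q (Finset.mem_insert_of_mem hq) h
      · have := (Nat.prime_dvd_prime_iff_eq hqp hpp).1 h
        rw [this] at hq
        exact hp hq
    refine (Finset.sum_le_sum h3).trans ?_
    rw [Finset.sum_const, hcard, nsmul_eq_mul, Finset.card_insert_of_notMem hp, pow_succ]
    rw [mul_comm]

lemma big_pow (κ z : ℕ) (hκ : κ ^ 2 ≤ z) (D : Finset ℕ) (hD : ∀ p ∈ D, z < p) :
    (κ : ℝ) ^ #D ≤ Real.sqrt ((∏ p ∈ D, p : ℕ) : ℝ) := by
  apply Real.le_sqrt_of_sq_le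
  rw [← pow_mul, mul_comm, pow_mul]
  have h1 : (∏ _p ∈ D, κ ^ 2) ≤ ∏ p ∈ D, p :=
    Finset.prod_le_prod' (fun p hp => hκ.trans (hD p hp).le)
  rw [Finset.prod_const] at h1
  exact_mod_cast h1

lemma big_card_D_le (𝒟 : Finset (Finset ℕ)) (h : ∀ D ∈ 𝒟, ∀ p ∈ D, p.Prime) (Y : ℝ) (hY : 0 ≤ Y)
    (h2 : ∀ D ∈ 𝒟, ((∏ p ∈ D, p : ℕ) : ℝ) ≤ Y) : (#𝒟 : ℝ) ≤ Y := by
  have hinj : Set.InjOn (fun D : Finset ℕ => ∏ p ∈ D, p) (𝒟 : Set (Finset ℕ)) := by
    intro D1 h1 D2 h2 h12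
    simp only at h12
    rw [← Nat.primeFactors_prod (h D1 h1), h12, Nat.primeFactors_prod (h D2 h2)]
  have h3 : 𝒟.image (fun D : Finset ℕ => ∏ p ∈ D, p) ⊆ Finset.Icc 1 ⌊Y⌋₊ := by
    intro d hd
    rw [Finset.mem_image] at hd
    obtain ⟨D, hD, rfl⟩ := hd
    rw [Finset.mem_Icc]
    exact ⟨Finset.prod_pos (fun p hp => (h D hD p hp).pos), Nat.le_floor (h2 D hD)⟩
  have h4 := Finset.card_le_card h3
  rw [Finset.card_image_of_injOn hinj, Nat.card_Icc, Nat.add_sub_cancel] at h4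
  calc (#𝒟 : ℝ) ≤ (⌊Y⌋₊ : ℝ) := by exact_mod_cast h4
    _ ≤ Y := Nat.floor_le hY

theorem big_sieve : ∃ C : ℝ, 0 < C ∧ ∀ᶠ X : ℕ in atTop, ∀ (κ z W c : ℕ) (E : Finset ℕ), 1 ≤ κ → κ ^ 2 ≤ z →
    100 ≤ Real.log z → z ≤ yy X κ → #E = κ → (∀ e ∈ E, e ≤ z) → 1 ≤ W →
    (∀ p : ℕ, p.Prime → p ∣ W → p ≤ z) →
      (#(QQ X κ z W c E) : ℝ) ≤ 2 * ((X : ℝ) / W) * (C * κ * (Real.log z / Real.log X)) ^ κ +
        (X : ℝ) ^ ((1 : ℝ) / 2) := by
  classical
  obtain ⟨c0, hc0, hVge⟩ := Vp_ge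
  refine ⟨616 / c0, by positivity, ?_⟩
  have hev : ∀ᶠ X : ℕ in atTop, (1 + 2 * Real.log (X : ℝ)) * (X : ℝ) ^ ((3 : ℝ) / 8) ≤
      (X : ℝ) ^ ((1 : ℝ) / 2) := by
    have h1 : ∀ᶠ x : ℝ in atTop, Real.log x ≤ (1 / 4) * x ^ ((1 : ℝ) / 8) := by
      have h2 := (isLittleO_log_rpow_atTop (show (0 : ℝ) < 1 / 8 by norm_num)).bound
        (show (0 : ℝ) < 1 / 4 by norm_num)
      filter_upwards [h2, eventually_ge_atTop (1 : ℝ)] with x hx hx1
      rw [Real.norm_of_nonneg (Real.log_nonneg hx1), Real.norm_of_nonneg (by positivity)] at hx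
      exact hx
    have h2 : ∀ᶠ x : ℝ in atTop, (2 : ℝ) ≤ x ^ ((1 : ℝ) / 8) :=
      (tendsto_rpow_atTop (show (0 : ℝ) < 1 / 8 by norm_num)).eventually_ge_atTop 2
    have h3 : ∀ᶠ x : ℝ in atTop, (1 + 2 * Real.log x) * x ^ ((3 : ℝ) / 8) ≤ x ^ ((1 : ℝ) / 2) := by
      filter_upwards [h1, h2, eventually_gt_atTop (0 : ℝ)] with x hx1 hx2 hx0
      have h4 : x ^ ((1 : ℝ) / 2) = x ^ ((1 : ℝ) / 8) * x ^ ((3 : ℝ) / 8) := by
        rw [← Real.rpow_add hx0]; norm_num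
      rw [h4]
      apply mul_le_mul_of_nonneg_right _ (by positivity)
      linarith
    exact tendsto_natCast_atTop_atTop.eventually h3
  filter_upwards [hev, eventually_ge_atTop 3] with X hX hX3
  intro κ z W c E hκ hκz hz hzy hcard hE hW hWp
  have hX0 : (0 : ℝ) < X := by
    have : 0 < X := by omega
    exact_mod_cast this
  have hX1 : (1 : ℝ) ≤ X := by
    have : 1 ≤ X := by omega
    exact_mod_cast this
  have hlX : 0 < Real.log X := by
    apply Real.log_pos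
    have : 1 < X := by omega
    exact_mod_cast this
  have hz0 : 0 < z := by
    rcases Nat.eq_zero_or_pos z with h | h
    · rw [h] at hz; norm_num at hz
    · exact h
  have hz0r : (0 : ℝ) < z := by exact_mod_cast hz0
  have hz2 : 2 ≤ z := by
    by_contra h
    have h1 : z = 1 := by omega
    rw [h1] at hz
    norm_num at hz
  have hκr : (1 : ℝ) ≤ κ := by exact_mod_cast hκ
  have hWr : (0 : ℝ) < W := by exact_mod_cast hW
  set y := yy X κ with hy
  have hy0 : 0 < y := lt_of_lt_of_le hz0 hzy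
  have hy0r : (0 : ℝ) < y := by exact_mod_cast hy0
  set M : ℕ := 4 * (18 * κ) + 5 with hM
  have hMr : (M : ℝ) = 72 * κ + 5 := by rw [hM]; push_cast; ring
  have hM0 : (0 : ℝ) < M := by rw [hMr]; positivity
  set x : ℝ := (X : ℝ) ^ (1 / (4 * (72 * (κ : ℝ) + 5))) with hx
  have hx0 : 0 < x := by positivity
  have hyx : (y : ℝ) ≤ x := Nat.floor_le hx0.le
  have hxy : x < y + 1 := Nat.lt_floor_add_one x
  have hyM : (y : ℝ) ^ M ≤ (X : ℝ) ^ ((1 : ℝ) / 4) := by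
    calc (y : ℝ) ^ M ≤ x ^ M := pow_le_pow_left₀ hy0r.le hyx M
      _ = (X : ℝ) ^ ((1 : ℝ) / 4) := by
          rw [hx, ← Real.rpow_natCast, ← Real.rpow_mul hX0.le, hMr]
          congr 1
          field_simp
  set P : Finset ℕ := primesIoc z y with hP
  have hPp : ∀ p ∈ P, p.Prime := fun p hp => (mem_primesIoc.1 hp).2.2
  have hPz : ∀ p ∈ P, z < p := fun p hp => (mem_primesIoc.1 hp).1
  have hPy : ∀ p ∈ P, p ≤ y := fun p hp => (mem_primesIoc.1 hp).2.1
  have h2κ : 2 * (κ : ℝ) ≤ z := by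
    have h1 : 2 * κ ≤ z := by
      rcases Nat.lt_or_ge κ 2 with h | h
      · have : κ = 1 := by omega
        omega
      · nlinarith
    exact_mod_cast h1
  have hκz' : κ ≤ z := by nlinarith
  set S : Finset ℕ := (Icc 1 X).filter (fun q => q ≡ c [MOD W]) with hS
  have hmain := big_flp κ (18 * κ) le_rfl S (fun _ => 1) (bigc E) ((X : ℝ) / W) z y hz h2κ hzy P hPp hPz hPy
    (fun p => (κ : ℝ) / p) (fun p _ => by positivity) (fun p _ => le_rfl)
    (fun _ _ => zero_le_one) (fun n _ p _ => bigc_nonneg E n p) (fun n _ p _ => bigc_le_one E n p)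
    (by positivity)
  -- the count is at most the sieve sum
  have hcount : (#(QQ X κ z W c E) : ℝ) ≤ ∑ q ∈ S, (1 : ℝ) * ∏ p ∈ P, (1 - bigc E q p) := by
    have h1 : QQ X κ z W c E ⊆ S := by
      intro q hq
      unfold QQ at hq
      rw [Finset.mem_filter] at hq
      rw [hS, Finset.mem_filter]
      exact ⟨hq.1, hq.2.1⟩
    have h2 : (#(QQ X κ z W c E) : ℝ) = ∑ q ∈ QQ X κ z W c E, (1 : ℝ) * ∏ p ∈ P, (1 - bigc E q p) := by
      rw [Finset.card_eq_sum_ones]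
      push_cast
      apply Finset.sum_congr rfl
      intro q hq
      unfold QQ at hq
      rw [Finset.mem_filter] at hq
      rw [one_mul, Finset.prod_eq_one]
      intro p hp
      unfold bigc
      rw [if_neg, sub_zero]
      rintro ⟨e, he, hd⟩
      exact hq.2.2 e he p hp hd
    rw [h2]
    apply Finset.sum_le_sum_of_subset_of_nonneg h1
    intro q _ _
    rw [one_mul]
    exact Finset.prod_nonneg (fun p _ => by linarith [bigc_le_one E q p])
  -- the remainder sum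
  have hrem : ∑ D ∈ P.powerset.filter (fun D => (∏ p ∈ D, p) ≤ y ^ (4 * (18 * κ) + 5)),
      |RD S (fun _ => (1 : ℝ)) (bigc E) ((X : ℝ) / W) (fun p => (κ : ℝ) / p) D| ≤ (X : ℝ) ^ ((3 : ℝ) / 8) := by
    have hmem : ∀ D ∈ P.powerset.filter (fun D => (∏ p ∈ D, p) ≤ y ^ (4 * (18 * κ) + 5)),
        (∀ p ∈ D, p ∈ P) ∧ ((∏ p ∈ D, p : ℕ) : ℝ) ≤ (X : ℝ) ^ ((1 : ℝ) / 4) := by
      intro D hD
      rw [Finset.mem_filter, Finset.mem_powerset] at hD
      refine ⟨fun p hp => hD.1 hp, ?_⟩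
      refine le_trans ?_ hyM
      exact_mod_cast hD.2
    have h1 : ∀ D ∈ P.powerset.filter (fun D => (∏ p ∈ D, p) ≤ y ^ (4 * (18 * κ) + 5)),
        |RD S (fun _ => (1 : ℝ)) (bigc E) ((X : ℝ) / W) (fun p => (κ : ℝ) / p) D| ≤
          (X : ℝ) ^ ((1 : ℝ) / 8) := by
      intro D hD
      have h2 := hmem D hD
      have h3 := big_count E κ z X hcard hE D (fun p hp => ⟨hPp p (h2.1 p hp), hPz p (h2.1 p hp)⟩) W c hW
        (fun p hp hd => by
          have h4 := hWp p (hPp p (h2.1 p hp)) hd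
          have h5 := hPz p (h2.1 p hp)
          omega)
      unfold RD AD
      simp only [one_mul]
      refine h3.trans ((big_pow κ z hκz D (fun p hp => hPz p (h2.1 p hp))).trans ?_)
      rw [Real.sqrt_eq_rpow]
      calc (((∏ p ∈ D, p : ℕ) : ℝ)) ^ ((1 : ℝ) / 2) ≤ ((X : ℝ) ^ ((1 : ℝ) / 4)) ^ ((1 : ℝ) / 2) :=
            Real.rpow_le_rpow (by positivity) h2.2 (by norm_num)
        _ = (X : ℝ) ^ ((1 : ℝ) / 8) := by
            rw [← Real.rpow_mul hX0.le]; norm_num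
    refine (Finset.sum_le_sum h1).trans ?_
    rw [Finset.sum_const, nsmul_eq_mul]
    have h4 : (#(P.powerset.filter (fun D => (∏ p ∈ D, p) ≤ y ^ (4 * (18 * κ) + 5))) : ℝ) ≤
        (X : ℝ) ^ ((1 : ℝ) / 4) :=
      big_card_D_le _ (fun D hD p hp => hPp p ((hmem D hD).1 p hp)) _ (by positivity) (fun D hD => (hmem D hD).2)
    calc _ ≤ (X : ℝ) ^ ((1 : ℝ) / 4) * (X : ℝ) ^ ((1 : ℝ) / 8) :=
          mul_le_mul_of_nonneg_right h4 (by positivity)
      _ = (X : ℝ) ^ ((3 : ℝ) / 8) := by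
          rw [← Real.rpow_add hX0]; norm_num
  -- the product
  have hly100 : 100 ≤ Real.log y := hz.trans (Real.log_le_log hz0r (by exact_mod_cast hzy))
  have hlz0 : 0 < Real.log z := by linarith
  have hlyX : Real.log X / (616 * κ) ≤ Real.log y := by
    have h1 : Real.log x ≤ Real.log (2 * y) := by
      apply Real.log_le_log hx0
      have : (1 : ℝ) ≤ y := by exact_mod_cast hy0
      linarith
    rw [Real.log_mul (by norm_num) hy0r.ne'] at h1
    have h2 : Real.log 2 ≤ 1 := by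
      have := Real.log_le_sub_one_of_pos (show (0 : ℝ) < 2 by norm_num)
      linarith
    have h3 : Real.log x = Real.log X / (4 * (72 * κ + 5)) := by
      rw [hx, Real.log_rpow hX0]; ring
    rw [h3, div_le_iff₀ (by positivity)] at h1
    rw [div_le_iff₀ (by positivity)]
    nlinarith
  have hprod0 : ∀ p ∈ P, (0 : ℝ) ≤ 1 - (κ : ℝ) / p := by
    intro p hp
    have h1 : (0 : ℝ) < p := by exact_mod_cast (hPp p hp).pos
    have h2 : (κ : ℝ) ≤ p := by
      have := hPz p hp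
      have : κ ≤ p := by omega
      exact_mod_cast this
    have h3 : (κ : ℝ) / p ≤ 1 := (div_le_one h1).2 h2
    linarith
  have hprod : ∏ p ∈ P, (1 - (κ : ℝ) / p) ≤ (616 / c0 * κ * (Real.log z / Real.log X)) ^ κ := by
    have h1 : ∏ p ∈ P, (1 - (κ : ℝ) / p) ≤ (∏ p ∈ P, (1 - 1 / (p : ℝ))) ^ κ := by
      rw [← Finset.prod_pow]
      apply Finset.prod_le_prod hprod0
      intro p hp
      have h2 : (1 : ℝ) ≤ p := by exact_mod_cast (hPp p hp).one_le
      have h3 : 1 / (p : ℝ) ≤ 1 := by rw [div_le_one (by linarith)]; exact h2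
      have h4 := one_add_mul_le_pow (show (-2 : ℝ) ≤ -(1 / (p : ℝ)) by linarith) κ
      have h5 : 1 - (κ : ℝ) / p = 1 + κ * (-(1 / (p : ℝ))) := by ring
      have h6 : 1 - 1 / (p : ℝ) = 1 + -(1 / (p : ℝ)) := by ring
      rw [h5, h6]
      exact h4
    refine h1.trans ?_
    have hP0 : 0 ≤ ∏ p ∈ P, (1 - 1 / (p : ℝ)) :=
      Finset.prod_nonneg (fun p hp => (one_sub_inv_pos (hPp p hp)).le)
    apply pow_le_pow_left₀ hP0
    have h2 := Vp_mul z y hzy
    have h3 := Vp_le y (hz2.trans hzy)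
    have h4 := hVge z hz2
    have h5 := Vp_pos z
    have h6 : ∏ p ∈ P, (1 - 1 / (p : ℝ)) = Vp y / Vp z := by
      rw [← h2, hP]; field_simp
    rw [h6]
    have hlyp : 0 < Real.log y := by linarith
    calc Vp y / Vp z ≤ (1 / Real.log y) / (c0 / Real.log z) := by
          apply div_le_div₀ (by positivity) h3 (by positivity) h4
      _ = Real.log z / (c0 * Real.log y) := by field_simp
      _ ≤ Real.log z / (c0 * (Real.log X / (616 * κ))) := by
          apply div_le_div_of_nonneg_left hlz0.le (by positivity)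
          exact mul_le_mul_of_nonneg_left hlyX hc0.le
      _ = 616 / c0 * κ * (Real.log z / Real.log X) := by field_simp
  set Pi : ℝ := ∏ p ∈ P, (1 - (κ : ℝ) / p) with hPi
  have hPi0 : 0 ≤ Pi := Finset.prod_nonneg hprod0
  have hup := (abs_le.1 hmain).2
  have hhalf : (1 / 2 : ℝ) ^ (18 * κ) ≤ 1 := pow_le_one₀ (by norm_num) (by norm_num)
  have hXW : 0 ≤ (X : ℝ) / W := by positivity
  have hlyXX : Real.log y ≤ Real.log X := by
    apply Real.log_le_log hy0r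
    have hM1 : M ≠ 0 := by omega
    have h1 : (1 : ℝ) ≤ y := by exact_mod_cast hy0
    calc (y : ℝ) ≤ (y : ℝ) ^ M := le_self_pow₀ h1 hM1
      _ ≤ (X : ℝ) ^ ((1 : ℝ) / 4) := hyM
      _ ≤ (X : ℝ) ^ (1 : ℝ) := Real.rpow_le_rpow_of_exponent_le hX1 (by norm_num)
      _ = X := Real.rpow_one _
  have hE2 : (1 + 2 * Real.log y) * ∑ D ∈ P.powerset.filter (fun D => (∏ p ∈ D, p) ≤ y ^ (4 * (18 * κ) + 5)),
      |RD S (fun _ => (1 : ℝ)) (bigc E) ((X : ℝ) / W) (fun p => (κ : ℝ) / p) D| ≤ (X : ℝ) ^ ((1 : ℝ) / 2) := by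
    refine le_trans ?_ hX
    apply mul_le_mul _ hrem (Finset.sum_nonneg (fun _ _ => abs_nonneg _)) (by linarith)
    linarith
  have h0 : 0 ≤ (X : ℝ) / W * Pi := by positivity
  have h1 : (1 / 2 : ℝ) ^ (18 * κ) * ((X : ℝ) / W * Pi) ≤ 1 * ((X : ℝ) / W * Pi) :=
    mul_le_mul_of_nonneg_right hhalf h0
  have h2 : (X : ℝ) / W * Pi ≤ (X : ℝ) / W * (616 / c0 * κ * (Real.log z / Real.log X)) ^ κ :=
    mul_le_mul_of_nonneg_left hprod hXW
  have h3 : 2 * ((X : ℝ) / W) * (616 / c0 * κ * (Real.log z / Real.log X)) ^ κ =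
      2 * ((X : ℝ) / W * (616 / c0 * κ * (Real.log z / Real.log X)) ^ κ) := by ring
  rw [h3]
  linarith

end Pool.Agent.H47.IR
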