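import Pool.Agent.H47.IR.Cheb

/-!
JOB IR-3. The case of large `a n`.
-/

set_option autoImplicit false

open Finset Filter Topology

namespace Pool.Agent.H47.IR

private theorem c2_P_mono : StrictMono P := Nat.nth_strictMono Nat.infinite_setOfPred_prime

private theorem c2_le_P (N : ℕ) : (N : ℝ) ≤ P N := by
  have := c2_P_mono.le_apply (x := N)
  exact_mod_cast this

private theorem c2_D (N : ℕ) : (D N : ℝ) = (P (N + 1) : ℝ) - P N := by
  unfold D
  rw [Nat.cast_sub (c2_P_mono (Nat.lt_succ_self N)).le]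

private theorem c2_log {N : ℕ} (hN : 3 ≤ N) : 1 ≤ Real.log N ∧ Real.log ((N : ℝ) + 1) ≤ 2 * Real.log N ∧
    Real.log ((N : ℝ) + 2) ≤ 2 * Real.log N ∧ Real.log N ≤ N := by
  have h3 : (3 : ℝ) ≤ N := by exact_mod_cast hN
  have hpos : (0 : ℝ) < N := by linarith
  refine ⟨?_, ?_, ?_, ?_⟩
  · rw [Real.le_log_iff_exp_le hpos]
    have := Real.exp_one_lt_d9
    linarith
  · have : (2 : ℝ) * Real.log N = Real.log ((N : ℝ) ^ 2) := by
      rw [Real.log_pow]; norm_num
    rw [this]
    apply Real.log_le_log (by linarith)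
    nlinarith
  · have : (2 : ℝ) * Real.log N = Real.log ((N : ℝ) ^ 2) := by
      rw [Real.log_pow]; norm_num
    rw [this]
    apply Real.log_le_log (by linarith)
    nlinarith
  · have := Real.log_le_sub_one_of_pos hpos
    linarith

/-- the recursion as an upper bound -/
private theorem c2_key {a : ℕ → ℕ} {b : ℕ} {C : ℝ} {c : ℕ → ℤ} (h : Cs a b C c) {K : ℝ} (hK : 1 ≤ K)
    (hP : ∀ n : ℕ, (P n : ℝ) ≤ K * (((n : ℝ) + 1) * Real.log ((n : ℝ) + 2))) {N : ℕ} (hN : 3 ≤ N)
    (hbig : (N : ℝ) / (Real.log N) ^ 3 < a N) {B : ℝ} (hB : (c (N + 1) : ℝ) ≤ B) :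
    (c N : ℝ) ≤ (4 * b * K * (N * Real.log N) + B) * (Real.log N) ^ 3 / N := by
  obtain ⟨hl1, hl2, hl3, hl4⟩ := c2_log hN
  have h3 : (3 : ℝ) ≤ N := by exact_mod_cast hN
  have hpos : (0 : ℝ) < N := by linarith
  have hPN : (P N : ℝ) ≤ 4 * K * (N * Real.log N) := by
    calc (P N : ℝ) ≤ K * (((N : ℝ) + 1) * Real.log ((N : ℝ) + 2)) := hP N
      _ ≤ K * ((2 * N) * (2 * Real.log N)) := by
        apply mul_le_mul_of_nonneg_left _ (by linarith)
        apply mul_le_mul (by linarith) hl3 _ (by linarith)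
        exact Real.log_nonneg (by linarith)
      _ = 4 * K * (N * Real.log N) := by ring
  have hstep : (c (N + 1) : ℝ) = a N * c N - b * P N := by
    have := h.step N
    rw [this]
    push_cast
    ring
  have hcpos : (0 : ℝ) < c N := by exact_mod_cast h.pos N
  have hL : (0 : ℝ) < (Real.log N) ^ 3 := by positivity
  rw [le_div_iff₀ hpos]
  have h1 : (c N : ℝ) * (N / (Real.log N) ^ 3) ≤ c N * a N :=
    mul_le_mul_of_nonneg_left hbig.le hcpos.le
  have h2 : (c N : ℝ) * a N ≤ 4 * b * K * (N * Real.log N) + B := by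
    have hb : (b : ℝ) * P N ≤ b * (4 * K * (N * Real.log N)) :=
      mul_le_mul_of_nonneg_left hPN (Nat.cast_nonneg b)
    nlinarith
  have h3' : (c N : ℝ) * (N / (Real.log N) ^ 3) * (Real.log N) ^ 3 ≤
      (4 * b * K * (N * Real.log N) + B) * (Real.log N) ^ 3 :=
    mul_le_mul_of_nonneg_right (h1.trans h2) hL.le
  calc (c N : ℝ) * N = (c N : ℝ) * (N / (Real.log N) ^ 3) * (Real.log N) ^ 3 := by
        field_simp
    _ ≤ _ := h3'

private theorem c2_tend (A1 A2 : ℝ) : ∀ᶠ N : ℕ in atTop,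
    A1 / Real.log N + A2 * ((Real.log N) ^ 9 / N) < 1 := by
  have hlog : Tendsto (fun N : ℕ => Real.log (N : ℝ)) atTop atTop :=
    Real.tendsto_log_atTop.comp tendsto_natCast_atTop_atTop
  have h1 : Tendsto (fun N : ℕ => A1 / Real.log (N : ℝ)) atTop (𝓝 0) :=
    Tendsto.div_atTop tendsto_const_nhds hlog
  have h2 : Tendsto (fun x : ℝ => (Real.log x) ^ 9 / x) atTop (𝓝 0) := by
    have := (isLittleO_log_rpow_atTop (r := 1 / 9) (by norm_num))
    have h9 := this.pow (n := 9) (by norm_num)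
    have h10 := h9.tendsto_div_nhds_zero
    refine h10.congr' ?_
    filter_upwards [eventually_gt_atTop (0 : ℝ)] with x hx
    rw [← Real.rpow_natCast (x ^ ((1 : ℝ) / 9)) 9, ← Real.rpow_mul hx.le]
    norm_num
  have h3 : Tendsto (fun N : ℕ => A2 * ((Real.log (N : ℝ)) ^ 9 / (N : ℝ))) atTop (𝓝 (A2 * 0)) :=
    (h2.comp tendsto_natCast_atTop_atTop).const_mul A2
  have h4 := h1.add h3
  rw [mul_zero, add_zero] at h4
  exact h4.eventually_lt_const (by norm_num)

theorem case_two {a : ℕ → ℕ} {b : ℕ} {C : ℝ} {c : ℕ → ℤ} (hmono : Monotone a) (hb : 1 ≤ b) (h : Cs a b C c)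
    (hbig : ∀ᶠ n : ℕ in atTop, (n : ℝ) / (Real.log n) ^ 3 < a n)
    (hlim : ∀ ε : ℝ, 0 < ε → ∃ᶠ n : ℕ in atTop, (a n : ℝ) ≤ ε * P n) : False := by
  obtain ⟨K, hK, hP⟩ := P_le
  have hC : (1 : ℝ) ≤ C := by
    have h0 := h.bound 0
    have h1 : (1 : ℝ) ≤ c 0 := by exact_mod_cast h.pos 0
    norm_num at h0
    linarith
  have hb1 : (1 : ℝ) ≤ b := by exact_mod_cast hb
  set C1 : ℝ := 4 * b * K + 4 * C with hC1
  set C2 : ℝ := 4 * b * K + 16 * C1 with hC2
  have hbK : (0 : ℝ) ≤ 4 * b * K := by positivity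
  have hC1pos : 0 ≤ C1 := by rw [hC1]; linarith
  have hC2pos : 0 ≤ C2 := by rw [hC2]; linarith
  -- step 1
  have s1 : ∀ᶠ N : ℕ in atTop, (c N : ℝ) ≤ C1 * (N * (Real.log N) ^ 3) := by
    filter_upwards [hbig, eventually_ge_atTop 3] with N hN h3
    obtain ⟨hl1, hl2, hl3, hl4⟩ := c2_log h3
    have h3' : (3 : ℝ) ≤ N := by exact_mod_cast h3
    have hpos : (0 : ℝ) < N := by linarith
    have hB : (c (N + 1) : ℝ) ≤ 4 * C * (N * N) := by
      have := h.bound (N + 1)
      push_cast at this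
      refine this.trans ?_
      have e0 : ((N : ℝ) + 1 + 1) ^ 2 ≤ 4 * (N * N) := by nlinarith
      calc C * ((N : ℝ) + 1 + 1) ^ 2 ≤ C * (4 * (N * N)) :=
            mul_le_mul_of_nonneg_left e0 (by linarith)
        _ = 4 * C * (N * N) := by ring
    have := c2_key h hK hP h3 hN hB
    refine this.trans ?_
    rw [div_le_iff₀ hpos]
    have hL : (0 : ℝ) < (Real.log N) ^ 3 := by positivity
    have : 4 * b * K * (N * Real.log N) + 4 * C * (N * N) ≤ C1 * (N * N) := by
      rw [hC1, add_mul]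
      have : (N : ℝ) * Real.log N ≤ N * N := mul_le_mul_of_nonneg_left hl4 hpos.le
      have := mul_le_mul_of_nonneg_left this hbK
      linarith
    calc (4 * b * K * (N * Real.log N) + 4 * C * (N * N)) * (Real.log N) ^ 3 ≤ C1 * (N * N) * (Real.log N) ^ 3 :=
          mul_le_mul_of_nonneg_right this hL.le
      _ = C1 * (N * (Real.log N) ^ 3) * N := by ring
  -- step 2
  have s2 : ∀ᶠ N : ℕ in atTop, (c N : ℝ) ≤ C2 * (Real.log N) ^ 6 := by
    have s1' := (tendsto_add_atTop_nat 1).eventually s1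
    filter_upwards [hbig, eventually_ge_atTop 3, s1'] with N hN h3 hs
    obtain ⟨hl1, hl2, hl3, hl4⟩ := c2_log h3
    have h3' : (3 : ℝ) ≤ N := by exact_mod_cast h3
    have hpos : (0 : ℝ) < N := by linarith
    have hL : (0 : ℝ) < (Real.log N) ^ 3 := by positivity
    have hB : (c (N + 1) : ℝ) ≤ 16 * C1 * (N * (Real.log N) ^ 3) := by
      refine hs.trans ?_
      push_cast
      have e1 : (Real.log ((N : ℝ) + 1)) ^ 3 ≤ (2 * Real.log N) ^ 3 := by
        apply pow_le_pow_left₀ _ hl2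
        exact Real.log_nonneg (by linarith)
      have e2 : ((N : ℝ) + 1) * (Real.log ((N : ℝ) + 1)) ^ 3 ≤ (2 * N) * (2 * Real.log N) ^ 3 := by
        apply mul_le_mul (by linarith) e1 _ (by linarith)
        apply pow_nonneg
        exact Real.log_nonneg (by linarith)
      calc C1 * (((N : ℝ) + 1) * (Real.log ((N : ℝ) + 1)) ^ 3) ≤ C1 * ((2 * N) * (2 * Real.log N) ^ 3) :=
            mul_le_mul_of_nonneg_left e2 hC1pos
        _ = 16 * C1 * (N * (Real.log N) ^ 3) := by ring
    have := c2_key h hK hP h3 hN hB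
    refine this.trans ?_
    rw [div_le_iff₀ hpos]
    have e3 : 4 * b * K * (N * Real.log N) + 16 * C1 * (N * (Real.log N) ^ 3) ≤ C2 * (N * (Real.log N) ^ 3) := by
      rw [hC2, add_mul]
      have : Real.log N ≤ (Real.log N) ^ 3 := by
        nlinarith [mul_self_nonneg (Real.log N - 1), mul_self_nonneg (Real.log N)]
      have := mul_le_mul_of_nonneg_left this hpos.le
      have := mul_le_mul_of_nonneg_left this hbK
      linarith
    calc (4 * b * K * (N * Real.log N) + 16 * C1 * (N * (Real.log N) ^ 3)) * (Real.log N) ^ 3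
        ≤ C2 * (N * (Real.log N) ^ 3) * (Real.log N) ^ 3 := mul_le_mul_of_nonneg_right e3 hL.le
      _ = C2 * (Real.log N) ^ 6 * N := by ring
  -- step 3
  have s3 : ∀ᶠ N : ℕ in atTop, c (N + 1) ≤ c N := by
    have s2' := (tendsto_add_atTop_nat 2).eventually s2
    filter_upwards [hbig, eventually_ge_atTop 3, s2', D_le 5, c2_tend (4 * b * K) (64 * C2)] with
      N hN h3 hs hD ht
    obtain ⟨hl1, hl2, hl3, hl4⟩ := c2_log h3
    have h3' : (3 : ℝ) ≤ N := by exact_mod_cast h3
    have hpos : (0 : ℝ) < N := by linarith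
    by_contra hcon
    have hcon' : c N + 1 ≤ c (N + 1) := by
      push Not at hcon
      omega
    have hL : (0 : ℝ) < Real.log N := by linarith
    have hPpos : (0 : ℝ) < P N := lt_of_lt_of_le hpos (c2_le_P N)
    have hPN : (P N : ℝ) ≤ 4 * K * (N * Real.log N) := by
      calc (P N : ℝ) ≤ K * (((N : ℝ) + 1) * Real.log ((N : ℝ) + 2)) := hP N
        _ ≤ K * ((2 * N) * (2 * Real.log N)) := by
          apply mul_le_mul_of_nonneg_left _ (by linarith)
          apply mul_le_mul (by linarith) hl3 _ (by linarith)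
          exact Real.log_nonneg (by linarith)
        _ = 4 * K * (N * Real.log N) := by ring
    have hD' : (D N : ℝ) ≤ 4 * K * (N / (Real.log N) ^ 4) := by
      refine hD.trans ?_
      have e1 : Real.log N ≤ Real.log (P N) := Real.log_le_log hpos (c2_le_P N)
      have e2 : (Real.log N) ^ 5 ≤ (Real.log (P N)) ^ 5 := pow_le_pow_left₀ hL.le e1 5
      calc (P N : ℝ) / (Real.log (P N)) ^ 5 ≤ (P N : ℝ) / (Real.log N) ^ 5 :=
            div_le_div_of_nonneg_left hPpos.le (by positivity) e2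
        _ ≤ (4 * K * (N * Real.log N)) / (Real.log N) ^ 5 :=
            div_le_div_of_nonneg_right hPN (by positivity)
        _ = 4 * K * (N / (Real.log N) ^ 4) := by
            field_simp
    have hc2 : (c (N + 2) : ℝ) ≤ 64 * C2 * (Real.log N) ^ 6 := by
      refine hs.trans ?_
      push_cast
      have e1 : (Real.log ((N : ℝ) + 2)) ^ 6 ≤ (2 * Real.log N) ^ 6 := by
        apply pow_le_pow_left₀ _ hl3
        exact Real.log_nonneg (by linarith)
      calc C2 * (Real.log ((N : ℝ) + 2)) ^ 6 ≤ C2 * (2 * Real.log N) ^ 6 :=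
            mul_le_mul_of_nonneg_left e1 hC2pos
        _ = 64 * C2 * (Real.log N) ^ 6 := by ring
    have st0 : (c (N + 1) : ℝ) = a N * c N - b * P N := by
      have := h.step N
      rw [this]
      push_cast
      ring
    have st1 : (c (N + 2) : ℝ) = a (N + 1) * c (N + 1) - b * P (N + 1) := by
      have := h.step (N + 1)
      rw [this]
      push_cast
      ring
    have hcN : (0 : ℝ) < c N := by exact_mod_cast h.pos N
    have hcN1 : (0 : ℝ) < c (N + 1) := by exact_mod_cast h.pos (N + 1)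
    have hcr : (c N : ℝ) + 1 ≤ c (N + 1) := by exact_mod_cast hcon'
    have ha : (a N : ℝ) ≤ a (N + 1) := by exact_mod_cast hmono (Nat.le_succ N)
    have hmul : (a N : ℝ) * (c N + 1) ≤ a (N + 1) * c (N + 1) :=
      mul_le_mul ha hcr (by linarith) (Nat.cast_nonneg _)
    have hDeq := c2_D N
    have hfin : (a N : ℝ) ≤ b * D N + c (N + 2) := by
      rw [hDeq]
      nlinarith
    have hbD : (b : ℝ) * D N ≤ b * (4 * K * (N / (Real.log N) ^ 4)) :=
      mul_le_mul_of_nonneg_left hD' (by linarith)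
    have hall : (N : ℝ) / (Real.log N) ^ 3 < b * (4 * K * (N / (Real.log N) ^ 4)) + 64 * C2 * (Real.log N) ^ 6 := by
      linarith
    have hfac : (0 : ℝ) < N / (Real.log N) ^ 3 := by positivity
    have hid : b * (4 * K * (N / (Real.log N) ^ 4)) + 64 * C2 * (Real.log N) ^ 6 =
        (4 * b * K / Real.log N + 64 * C2 * ((Real.log N) ^ 9 / N)) * (N / (Real.log N) ^ 3) := by
      field_simp
    rw [hid] at hall
    have := mul_lt_mul_of_pos_right ht hfac
    linarith
  -- step 4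
  obtain ⟨N0, hN0⟩ := eventually_atTop.mp s3
  have hanti : ∀ m n : ℕ, N0 ≤ m → m ≤ n → c n ≤ c m := by
    intro m n hm hmn
    induction n, hmn using Nat.le_induction with
    | base => exact le_refl _
    | succ n hn ih => exact (hN0 n (hm.trans hn)).trans ih
  obtain ⟨N1, hN1, hmin⟩ : ∃ N1, N0 ≤ N1 ∧ ∀ n, N0 ≤ n → c N1 ≤ c n := by
    have hne : ∃ k : ℕ, ∃ n, N0 ≤ n ∧ (c n).toNat = k := ⟨_, N0, le_refl _, rfl⟩
    classical
    obtain ⟨n1, hn1, hn1'⟩ := Nat.find_spec hne
    refine ⟨n1, hn1, fun n hn => ?_⟩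
    have := Nat.find_min' hne ⟨n, hn, rfl⟩
    have p1 := h.pos n
    have p2 := h.pos n1
    omega
  have hconst : ∀ n, N1 ≤ n → c n = c N1 := fun n hn =>
    le_antisymm (hanti N1 n hN1 hn) (hmin n (hN1.trans hn))
  have hcs : (0 : ℝ) < c N1 := by exact_mod_cast h.pos N1
  obtain ⟨n, hn1, hn2⟩ := ((hlim (b / (2 * c N1)) (by positivity)).and_eventually
    (eventually_ge_atTop N1)).exists
  have st : (c (n + 1) : ℝ) = a n * c n - b * P n := by
    have := h.step n
    rw [this]
    push_cast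
    ring
  rw [hconst (n + 1) (by omega), hconst n hn2] at st
  have hPpos : (0 : ℝ) < P n := by
    exact_mod_cast (Nat.prime_nth_prime n).pos
  have h5 : (a n : ℝ) * c N1 ≤ b / (2 * c N1) * P n * c N1 := mul_le_mul_of_nonneg_right hn1 hcs.le
  have h6 : (b : ℝ) / (2 * c N1) * P n * c N1 = b * P n / 2 := by
    field_simp
  rw [h6] at h5
  have h7 : (0 : ℝ) < b * P n := by positivity
  linarith

end Pool.Agent.H47.IR
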