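import Pool.Agent.H47.IR.Defs
import Pool.Agent.H47.WS.ACheb
import Pool.Agent.H1.PP.Pnt

/-!
JOB IR-1. Chebyshev bound for the `n`-th prime, and gaps from the prime number theorem with error term.
-/

set_option autoImplicit false

open Finset Filter Topology

namespace Pool.Agent.H47.IR

open Pool.Agent.H16

theorem P_le : ∃ K : ℝ, 1 ≤ K ∧ ∀ n : ℕ, (P n : ℝ) ≤ K * (((n : ℝ) + 1) * Real.log ((n : ℝ) + 2)) := by
  obtain ⟨C, hC, hev⟩ := Pool.Agent.H47.WS.cheb_nth
  obtain ⟨N0, hN0⟩ := Filter.eventually_atTop.1 hev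
  obtain ⟨N1, hN1⟩ := exists_nat_ge (4 * C ^ 2)
  set N2 : ℕ := max (max N0 N1) 1 with hN2
  have hmono : Monotone P := (Nat.nth_strictMono Nat.infinite_setOfPred_prime).monotone
  refine ⟨3 * C + 2 * P N2 + 1, by
    have : (0 : ℝ) ≤ P N2 := Nat.cast_nonneg _
    linarith, fun n => ?_⟩
  have hPN : (0 : ℝ) ≤ P N2 := Nat.cast_nonneg _
  have hn0 : (0 : ℝ) ≤ n := Nat.cast_nonneg _
  have hl2 : 1 / 2 ≤ Real.log ((n : ℝ) + 2) := by
    have h1 : Real.log 2 ≤ Real.log ((n : ℝ) + 2) := Real.log_le_log (by norm_num) (by linarith)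
    linarith [Real.log_two_gt_d9]
  have hl0 : 0 ≤ ((n : ℝ) + 1) * Real.log ((n : ℝ) + 2) := by positivity
  by_cases hn : n + 1 ≤ N2
  · have h1 : (P n : ℝ) ≤ P N2 := by exact_mod_cast hmono (by omega)
    have h2 : 1 / 2 ≤ ((n : ℝ) + 1) * Real.log ((n : ℝ) + 2) := by nlinarith
    nlinarith
  · push Not at hn
    have hge : N0 ≤ n + 1 := by
      have := le_max_left (max N0 N1) 1
      have := le_max_left N0 N1
      omega
    have hge1 : N1 ≤ n + 1 := by
      have := le_max_left (max N0 N1) 1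
      have := le_max_right N0 N1
      omega
    have h1 := (hN0 (n + 1) hge).1
    rw [Nat.add_sub_cancel] at h1
    push_cast at h1
    have hPn : (P n : ℝ) ≤ C * (((n : ℝ) + 1) * Real.log (P n)) := h1
    have hpr : (P n).Prime := Nat.nth_mem_of_infinite Nat.infinite_setOfPred_prime n
    have hP0 : (0 : ℝ) < P n := by exact_mod_cast hpr.pos
    have hlogP : Real.log (P n) ≤ 2 * Real.sqrt (P n) := by
      have h2 := Real.log_le_sub_one_of_pos (Real.sqrt_pos.2 hP0)
      have h3 : Real.log (P n) = 2 * Real.log (Real.sqrt (P n)) := by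
        rw [Real.log_sqrt hP0.le]
        ring
      rw [h3]
      linarith
    have hsq := Real.mul_self_sqrt hP0.le
    have hs0 : 0 < Real.sqrt (P n) := Real.sqrt_pos.2 hP0
    have hN : (0 : ℝ) < (n : ℝ) + 1 := by linarith
    have h4 : Real.sqrt (P n) ≤ 2 * C * ((n : ℝ) + 1) := by
      have h5 : Real.sqrt (P n) * Real.sqrt (P n) ≤ (2 * C * ((n : ℝ) + 1)) * Real.sqrt (P n) := by
        rw [hsq]
        calc (P n : ℝ) ≤ C * (((n : ℝ) + 1) * Real.log (P n)) := hPn
          _ ≤ C * (((n : ℝ) + 1) * (2 * Real.sqrt (P n))) := by gcongr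
          _ = _ := by ring
      exact le_of_mul_le_mul_right h5 hs0
    have h6 : (P n : ℝ) ≤ ((n : ℝ) + 1) ^ 3 := by
      have h7 : (N1 : ℝ) ≤ (n : ℝ) + 1 := by exact_mod_cast hge1
      have h8 : (P n : ℝ) ≤ (2 * C * ((n : ℝ) + 1)) ^ 2 := by
        rw [← hsq, sq]
        exact mul_self_le_mul_self hs0.le h4
      calc (P n : ℝ) ≤ (2 * C * ((n : ℝ) + 1)) ^ 2 := h8
        _ = (4 * C ^ 2) * ((n : ℝ) + 1) ^ 2 := by ring
        _ ≤ ((n : ℝ) + 1) * ((n : ℝ) + 1) ^ 2 := by
          apply mul_le_mul_of_nonneg_right _ (by positivity)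
          linarith
        _ = _ := by ring
    have h9 : Real.log (P n) ≤ 3 * Real.log ((n : ℝ) + 2) := by
      calc Real.log (P n) ≤ Real.log (((n : ℝ) + 1) ^ 3) := Real.log_le_log hP0 h6
        _ = 3 * Real.log ((n : ℝ) + 1) := by rw [Real.log_pow]; norm_num
        _ ≤ 3 * Real.log ((n : ℝ) + 2) := by
          have := Real.log_le_log hN (by linarith : (n : ℝ) + 1 ≤ (n : ℝ) + 2)
          linarith
    calc (P n : ℝ) ≤ C * (((n : ℝ) + 1) * Real.log (P n)) := hPn
      _ ≤ C * (((n : ℝ) + 1) * (3 * Real.log ((n : ℝ) + 2))) := by gcongr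
      _ = 3 * C * (((n : ℝ) + 1) * Real.log ((n : ℝ) + 2)) := by ring
      _ ≤ _ := by
        apply mul_le_mul_of_nonneg_right _ hl0
        linarith

theorem cheb_P_prime (n : ℕ) : (P n).Prime := Nat.nth_mem_of_infinite Nat.infinite_setOfPred_prime n

theorem cheb_P_succ_le (n : ℕ) : P (n + 1) ≤ 2 * P n := by
  obtain ⟨q, hq, h1, h2⟩ := Nat.exists_prime_lt_and_le_two_mul (P n) (cheb_P_prime n).ne_zero
  by_contra hc
  push Not at hc
  have h3 : q ≤ P n := Nat.le_nth_of_lt_nth_succ (lt_of_le_of_lt h2 hc) hq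
  omega

theorem cheb_P_lt (n : ℕ) : P n < P (n + 1) :=
  Nat.nth_strictMono Nat.infinite_setOfPred_prime (Nat.lt_succ_self n)

theorem cheb_P_tendsto : Tendsto (fun n : ℕ => ((P n : ℕ) : ℝ)) atTop atTop :=
  tendsto_natCast_atTop_atTop.comp (Nat.nth_strictMono Nat.infinite_setOfPred_prime).tendsto_atTop

theorem cheb_np (X : ℕ) (hX : 1 ≤ X) :
    ∑ n ∈ Icc 1 X, (if n.Prime then 0 else ArithmeticFunction.vonMangoldt n) ≤
      2 * Real.sqrt X * Real.log X := by
  have h := Chebyshev.psi_sub_theta_le (x := (X : ℝ)) (by exact_mod_cast hX)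
  rw [Chebyshev.psi_sub_theta_eq_sum_not_prime, Nat.floor_natCast] at h
  have h1 : ∑ n ∈ Icc 1 X, (if n.Prime then 0 else ArithmeticFunction.vonMangoldt n) =
      ∑ n ∈ (Ioc 0 X).filter (fun n => ¬ n.Prime), ArithmeticFunction.vonMangoldt n := by
    rw [Finset.sum_filter]
    apply Finset.sum_congr
    · ext n
      simp only [Finset.mem_Icc, Finset.mem_Ioc]
      omega
    · intro n _
      by_cases hp : n.Prime
      · rw [if_pos hp, if_neg (not_not.2 hp)]
      · rw [if_neg hp, if_pos hp]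
  rw [h1]
  exact h

theorem cheb_np_nonneg (n : ℕ) :
    (0 : ℝ) ≤ (if n.Prime then 0 else ArithmeticFunction.vonMangoldt n) := by
  split_ifs
  · exact le_rfl
  · exact ArithmeticFunction.vonMangoldt_nonneg

/-- the von Mangoldt function between two consecutive primes -/
theorem cheb_between (n : ℕ) :
    ∑ m ∈ Ico (P n + 1) (P (n + 1)), ArithmeticFunction.vonMangoldt m ≤
      2 * Real.sqrt (P (n + 1)) * Real.log (P (n + 1)) := by
  refine le_trans ?_ (cheb_np (P (n + 1)) (cheb_P_prime (n + 1)).one_lt.le)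
  have h1 : ∑ m ∈ Ico (P n + 1) (P (n + 1)), ArithmeticFunction.vonMangoldt m =
      ∑ m ∈ Ico (P n + 1) (P (n + 1)), (if m.Prime then 0 else ArithmeticFunction.vonMangoldt m) := by
    apply Finset.sum_congr rfl
    intro m hm
    rw [Finset.mem_Ico] at hm
    rw [if_neg]
    intro hp
    have := Nat.le_nth_of_lt_nth_succ hm.2 hp
    have h2 : m ≤ P n := this
    omega
  rw [h1]
  apply Finset.sum_le_sum_of_subset_of_nonneg
  · intro m hm
    rw [Finset.mem_Ico] at hm
    rw [Finset.mem_Icc]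
    omega
  · intro m _ _
    exact cheb_np_nonneg m

/-- the elementary inequality at the end -/
theorem cheb_final (A : ℕ) : ∀ᶠ x : ℝ in atTop,
    1 + 4 * (x / (Real.log x) ^ (A + 2)) + 2 * Real.sqrt (2 * x) * Real.log (2 * x) ≤
      x / (Real.log x) ^ A := by
  have hev : ∀ᶠ x : ℝ in atTop, Real.log x ^ (2 * (A + 1)) ≤ (1 / 324) * x := by
    have h1 := (Real.isLittleO_pow_log_id_atTop (n := 2 * (A + 1))).bound
      (show (0 : ℝ) < 1 / 324 by norm_num)
    filter_upwards [h1, eventually_ge_atTop (1 : ℝ)] with x hx hx1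
    have h2 : 0 ≤ Real.log x := Real.log_nonneg hx1
    simp only [id, Real.norm_eq_abs] at hx
    rw [abs_of_nonneg (by positivity), abs_of_nonneg (by linarith)] at hx
    exact hx
  filter_upwards [hev, eventually_ge_atTop (Real.exp 4)] with x hx hx4
  have hx0 : 0 < x := lt_of_lt_of_le (Real.exp_pos 4) hx4
  have hL4 : 4 ≤ Real.log x := (Real.le_log_iff_exp_le hx0).2 hx4
  set L := Real.log x with hL
  have hx5 : 5 ≤ x := by
    have := Real.add_one_le_exp (4 : ℝ)
    linarith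
  have hLA : 0 < L ^ A := by positivity
  have hs : 18 * L ^ (A + 1) ≤ Real.sqrt x := by
    apply Real.le_sqrt_of_sq_le
    calc (18 * L ^ (A + 1)) ^ 2 = 324 * L ^ (2 * (A + 1)) := by
          rw [mul_pow, ← pow_mul, mul_comm (A + 1) 2]
          norm_num
      _ ≤ x := by linarith
  have hsx : 0 < Real.sqrt x := Real.sqrt_pos.2 hx0
  have hsx2 : Real.sqrt x * Real.sqrt x = x := Real.mul_self_sqrt hx0.le
  have hs1 : 1 ≤ Real.sqrt x := by
    rw [Real.one_le_sqrt]
    linarith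
  have h2 : Real.sqrt (2 * x) ≤ 2 * Real.sqrt x := by
    rw [Real.sqrt_mul (by norm_num : (0 : ℝ) ≤ 2)]
    apply mul_le_mul_of_nonneg_right _ hsx.le
    rw [Real.sqrt_le_left (by norm_num)]
    norm_num
  have h3 : Real.log (2 * x) ≤ 2 * L := by
    rw [Real.log_mul (by norm_num) hx0.ne']
    have : Real.log 2 ≤ 1 := by linarith [Real.log_two_lt_d9]
    linarith
  have h3' : 0 ≤ Real.log (2 * x) := Real.log_nonneg (by linarith)
  have h4 : 1 + 2 * Real.sqrt (2 * x) * Real.log (2 * x) ≤ 9 * (Real.sqrt x * L) := by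
    have h5 : 2 * Real.sqrt (2 * x) * Real.log (2 * x) ≤ 2 * (2 * Real.sqrt x) * (2 * L) := by
      apply mul_le_mul _ h3 h3' (by positivity)
      linarith
    have h6 : 1 ≤ Real.sqrt x * L := by nlinarith
    linarith
  have h5 : 9 * (Real.sqrt x * L) ≤ (1 / 2) * (x / L ^ A) := by
    rw [mul_div_assoc', le_div_iff₀ hLA]
    calc 9 * (Real.sqrt x * L) * L ^ A = (1 / 2) * (Real.sqrt x * (18 * L ^ (A + 1))) := by
          rw [pow_succ]; ring
      _ ≤ (1 / 2) * (Real.sqrt x * Real.sqrt x) := by gcongr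
      _ = (1 / 2) * x := by rw [hsx2]
  have h6 : 4 * (x / L ^ (A + 2)) ≤ (1 / 4) * (x / L ^ A) := by
    have e1 : x / L ^ (A + 2) = (x / L ^ A) / L ^ 2 := by
      rw [pow_add, div_div]
    rw [e1]
    have h7 : (16 : ℝ) ≤ L ^ 2 := by nlinarith
    have h8 : (x / L ^ A) / L ^ 2 ≤ (x / L ^ A) / 16 :=
      div_le_div_of_nonneg_left (by positivity) (by norm_num) h7
    linarith
  have h7 : 0 ≤ x / L ^ A := by positivity
  linarith

theorem D_le (A : ℕ) : ∀ᶠ n : ℕ in atTop, (D n : ℝ) ≤ (P n : ℝ) / (Real.log (P n)) ^ A := by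
  obtain ⟨x0, hx0⟩ := Pool.Agent.H1.PP.pnt_err (A + 2)
  filter_upwards [cheb_P_tendsto.eventually (cheb_final A),
    cheb_P_tendsto.eventually (eventually_ge_atTop (max (x0 : ℝ) 3))] with n hn hn2
  set p := P n with hp
  set q := P (n + 1) with hq
  have hpq : p < q := cheb_P_lt n
  have hq2 : q ≤ 2 * p := cheb_P_succ_le n
  have hx0p : x0 ≤ p := by
    have : (x0 : ℝ) ≤ p := (le_max_left _ _).trans hn2
    exact_mod_cast this
  have hp3 : (3 : ℝ) ≤ p := (le_max_right _ _).trans hn2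
  have e1 := hx0 q (by omega)
  have e2 := hx0 (p + 1) (by omega)
  have hLam : ∀ x : ℕ, ∑ n ∈ range x, Pool.Agent.H10.RP.Lam n =
      ((∑ n ∈ range x, ArithmeticFunction.vonMangoldt n : ℝ) : ℂ) := by
    intro x
    push_cast
    rfl
  have hre : ∀ x : ℕ, ‖∑ n ∈ range x, Pool.Agent.H10.RP.Lam n - (x : ℂ)‖ =
      |∑ n ∈ range x, ArithmeticFunction.vonMangoldt n - (x : ℝ)| := by
    intro x
    rw [hLam, ← Real.norm_eq_abs, ← Complex.norm_real]
    push_cast
    rfl
  rw [hre] at e1 e2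
  have a1 := (abs_le.1 e1).1
  have a2 := (abs_le.1 e2).2
  have hsum : ∑ n ∈ range q, (ArithmeticFunction.vonMangoldt n : ℝ) =
      ∑ n ∈ range (p + 1), (ArithmeticFunction.vonMangoldt n : ℝ) +
        ∑ n ∈ Ico (p + 1) q, (ArithmeticFunction.vonMangoldt n : ℝ) := by
    rw [Finset.sum_range_add_sum_Ico _ (by omega : p + 1 ≤ q)]
  have hb := cheb_between n
  rw [← hp, ← hq] at hb
  have hq3 : (3 : ℝ) ≤ q := by
    have : (p : ℝ) ≤ q := by exact_mod_cast hpq.le
    linarith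
  have hqr : (q : ℝ) ≤ 2 * p := by exact_mod_cast hq2
  have hpqr : (p : ℝ) ≤ q := by exact_mod_cast hpq.le
  have hlp : 0 < Real.log p := Real.log_pos (by linarith)
  have f1 : (q : ℝ) / (Real.log q) ^ (A + 2) ≤ 2 * ((p : ℝ) / (Real.log p) ^ (A + 2)) := by
    rw [mul_div_assoc']
    have hl : Real.log p ≤ Real.log q := Real.log_le_log (by linarith) hpqr
    gcongr
  have f2 : ((p + 1 : ℕ) : ℝ) / (Real.log ((p + 1 : ℕ) : ℝ)) ^ (A + 2) ≤
      2 * ((p : ℝ) / (Real.log p) ^ (A + 2)) := by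
    rw [mul_div_assoc']
    have hl : Real.log p ≤ Real.log ((p + 1 : ℕ) : ℝ) := by
      apply Real.log_le_log (by linarith)
      push_cast
      linarith
    have hle : ((p + 1 : ℕ) : ℝ) ≤ 2 * p := by
      push_cast
      linarith
    gcongr
  have f3 : 2 * Real.sqrt q * Real.log q ≤ 2 * Real.sqrt (2 * p) * Real.log (2 * p) := by
    have hl : Real.log q ≤ Real.log (2 * p) := Real.log_le_log (by linarith) hqr
    have hl0 : 0 ≤ Real.log q := Real.log_nonneg (by linarith)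
    have hsq : Real.sqrt q ≤ Real.sqrt (2 * p) := Real.sqrt_le_sqrt hqr
    gcongr
  have hD : (D n : ℝ) = (q : ℝ) - p := by
    unfold D
    rw [Nat.cast_sub hpq.le]
  rw [hD]
  push_cast at a2 f2
  linarith

end Pool.Agent.H47.IR
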