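import Pool.Agent.H47.IR.Defs

/-!
JOB IR-5. The number of patterns.
-/

set_option autoImplicit false

open Finset Filter Topology

namespace Pool.Agent.H47.IR

/-- vectors with a prescribed value modulo `t^I` and the coprimality conditions -/
noncomputable def Count_G (I t W : ℕ) (c : ℤ) (γ L : ℕ) : Finset (Fin I → ℕ) := by
  classical
  exact (Fintype.piFinset (fun _ : Fin I => Icc 1 L)).filter (fun g =>
    (∑ j : Fin I, g j * t ^ (I - 1 - (j : ℕ))) ≡ γ [MOD t ^ I] ∧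
    ∀ j : Fin I, IsCoprime (c - ∑ i ∈ univ.filter (fun i => j ≤ i), (g i : ℤ)) (W : ℤ))

/-- the possible last gaps -/
noncomputable def Count_X (n t W : ℕ) (c : ℤ) (γ L : ℕ) : Finset ℕ := by
  classical
  exact (Count_G (n + 1) t W c γ L).image (fun g => g (Fin.last n))

lemma Count_memX {n t W : ℕ} {c : ℤ} {γ L x : ℕ} :
    x ∈ Count_X n t W c γ L ↔ ∃ g ∈ Count_G (n + 1) t W c γ L, g (Fin.last n) = x := by
  classical
  simp only [Count_X, mem_image]

lemma Count_mem {I t W : ℕ} {c : ℤ} {γ L : ℕ} {g : Fin I → ℕ} :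
    g ∈ Count_G I t W c γ L ↔ (∀ j, g j ∈ Icc 1 L) ∧
      (∑ j : Fin I, g j * t ^ (I - 1 - (j : ℕ))) ≡ γ [MOD t ^ I] ∧
      ∀ j : Fin I, IsCoprime (c - ∑ i ∈ univ.filter (fun i => j ≤ i), (g i : ℤ)) (W : ℤ) := by
  classical
  simp only [Count_G, mem_filter, Fintype.mem_piFinset]

lemma Count_wt (I t : ℕ) (g : Fin (I + 1) → ℕ) :
    ∑ j : Fin (I + 1), g j * t ^ (I + 1 - 1 - (j : ℕ)) =
      g (Fin.last I) + t * ∑ j : Fin I, g j.castSucc * t ^ (I - 1 - (j : ℕ)) := by
  rw [Fin.sum_univ_castSucc, Finset.mul_sum, add_comm]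
  congr 1
  · simp
  · refine Finset.sum_congr rfl fun j _ => ?_
    have h : I + 1 - 1 - ((j.castSucc : Fin (I + 1)) : ℕ) = (I - 1 - (j : ℕ)) + 1 := by
      have := j.isLt
      simp only [Fin.val_castSucc]
      omega
    rw [h, pow_succ]
    ring

lemma Count_tail (I : ℕ) (g : Fin (I + 1) → ℕ) (j : Fin I) :
    ∑ i ∈ univ.filter (fun i : Fin (I + 1) => j.castSucc ≤ i), (g i : ℤ) =
      (g (Fin.last I) : ℤ) + ∑ i ∈ univ.filter (fun i : Fin I => j ≤ i), (g i.castSucc : ℤ) := by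
  rw [Finset.sum_filter, Fin.sum_univ_castSucc, Finset.sum_filter, add_comm]
  refine congrArg₂ (· + ·) ?_ ?_
  · simp [Fin.le_last]
  · refine Finset.sum_congr rfl fun i _ => ?_
    simp only [Fin.castSucc_le_castSucc_iff]

lemma Count_last (I : ℕ) (g : Fin (I + 1) → ℕ) :
    ∑ i ∈ univ.filter (fun i : Fin (I + 1) => Fin.last I ≤ i), (g i : ℤ) =
      (g (Fin.last I) : ℤ) := by
  have h : univ.filter (fun i : Fin (I + 1) => Fin.last I ≤ i) = {Fin.last I} := by
    ext i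
    simp [Fin.last_le_iff]
  rw [h, Finset.sum_singleton]

/-- the choice of the residue of the tail -/
lemma Count_res (t I x γ : ℕ) (ht : 2 ≤ t) :
    ∃ γ' : ℕ, ∀ s : ℕ, x + t * s ≡ γ [MOD t ^ (I + 1)] → s ≡ γ' [MOD t ^ I] := by
  by_cases h : ∃ s0 : ℕ, x + t * s0 ≡ γ [MOD t ^ (I + 1)]
  · obtain ⟨s0, hs0⟩ := h
    refine ⟨s0, fun s hs => ?_⟩
    have h1 : x + t * s ≡ x + t * s0 [MOD t ^ (I + 1)] := hs.trans hs0.symm
    have h2 : t * s ≡ t * s0 [MOD t ^ (I + 1)] := Nat.ModEq.add_left_cancel' x h1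
    rw [pow_succ, mul_comm (t ^ I) t] at h2
    exact Nat.ModEq.mul_left_cancel' (by omega) h2
  · refine ⟨0, fun s hs => absurd ⟨s, hs⟩ h⟩

/-- the excluded class modulo one prime -/
lemma Count_cls (p t γ : ℕ) (c : ℤ) (hp : p.Prime) (ht : 2 ≤ t) :
    ∃ r : ℕ, ∀ x y q : ℕ, x = γ % t + t * q → x + t * y ≡ γ [MOD t ^ 2] → q ≡ r [MOD p] →
      (p : ℤ) ∣ c - x ∨ (p : ℤ) ∣ c - ((x : ℤ) + y) := by
  haveI : Fact p.Prime := ⟨hp⟩
  by_cases hpt : p ∣ t
  · refine ⟨((((γ / t : ℕ) : ZMod p) + ((γ % t : ℕ) : ZMod p) - (c : ZMod p))).val, ?_⟩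
    intro x y q hx hxy hq
    right
    have hq' : (q : ZMod p) = ((γ / t : ℕ) : ZMod p) + ((γ % t : ℕ) : ZMod p) - (c : ZMod p) := by
      have h := (ZMod.natCast_eq_natCast_iff _ _ _).2 hq
      rw [ZMod.natCast_zmod_val] at h
      exact h
    have h1 : t * (q + y) ≡ t * (γ / t) [MOD t * t] := by
      have h2 : γ % t + t * (q + y) ≡ γ % t + t * (γ / t) [MOD t * t] := by
        have h3 : γ % t + t * (q + y) = x + t * y := by
          rw [hx]
          ring
        rw [h3, Nat.mod_add_div, ← sq]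
        exact hxy
      exact Nat.ModEq.add_left_cancel' _ h2
    have h2 : q + y ≡ γ / t [MOD t] := Nat.ModEq.mul_left_cancel' (by omega) h1
    have h3 : q + y ≡ γ / t [MOD p] := h2.of_dvd hpt
    have h4 : ((q : ZMod p) + (y : ZMod p)) = ((γ / t : ℕ) : ZMod p) := by
      have h := (ZMod.natCast_eq_natCast_iff _ _ _).2 h3
      push_cast at h
      exact h
    have ht0 : (t : ZMod p) = 0 := (ZMod.natCast_eq_zero_iff t p).2 hpt
    rw [← ZMod.intCast_zmod_eq_zero_iff_dvd]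
    push_cast
    have hxz : (x : ZMod p) = ((γ % t : ℕ) : ZMod p) := by
      rw [hx]
      push_cast
      rw [ht0, zero_mul, add_zero]
    rw [hxz]
    linear_combination hq' - h4
  · refine ⟨(((c : ZMod p) - ((γ % t : ℕ) : ZMod p)) * (t : ZMod p)⁻¹).val, ?_⟩
    intro x y q hx _ hq
    left
    have ht0 : (t : ZMod p) ≠ 0 := fun h => hpt ((ZMod.natCast_eq_zero_iff t p).1 h)
    have hq' : (q : ZMod p) = ((c : ZMod p) - ((γ % t : ℕ) : ZMod p)) * (t : ZMod p)⁻¹ := by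
      have h := (ZMod.natCast_eq_natCast_iff _ _ _).2 hq
      rw [ZMod.natCast_zmod_val] at h
      exact h
    have h1 : (t : ZMod p) * (q : ZMod p) = (c : ZMod p) - ((γ % t : ℕ) : ZMod p) := by
      rw [hq']
      field_simp
    rw [← ZMod.intCast_zmod_eq_zero_iff_dvd]
    have hxz : (x : ZMod p) = ((γ % t : ℕ) : ZMod p) + (t : ZMod p) * (q : ZMod p) := by
      rw [hx]
      push_cast
      rfl
    push_cast
    rw [hxz, h1]
    ring

lemma Count_nonneg {t W : ℕ} {lam Θ : ℝ} (hΘ : Th W t lam Θ) : 0 ≤ Θ := by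
  classical
  have h := hΘ (fun _ => 0) 0
  simpa using h

/-- change of variables in an arithmetic progression -/
lemma Count_prog {t : ℕ} {lam : ℝ} (hlam : 0 < lam) (γ : ℕ) (X Y : Finset ℕ)
    (hX : ∀ x ∈ X, x ≡ γ [MOD t]) (hY : ∀ x ∈ X, x / t ∈ Y) :
    ∑ x ∈ X, Real.exp (-((x : ℝ) / lam)) ≤ ∑ q ∈ Y, Real.exp (-((t : ℝ) * (q : ℝ) / lam)) := by
  classical
  have hx : ∀ x ∈ X, x = γ % t + t * (x / t) := by
    intro x hxX
    have h1 : x % t = γ % t := hX x hxX
    have h2 := Nat.mod_add_div x t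
    rw [h1] at h2
    exact h2.symm
  have hinj : Set.InjOn (fun x : ℕ => x / t) (X : Set ℕ) := by
    intro x hxX y hyX hxy
    have h1 := hx x hxX
    have h2 := hx y hyX
    simp only at hxy
    rw [h1, h2, hxy]
  calc ∑ x ∈ X, Real.exp (-((x : ℝ) / lam))
      ≤ ∑ x ∈ X, Real.exp (-((t : ℝ) * ((x / t : ℕ) : ℝ) / lam)) := by
        refine Finset.sum_le_sum fun x hxX => ?_
        rw [Real.exp_le_exp]
        have h1 : ((t : ℝ) * ((x / t : ℕ) : ℝ)) ≤ (x : ℝ) := by
          exact_mod_cast Nat.mul_div_le x t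
        have := div_le_div_of_nonneg_right h1 hlam.le
        linarith
    _ = ∑ q ∈ X.image (fun x : ℕ => x / t), Real.exp (-((t : ℝ) * (q : ℝ) / lam)) := by
        rw [Finset.sum_image hinj]
    _ ≤ _ := by
        refine Finset.sum_le_sum_of_subset_of_nonneg ?_ fun q _ _ => (Real.exp_pos _).le
        intro q hq
        rw [Finset.mem_image] at hq
        obtain ⟨x, hxX, rfl⟩ := hq
        exact hY x hxX

/-- one step -/
lemma Count_one {t W : ℕ} {lam Θ : ℝ} (ht : 2 ≤ t) (hW : 1 ≤ W) (hlam : 0 < lam)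
    (hΘ : Th W t lam Θ) (c : ℤ) (γ L : ℕ) (X : Finset ℕ) (hX : ∀ x ∈ X, x ≤ L ∧ x ≡ γ [MOD t] ∧
      IsCoprime (c - (x : ℤ)) (W : ℤ) ∧ ∃ y : ℕ, x + t * y ≡ γ [MOD t ^ 2] ∧
        IsCoprime (c - ((x : ℤ) + y)) (W : ℤ)) :
    ∑ x ∈ X, Real.exp (-((x : ℝ) / lam)) ≤ Θ := by
  classical
  have hr : ∀ p : ℕ, ∃ r : ℕ, p.Prime → ∀ x y q : ℕ, x = γ % t + t * q →
      x + t * y ≡ γ [MOD t ^ 2] → q ≡ r [MOD p] →
      (p : ℤ) ∣ c - x ∨ (p : ℤ) ∣ c - ((x : ℤ) + y) := by
    intro p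
    by_cases hp : p.Prime
    · obtain ⟨r, hr⟩ := Count_cls p t γ c hp ht
      exact ⟨r, fun _ => hr⟩
    · exact ⟨0, fun h => absurd h hp⟩
  choose r hr using hr
  have h := hΘ r (L + 1)
  refine le_trans (Count_prog hlam γ X _ (fun x hx => (hX x hx).2.1) ?_) h
  intro x hxX
  obtain ⟨hx1, hx2, hx3, y, hy1, hy2⟩ := hX x hxX
  rw [Finset.mem_filter, Finset.mem_range]
  refine ⟨?_, ?_⟩
  · have h1 : x / t ≤ x := Nat.div_le_self x t
    omega
  · intro p hp hq
    have hpp := Nat.prime_of_mem_primeFactors hp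
    have hpW : (p : ℤ) ∣ (W : ℤ) := by exact_mod_cast Nat.dvd_of_mem_primeFactors hp
    have hxe : x = γ % t + t * (x / t) := by
      have h1 : x % t = γ % t := hx2
      have h2 := Nat.mod_add_div x t
      rw [h1] at h2
      exact h2.symm
    have hpi : Prime (p : ℤ) := Nat.prime_iff_prime_int.1 hpp
    rcases hr p hpp x y (x / t) hxe hy1 hq with h1 | h1
    · exact hpi.not_unit (hx3.isUnit_of_dvd' h1 hpW)
    · exact hpi.not_unit (hy2.isUnit_of_dvd' h1 hpW)

/-- the geometric sum -/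
lemma Count_geo {t : ℕ} {lam : ℝ} (ht : 2 ≤ t) (hlam : 0 < lam) (Q : ℕ) :
    ∑ q ∈ range Q, Real.exp (-((t : ℝ) * (q : ℝ) / lam)) ≤ 1 + lam / t := by
  have ht0 : (0 : ℝ) < t := by exact_mod_cast (by omega : 0 < t)
  obtain ⟨u, hu⟩ : ∃ u : ℝ, u = (t : ℝ) / lam := ⟨_, rfl⟩
  have hu0 : 0 < u := by
    rw [hu]
    positivity
  have hlt : lam / t = 1 / u := by
    rw [hu]
    field_simp
  have h1 : ∀ q : ℕ, Real.exp (-((t : ℝ) * (q : ℝ) / lam)) = Real.exp (-u) ^ q := by
    intro q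
    rw [← Real.exp_nat_mul, hu]
    congr 1
    ring
  rw [Finset.sum_congr rfl fun q _ => h1 q, hlt]
  have he0 : 0 < Real.exp (-u) := Real.exp_pos _
  have he : Real.exp (-u) ≤ 1 / (1 + u) := by
    rw [Real.exp_neg, ← one_div]
    exact one_div_le_one_div_of_le (by linarith) (by linarith [Real.add_one_le_exp u])
  have he1 : Real.exp (-u) < 1 := by
    refine lt_of_le_of_lt he ?_
    rw [div_lt_one (by linarith)]
    linarith
  have h2 : ∑ q ∈ range Q, Real.exp (-u) ^ q ≤ 1 / (1 - Real.exp (-u)) := by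
    have h3 := (summable_geometric_of_lt_one he0.le he1).sum_le_tsum (range Q)
      fun q _ => (pow_pos he0 q).le
    rw [tsum_geometric_of_lt_one he0.le he1] at h3
    rwa [one_div]
  refine h2.trans ?_
  have h4 : u / (1 + u) ≤ 1 - Real.exp (-u) := by
    have : u / (1 + u) = 1 - 1 / (1 + u) := by
      field_simp
      ring
    rw [this]
    linarith
  have h5 : 0 < u / (1 + u) := by positivity
  calc 1 / (1 - Real.exp (-u)) ≤ 1 / (u / (1 + u)) := one_div_le_one_div_of_le h5 h4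
    _ = 1 + 1 / u := by
        field_simp
        ring

/-- peeling off the last gap -/
lemma Count_step {t W : ℕ} {lam : ℝ} (ht : 2 ≤ t) (L n : ℕ) (c : ℤ) (γ : ℕ) :
    ∃ gam : ℕ → ℕ, ∑ g ∈ Count_G (n + 1) t W c γ L, Real.exp (-((∑ j, (g j : ℝ)) / lam)) ≤
      ∑ x ∈ Count_X n t W c γ L,
        Real.exp (-((x : ℝ) / lam)) * ∑ g ∈ Count_G n t W (c - x) (gam x) L,
          Real.exp (-((∑ j, (g j : ℝ)) / lam)) := by
  classical
  choose gam hgam using fun x : ℕ => Count_res t n x γ ht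
  refine ⟨gam, ?_⟩
  let X : Finset ℕ := Count_X n t W c γ L
  let T : Finset (Σ _ : ℕ, (Fin n → ℕ)) := X.sigma fun x => Count_G n t W (c - x) (gam x) L
  let e : (Fin (n + 1) → ℕ) → (Σ _ : ℕ, (Fin n → ℕ)) :=
    fun g => ⟨g (Fin.last n), fun j => g j.castSucc⟩
  let w : (Σ _ : ℕ, (Fin n → ℕ)) → ℝ := fun p =>
    Real.exp (-((p.1 : ℝ) / lam)) * Real.exp (-((∑ j, (p.2 j : ℝ)) / lam))
  have hinj : Set.InjOn e (Count_G (n + 1) t W c γ L : Set (Fin (n + 1) → ℕ)) := by
    intro g _ g' _ hgg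
    have h1 : g (Fin.last n) = g' (Fin.last n) := congrArg Sigma.fst hgg
    have h2 : (fun j : Fin n => g j.castSucc) = fun j : Fin n => g' j.castSucc := by
      have h3 := (Sigma.mk.inj_iff.1 hgg).2
      exact eq_of_heq h3
    funext i
    refine Fin.lastCases ?_ (fun j => ?_) i
    · exact h1
    · exact congrFun h2 j
  have hmem : ∀ g ∈ Count_G (n + 1) t W c γ L, e g ∈ T := by
    intro g hg
    obtain ⟨hg1, hg2, hg3⟩ := Count_mem.1 hg
    rw [Count_wt] at hg2
    refine Finset.mem_sigma.2 ⟨Count_memX.2 ⟨g, hg, rfl⟩, Count_mem.2 ⟨?_, ?_, ?_⟩⟩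
    · intro j
      exact hg1 _
    · exact hgam _ _ hg2
    · intro j
      have h1 := hg3 j.castSucc
      rw [Count_tail] at h1
      have h2 : c - (g (Fin.last n) : ℤ) - ∑ i ∈ univ.filter (fun i : Fin n => j ≤ i),
          (g i.castSucc : ℤ) = c - ((g (Fin.last n) : ℤ) +
            ∑ i ∈ univ.filter (fun i : Fin n => j ≤ i), (g i.castSucc : ℤ)) := by ring
      change IsCoprime (c - (g (Fin.last n) : ℤ) - ∑ i ∈ univ.filter (fun i : Fin n => j ≤ i),
          (g i.castSucc : ℤ)) (W : ℤ)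
      rw [h2]
      exact h1
  have hw : ∀ g : Fin (n + 1) → ℕ, Real.exp (-((∑ j, (g j : ℝ)) / lam)) = w (e g) := by
    intro g
    simp only [w, e]
    rw [← Real.exp_add, Fin.sum_univ_castSucc]
    congr 1
    ring
  calc ∑ g ∈ Count_G (n + 1) t W c γ L, Real.exp (-((∑ j, (g j : ℝ)) / lam))
      = ∑ g ∈ Count_G (n + 1) t W c γ L, w (e g) := Finset.sum_congr rfl fun g _ => hw g
    _ = ∑ p ∈ (Count_G (n + 1) t W c γ L).image e, w p := (Finset.sum_image hinj).symm
    _ ≤ ∑ p ∈ T, w p := by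
        refine Finset.sum_le_sum_of_subset_of_nonneg ?_ fun p _ _ => by positivity
        intro p hp
        obtain ⟨g, hg, rfl⟩ := Finset.mem_image.1 hp
        exact hmem g hg
    _ = ∑ x ∈ X, ∑ g ∈ Count_G n t W (c - x) (gam x) L,
          Real.exp (-((x : ℝ) / lam)) * Real.exp (-((∑ j, (g j : ℝ)) / lam)) :=
        Finset.sum_sigma _ _ _
    _ = ∑ x ∈ X, Real.exp (-((x : ℝ) / lam)) * ∑ g ∈ Count_G n t W (c - x) (gam x) L,
          Real.exp (-((∑ j, (g j : ℝ)) / lam)) :=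
        Finset.sum_congr rfl fun x _ => (Finset.mul_sum _ _ _).symm

/-- the congruence of the last gap -/
lemma Count_mod1 {t W L n : ℕ} {c : ℤ} {γ : ℕ} {g : Fin (n + 1) → ℕ}
    (hg : g ∈ Count_G (n + 1) t W c γ L) : g (Fin.last n) ≡ γ [MOD t] := by
  obtain ⟨hg1, hg2, hg3⟩ := Count_mem.1 hg
  rw [Count_wt] at hg2
  have h1 : g (Fin.last n) + t * ∑ j : Fin n, g j.castSucc * t ^ (n - 1 - (j : ℕ)) ≡ γ
      [MOD t] := hg2.of_dvd (dvd_pow_self t (by omega))
  have h2 : g (Fin.last n) + t * ∑ j : Fin n, g j.castSucc * t ^ (n - 1 - (j : ℕ)) ≡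
      g (Fin.last n) [MOD t] := by
    simp [Nat.ModEq]
  exact h2.symm.trans h1

/-- the congruence of the last two gaps -/
lemma Count_mod2 {t W L n : ℕ} {c : ℤ} {γ : ℕ} {g : Fin (n + 1 + 1) → ℕ}
    (hg : g ∈ Count_G (n + 1 + 1) t W c γ L) :
    g (Fin.last (n + 1)) + t * g (Fin.last n).castSucc ≡ γ [MOD t ^ 2] := by
  obtain ⟨hg1, hg2, hg3⟩ := Count_mem.1 hg
  rw [Count_wt, Count_wt n t (fun j : Fin (n + 1) => g j.castSucc)] at hg2
  have h1 := hg2.of_dvd (pow_dvd_pow t (by omega : 2 ≤ n + 1 + 1))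
  refine Nat.ModEq.trans ?_ h1
  have h2 : ∀ a b S : ℕ, a + t * (b + t * S) = (a + t * b) + t ^ 2 * S := by
    intro a b S
    ring
  rw [h2]
  simp [Nat.ModEq]

lemma Count_main {t W : ℕ} {lam Θ : ℝ} (ht : 2 ≤ t) (hW : 1 ≤ W) (hlam : 0 < lam)
    (hΘ : Th W t lam Θ) (L : ℕ) : ∀ (I : ℕ) (c : ℤ) (γ : ℕ),
    ∑ g ∈ Count_G (I + 1) t W c γ L, Real.exp (-((∑ j, (g j : ℝ)) / lam)) ≤
      Θ ^ I * (1 + lam / t) := by
  classical
  have hΘ0 := Count_nonneg hΘ
  have ht0 : (0 : ℝ) < t := by exact_mod_cast (by omega : 0 < t)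
  have hlt : 0 ≤ 1 + lam / (t : ℝ) := by positivity
  intro I
  induction I with
  | zero =>
    intro c γ
    obtain ⟨gam, hgam⟩ := Count_step (W := W) (lam := lam) ht L 0 c γ
    refine hgam.trans ?_
    have hin : ∀ x : ℕ, ∑ g ∈ Count_G 0 t W (c - x) (gam x) L,
        Real.exp (-((∑ j, (g j : ℝ)) / lam)) ≤ 1 := by
      intro x
      have hsub : Count_G 0 t W (c - x) (gam x) L ⊆ {fun i => i.elim0} := by
        intro g _
        rw [Finset.mem_singleton]
        funext i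
        exact i.elim0
      calc ∑ g ∈ Count_G 0 t W (c - x) (gam x) L, Real.exp (-((∑ j, (g j : ℝ)) / lam))
          ≤ ∑ g ∈ ({fun i => i.elim0} : Finset (Fin 0 → ℕ)),
              Real.exp (-((∑ j, (g j : ℝ)) / lam)) :=
            Finset.sum_le_sum_of_subset_of_nonneg hsub fun _ _ _ => (Real.exp_pos _).le
        _ = 1 := by simp
    calc ∑ x ∈ Count_X 0 t W c γ L,
        Real.exp (-((x : ℝ) / lam)) * ∑ g ∈ Count_G 0 t W (c - x) (gam x) L,
          Real.exp (-((∑ j, (g j : ℝ)) / lam))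
        ≤ ∑ x ∈ Count_X 0 t W c γ L,
            Real.exp (-((x : ℝ) / lam)) := by
          refine Finset.sum_le_sum fun x _ => ?_
          calc _ ≤ Real.exp (-((x : ℝ) / lam)) * 1 :=
                mul_le_mul_of_nonneg_left (hin x) (Real.exp_pos _).le
            _ = _ := mul_one _
      _ ≤ ∑ q ∈ range (L + 1), Real.exp (-((t : ℝ) * (q : ℝ) / lam)) := by
          refine Count_prog hlam γ _ _ ?_ ?_
          · intro x hx
            obtain ⟨g, hg, rfl⟩ := Count_memX.1 hx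
            exact Count_mod1 hg
          · intro x hx
            obtain ⟨g, hg, rfl⟩ := Count_memX.1 hx
            have h1 := (Finset.mem_Icc.1 ((Count_mem.1 hg).1 (Fin.last 0))).2
            have h2 : g (Fin.last 0) / t ≤ g (Fin.last 0) := Nat.div_le_self _ t
            rw [Finset.mem_range]
            omega
      _ ≤ 1 + lam / t := Count_geo ht hlam _
      _ = Θ ^ 0 * (1 + lam / t) := by rw [pow_zero, one_mul]
  | succ I ih =>
    intro c γ
    obtain ⟨gam, hgam⟩ := Count_step (W := W) (lam := lam) ht L (I + 1) c γ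
    refine hgam.trans ?_
    have hB : 0 ≤ Θ ^ I * (1 + lam / t) := mul_nonneg (pow_nonneg hΘ0 I) hlt
    calc ∑ x ∈ Count_X (I + 1) t W c γ L,
        Real.exp (-((x : ℝ) / lam)) * ∑ g ∈ Count_G (I + 1) t W (c - x) (gam x) L,
          Real.exp (-((∑ j, (g j : ℝ)) / lam))
        ≤ ∑ x ∈ Count_X (I + 1) t W c γ L,
            Real.exp (-((x : ℝ) / lam)) * (Θ ^ I * (1 + lam / t)) :=
          Finset.sum_le_sum fun x _ => mul_le_mul_of_nonneg_left (ih _ _) (Real.exp_pos _).le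
      _ = (∑ x ∈ Count_X (I + 1) t W c γ L,
            Real.exp (-((x : ℝ) / lam))) * (Θ ^ I * (1 + lam / t)) :=
          (Finset.sum_mul _ _ _).symm
      _ ≤ Θ * (Θ ^ I * (1 + lam / t)) := by
          refine mul_le_mul_of_nonneg_right ?_ hB
          refine Count_one ht hW hlam hΘ c γ L _ fun x hx => ?_
          obtain ⟨g, hg, rfl⟩ := Count_memX.1 hx
          obtain ⟨hg1, hg2, hg3⟩ := Count_mem.1 hg
          have hlast := hg3 (Fin.last (I + 1))
          rw [Count_last] at hlast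
          refine ⟨(Finset.mem_Icc.1 (hg1 _)).2, Count_mod1 hg, hlast,
            g (Fin.last I).castSucc, Count_mod2 hg, ?_⟩
          have h2 := hg3 (Fin.last I).castSucc
          rw [Count_tail, Count_last I (fun j : Fin (I + 1) => g j.castSucc)] at h2
          exact h2
      _ = Θ ^ (I + 1) * (1 + lam / t) := by ring

/-- the number of solutions of the linear congruence -/
lemma Count_lin (b r m : ℕ) (hm : 1 ≤ m) (hb : 1 ≤ b) :
    #((range m).filter (fun γ => m ∣ b * γ + r)) ≤ b := by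
  classical
  have h : #((range m).filter (fun γ => m ∣ b * γ + r)) ≤
      #(Ico ((r + m - 1) / m) ((r + m - 1) / m + b)) := by
    refine Finset.card_le_card_of_injOn (fun γ => (b * γ + r) / m) ?_ ?_
    · intro γ hγ
      obtain ⟨h1, k, hk⟩ := Finset.mem_filter.1 (Finset.mem_coe.1 hγ)
      have h1' := Finset.mem_range.1 h1
      rw [Finset.mem_coe, Finset.mem_Ico]
      change (r + m - 1) / m ≤ (b * γ + r) / m ∧ (b * γ + r) / m < (r + m - 1) / m + b
      rw [hk, Nat.mul_div_cancel_left k (by omega)]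
      have hq1 : m * ((r + m - 1) / m) ≤ r + m - 1 := Nat.mul_div_le _ _
      have hq2 : r + m - 1 < m * ((r + m - 1) / m) + m := Nat.lt_mul_div_succ _ (by omega)
      generalize (r + m - 1) / m = q at *
      have hr : r ≤ m * k := by
        rw [← hk]
        omega
      have hr2 : m * k < r + b * m := by
        rw [← hk]
        have : b * γ < b * m := Nat.mul_lt_mul_of_pos_left h1' (by omega)
        omega
      constructor
      · by_contra hc
        push Not at hc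
        have h2 : m * (k + 1) ≤ m * q := Nat.mul_le_mul_left m hc
        have h3 : m * (k + 1) = m * k + m := by ring
        omega
      · by_contra hc
        push Not at hc
        have h2 : m * (q + b) ≤ m * k := Nat.mul_le_mul_left m hc
        have h3 : m * (q + b) = m * q + b * m := by ring
        omega
    · intro γ hγ γ' hγ' hgg
      obtain ⟨-, k, hk⟩ := Finset.mem_filter.1 (Finset.mem_coe.1 hγ)
      obtain ⟨-, k', hk'⟩ := Finset.mem_filter.1 (Finset.mem_coe.1 hγ')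
      have hgg' : (b * γ + r) / m = (b * γ' + r) / m := hgg
      rw [hk, hk', Nat.mul_div_cancel_left k (by omega), Nat.mul_div_cancel_left k' (by omega)]
        at hgg'
      have h2 : b * γ + r = b * γ' + r := by rw [hk, hk', hgg']
      have h3 : b * γ = b * γ' := by omega
      exact Nat.eq_of_mul_eq_mul_left (by omega) h3
  rw [Nat.card_Ico] at h
  omega

theorem count_pat {t W b : ℕ} {lam Θ : ℝ} (ht : 2 ≤ t) (hb : 1 ≤ b) (hW : 1 ≤ W) (hlam : 0 < lam)
    (hΘ : Th W t lam Θ) (I r L : ℕ) (c : ℤ) :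
    (#(GG (I + 1) t W r b c L) : ℝ) ≤ b * Real.exp (L / lam) * (Θ ^ I * (1 + lam / t)) := by
  classical
  have hΘ0 := Count_nonneg hΘ
  have ht0 : (0 : ℝ) < t := by exact_mod_cast (by omega : 0 < t)
  have hlt : 0 ≤ 1 + lam / (t : ℝ) := by positivity
  have hB : 0 ≤ Θ ^ I * (1 + lam / t) := mul_nonneg (pow_nonneg hΘ0 I) hlt
  have htI : 1 ≤ t ^ (I + 1) := Nat.one_le_pow _ _ (by omega)
  let s : (Fin (I + 1) → ℕ) → ℕ :=
    fun g => (∑ j : Fin (I + 1), g j * t ^ (I + 1 - 1 - (j : ℕ))) % t ^ (I + 1)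
  let Γ : Finset ℕ := (range (t ^ (I + 1))).filter (fun γ => t ^ (I + 1) ∣ b * γ + r)
  have hmaps : ∀ g ∈ GG (I + 1) t W r b c L, s g ∈ Γ := by
    intro g hg
    obtain ⟨-, -, h2, -⟩ := Finset.mem_filter.1 hg
    refine Finset.mem_filter.2 ⟨Finset.mem_range.2 (Nat.mod_lt _ (by omega)), ?_⟩
    have h3 : b * s g + r ≡ b * (∑ j : Fin (I + 1), g j * t ^ (I + 1 - 1 - (j : ℕ))) + r
        [MOD t ^ (I + 1)] := ((Nat.mod_modEq _ _).mul_left b).add_right r
    exact (h3.dvd_iff (dvd_refl _)).2 h2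
  have hfib : ∀ γ ∈ Γ, (#((GG (I + 1) t W r b c L).filter fun g => s g = γ) : ℝ) ≤
      Real.exp (L / lam) * (Θ ^ I * (1 + lam / t)) := by
    intro γ _
    calc (#((GG (I + 1) t W r b c L).filter fun g => s g = γ) : ℝ)
        = ∑ _g ∈ (GG (I + 1) t W r b c L).filter (fun g => s g = γ), (1 : ℝ) := by simp
      _ ≤ ∑ g ∈ (GG (I + 1) t W r b c L).filter (fun g => s g = γ),
            Real.exp (L / lam) * Real.exp (-((∑ j, (g j : ℝ)) / lam)) := by
          refine Finset.sum_le_sum fun g hg => ?_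
          obtain ⟨hg1, -⟩ := Finset.mem_filter.1 hg
          obtain ⟨-, hg2, -, -⟩ := Finset.mem_filter.1 hg1
          rw [← Real.exp_add]
          refine Real.one_le_exp ?_
          have h1 : (∑ j, (g j : ℝ)) ≤ (L : ℝ) := by exact_mod_cast hg2
          have h2 := div_le_div_of_nonneg_right h1 hlam.le
          linarith
      _ = Real.exp (L / lam) * ∑ g ∈ (GG (I + 1) t W r b c L).filter (fun g => s g = γ),
            Real.exp (-((∑ j, (g j : ℝ)) / lam)) := (Finset.mul_sum _ _ _).symm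
      _ ≤ Real.exp (L / lam) * ∑ g ∈ Count_G (I + 1) t W c γ L,
            Real.exp (-((∑ j, (g j : ℝ)) / lam)) := by
          refine mul_le_mul_of_nonneg_left ?_ (Real.exp_pos _).le
          refine Finset.sum_le_sum_of_subset_of_nonneg ?_ fun _ _ _ => (Real.exp_pos _).le
          intro g hg
          obtain ⟨hg1, hgs⟩ := Finset.mem_filter.1 hg
          obtain ⟨hg2, -, -, hg3⟩ := Finset.mem_filter.1 hg1
          refine Count_mem.2 ⟨Fintype.mem_piFinset.1 hg2, ?_, hg3⟩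
          rw [← hgs]
          exact (Nat.mod_modEq _ _).symm
      _ ≤ Real.exp (L / lam) * (Θ ^ I * (1 + lam / t)) :=
          mul_le_mul_of_nonneg_left (Count_main ht hW hlam hΘ L I c γ) (Real.exp_pos _).le
  have hcard : #(GG (I + 1) t W r b c L) =
      ∑ γ ∈ Γ, #((GG (I + 1) t W r b c L).filter fun g => s g = γ) :=
    Finset.card_eq_sum_card_fiberwise hmaps
  have hΓ : (#Γ : ℝ) ≤ b := by exact_mod_cast Count_lin b r (t ^ (I + 1)) htI hb
  calc (#(GG (I + 1) t W r b c L) : ℝ)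
      = ∑ γ ∈ Γ, (#((GG (I + 1) t W r b c L).filter fun g => s g = γ) : ℝ) := by
        rw [hcard]
        push_cast
        rfl
    _ ≤ ∑ _γ ∈ Γ, Real.exp (L / lam) * (Θ ^ I * (1 + lam / t)) := Finset.sum_le_sum hfib
    _ = #Γ * (Real.exp (L / lam) * (Θ ^ I * (1 + lam / t))) := by
        rw [Finset.sum_const, nsmul_eq_mul]
    _ ≤ b * (Real.exp (L / lam) * (Θ ^ I * (1 + lam / t))) :=
        mul_le_mul_of_nonneg_right hΓ (mul_nonneg (Real.exp_pos _).le hB)
    _ = b * Real.exp (L / lam) * (Θ ^ I * (1 + lam / t)) := by ring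

end Pool.Agent.H47.IR
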