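import Pool.Agent.H81.AS.FLU

/-!
Project IR (MP_17d5e1_nt): irrationality of `∑ p_n / (a_1 ⋯ a_n)` for nondecreasing `a_n ≥ A log log n`
-/

set_option autoImplicit false

open Finset Filter Topology

namespace Pool.Agent.H47.IR

open Pool.Agent.H16

/-- the `n`-th prime, `n ≥ 0` -/
noncomputable abbrev P (n : ℕ) : ℕ := Nat.nth Nat.Prime n

/-- the gaps -/
noncomputable def D (n : ℕ) : ℕ := P (n + 1) - P n

/-- the integer sequence attached to a rational value of the series -/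
structure Cs (a : ℕ → ℕ) (b : ℕ) (C : ℝ) (c : ℕ → ℤ) : Prop where
  pos : ∀ n, 0 < c n
  step : ∀ n, c (n + 1) = a n * c n - b * P n
  bound : ∀ n : ℕ, (c n : ℝ) ≤ C * ((n : ℝ) + 1) ^ 2

/-- the `N < M` such that the next `I` gaps have sum at most `L` and satisfy the congruence -/
noncomputable def NN (M I t r b L : ℕ) : Finset ℕ :=
  (range M).filter (fun N => ∑ j ∈ range I, D (N + j) ≤ L ∧
    t ^ I ∣ b * (∑ j ∈ range I, D (N + j) * t ^ (I - 1 - j)) + r)

/-- the values `a n ≤ (log M)^2` with `M / 2 ≤ n` -/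
noncomputable def TT (a : ℕ → ℕ) (M : ℕ) : Finset ℕ := by
  classical
  exact (range (⌊(Real.log M) ^ 2⌋₊ + 1)).filter (fun t => ∃ n, M / 2 ≤ n ∧ a n = t)

/-- vectors of `I` positive gaps of sum at most `L` with the congruence and the coprimality conditions -/
noncomputable def GG (I t W r b : ℕ) (c : ℤ) (L : ℕ) : Finset (Fin I → ℕ) := by
  classical
  exact (Fintype.piFinset (fun _ : Fin I => Icc 1 L)).filter (fun g => ∑ j, g j ≤ L ∧
    t ^ I ∣ b * (∑ j : Fin I, g j * t ^ (I - 1 - (j : ℕ))) + r ∧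
    ∀ j : Fin I, IsCoprime (c - ∑ i ∈ univ.filter (fun i => j ≤ i), (g i : ℤ)) (W : ℤ))

/-- the weight of the integers avoiding one residue class for every prime factor of `W` -/
def Th (W t : ℕ) (lam Θ : ℝ) : Prop := by
  classical
  exact ∀ (r : ℕ → ℕ) (Q : ℕ), ∑ q ∈ (range Q).filter (fun q : ℕ => ∀ p ∈ W.primeFactors, ¬ q ≡ r p [MOD p]),
    Real.exp (-((t : ℝ) * q / lam)) ≤ Θ

/-- product of the primes up to `λ^(1/8)` -/
noncomputable def WT (lam : ℝ) : ℕ := ∏ p ∈ Nat.primesLE ⌊lam ^ ((1 : ℝ) / 8)⌋₊, p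

/-- upper end of the sieving range for `κ`-tuples up to `X` -/
noncomputable def yy (X κ : ℕ) : ℕ := ⌊(X : ℝ) ^ (1 / (4 * (72 * (κ : ℝ) + 5)))⌋₊

/-- the integers `q ≤ X`, `q ≡ c` mod `W`, such that no prime of `(z, yy X κ]` divides some `q - e`, `e ∈ E` -/
noncomputable def QQ (X κ z W c : ℕ) (E : Finset ℕ) : Finset ℕ := by
  classical
  exact (Icc 1 X).filter (fun q => q ≡ c [MOD W] ∧
    ∀ e ∈ E, ∀ p ∈ primesIoc z (yy X κ), ¬ (p : ℤ) ∣ (q : ℤ) - e)

/-- the number of gaps considered -/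
noncomputable def II (M : ℕ) : ℕ := ⌈10 * Real.log (Real.log M)⌉₊

end Pool.Agent.H47.IR
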