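import Pool.Agent.H47.IR.Cheb

/-!
JOB IR-4. Many `N` with the congruence.
-/

set_option autoImplicit false

open Finset Filter Topology

namespace Pool.Agent.H47.IR

theorem Lower_P_mono : Monotone P := Nat.nth_monotone Nat.infinite_setOfPred_prime

theorem Lower_P_lt (n : ℕ) : P n < P (n + 1) :=
  (Nat.nth_lt_nth Nat.infinite_setOfPred_prime).2 (Nat.lt_succ_self n)

theorem Lower_D_int (n : ℕ) : (D n : ℤ) = (P (n + 1) : ℤ) - P n := by
  unfold D
  rw [Nat.cast_sub (Lower_P_lt n).le]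

theorem Lower_D_real (n : ℕ) : (D n : ℝ) = (P (n + 1) : ℝ) - P n := by
  unfold D
  rw [Nat.cast_sub (Lower_P_lt n).le]

theorem Lower_D_pos (n : ℕ) : 1 ≤ D n := by
  unfold D
  have := Lower_P_lt n
  omega

/-- the recursion in a window where `a` is constant -/
theorem window {a : ℕ → ℕ} {b : ℕ} {C : ℝ} {c : ℕ → ℤ} (h : Cs a b C c) {N k t : ℕ}
    (hk : ∀ i ≤ k, a (N + i) = t) : ∀ m ≤ k, (t : ℤ) ^ m * (c (N + 1) - c N) =
      b * (∑ j ∈ range m, (D (N + j) : ℤ) * (t : ℤ) ^ (m - 1 - j)) + (c (N + m + 1) - c (N + m)) := by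
  intro m
  induction m with
  | zero => intro _; simp
  | succ m ih =>
    intro hm
    have h1 := ih (by omega)
    have h2 := h.step (N + m)
    have h3 := h.step (N + (m + 1))
    rw [hk m (by omega)] at h2
    rw [hk (m + 1) hm] at h3
    have hD := Lower_D_int (N + m)
    have h4 : ∑ j ∈ range m, (D (N + j) : ℤ) * (t : ℤ) ^ (m + 1 - 1 - j) =
        t * ∑ j ∈ range m, (D (N + j) : ℤ) * (t : ℤ) ^ (m - 1 - j) := by
      rw [Finset.mul_sum]
      refine Finset.sum_congr rfl fun j hj => ?_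
      have hj' := Finset.mem_range.1 hj
      rw [show m + 1 - 1 - j = (m - 1 - j) + 1 by omega, pow_succ]
      ring
    have h5 : (t : ℤ) ^ (m + 1 - 1 - m) = 1 := by
      rw [show m + 1 - 1 - m = 0 by omega, pow_zero]
    have e0 : N + (m + 1) = N + m + 1 := by omega
    rw [e0] at h3 ⊢
    rw [Finset.sum_range_succ, h4, h5, pow_succ, hD, h3]
    have h6 : c (N + m + 1) = t * c (N + m) - b * P (N + m) := h2
    linear_combination (t : ℤ) * h1 + h6

/-- the identity divided by `t ^ m` -/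
theorem Lower_ident {a : ℕ → ℕ} {b : ℕ} {C : ℝ} {c : ℕ → ℤ} (h : Cs a b C c) {N m t : ℕ} (ht : 1 ≤ t)
    (hk : ∀ i ≤ m, a (N + i) = t) : ((c (N + 1) - c N : ℤ) : ℝ) =
      b * ∑ j ∈ range m, (D (N + j) : ℝ) / (t : ℝ) ^ (j + 1) +
        ((c (N + m + 1) - c (N + m) : ℤ) : ℝ) / (t : ℝ) ^ m := by
  have h1 := window h hk m le_rfl
  have ht0 : (0 : ℝ) < t := by exact_mod_cast ht
  have h2 : (t : ℝ) ^ m * ((c (N + 1) - c N : ℤ) : ℝ) =
      b * (∑ j ∈ range m, (D (N + j) : ℝ) * (t : ℝ) ^ (m - 1 - j)) +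
        ((c (N + m + 1) - c (N + m) : ℤ) : ℝ) := by
    exact_mod_cast h1
  have h3 : ∑ j ∈ range m, (D (N + j) : ℝ) * (t : ℝ) ^ (m - 1 - j) =
      (t : ℝ) ^ m * ∑ j ∈ range m, (D (N + j) : ℝ) / (t : ℝ) ^ (j + 1) := by
    rw [Finset.mul_sum]
    refine Finset.sum_congr rfl fun j hj => ?_
    have hj' := Finset.mem_range.1 hj
    have h4 : (t : ℝ) ^ m = (t : ℝ) ^ (m - 1 - j) * (t : ℝ) ^ (j + 1) := by
      rw [← pow_add, show m - 1 - j + (j + 1) = m by omega]
    rw [h4]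
    field_simp
  rw [h3] at h2
  have h5 : (0 : ℝ) < (t : ℝ) ^ m := by positivity
  have h6 : ((c (N + 1) - c N : ℤ) : ℝ) = ((t : ℝ) ^ m * ((c (N + 1) - c N : ℤ) : ℝ)) / (t : ℝ) ^ m := by
    field_simp
  rw [h6, h2]
  field_simp

theorem Lower_err {a : ℕ → ℕ} {b : ℕ} {C : ℝ} {c : ℕ → ℤ} (h : Cs a b C c) {n M : ℕ} (hn : n + 1 ≤ M) :
    |((c (n + 1) - c n : ℤ) : ℝ)| ≤ C * ((M : ℝ) + 1) ^ 2 := by
  have h0 : (0 : ℝ) < c n := by exact_mod_cast h.pos n
  have h1 : (0 : ℝ) < c (n + 1) := by exact_mod_cast h.pos (n + 1)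
  have h2 := h.bound n
  have h3 := h.bound (n + 1)
  have hC : 0 ≤ C := by
    by_contra hcon
    push Not at hcon
    have : C * ((n : ℝ) + 1) ^ 2 ≤ 0 := mul_nonpos_of_nonpos_of_nonneg hcon.le (by positivity)
    linarith
  have hnM : (n : ℝ) + 1 ≤ M := by exact_mod_cast hn
  have hn0 : (0 : ℝ) ≤ n := Nat.cast_nonneg n
  have h4 : C * ((n : ℝ) + 1) ^ 2 ≤ C * ((M : ℝ) + 1) ^ 2 :=
    mul_le_mul_of_nonneg_left (pow_le_pow_left₀ (by linarith) (by linarith) 2) hC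
  have h5 : C * (((n + 1 : ℕ) : ℝ) + 1) ^ 2 ≤ C * ((M : ℝ) + 1) ^ 2 := by
    push_cast
    exact mul_le_mul_of_nonneg_left (pow_le_pow_left₀ (by linarith) (by linarith) 2) hC
  push_cast
  rw [abs_le]
  constructor <;> linarith

theorem Lower_pow {t m : ℕ} {M : ℝ} (ht : 2 ≤ t) (hM : 1 ≤ M) (hm : 9 * Real.log M ≤ m) :
    M ^ 6 ≤ (t : ℝ) ^ m := by
  have hM0 : 0 < M := by linarith
  have hl : 0 ≤ Real.log M := Real.log_nonneg hM
  have h1 : (2 : ℝ) ^ m ≤ (t : ℝ) ^ m := pow_le_pow_left₀ (by norm_num) (by exact_mod_cast ht) m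
  refine le_trans ?_ h1
  have h2 : (2 : ℝ) ^ m = Real.exp (m * Real.log 2) := by
    rw [Real.exp_nat_mul, Real.exp_log (by norm_num)]
  have h3 : M ^ 6 = Real.exp ((6 : ℕ) * Real.log M) := by
    rw [Real.exp_nat_mul, Real.exp_log hM0]
  rw [h2, h3]
  refine Real.exp_le_exp.2 ?_
  have h4 := Real.log_two_gt_d9
  push_cast
  nlinarith

theorem Lower_sumD {A B i M : ℕ} (h : B + i ≤ M) : ∑ N ∈ Ico A B, (D (N + i) : ℝ) ≤ P M := by
  have h1 : ∑ N ∈ Ico A B, (D (N + i) : ℝ) ≤ ∑ N ∈ range B, (D (N + i) : ℝ) :=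
    Finset.sum_le_sum_of_subset_of_nonneg (fun x hx => Finset.mem_range.2 (Finset.mem_Ico.1 hx).2)
      (fun _ _ _ => Nat.cast_nonneg _)
  have h2 : ∑ N ∈ range B, (D (N + i) : ℝ) = (P (B + i) : ℝ) - P (0 + i) := by
    rw [← Finset.sum_range_sub (fun n => (P (n + i) : ℝ)) B]
    refine Finset.sum_congr rfl fun N _ => ?_
    rw [Lower_D_real, show N + i + 1 = N + 1 + i by omega]
  have h3 : (P (B + i) : ℝ) ≤ P M := by exact_mod_cast Lower_P_mono h
  have h4 : (0 : ℝ) ≤ P (0 + i) := Nat.cast_nonneg _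
  linarith

theorem Lower_sum {A B i m M : ℕ} (h : B + i + m ≤ M) {q : ℝ} (hq : 2 ≤ q) :
    ∑ N ∈ Ico A B, ∑ j ∈ range m, (D (N + i + j) : ℝ) / q ^ (j + 1) ≤ P M * (2 / q) := by
  rw [Finset.sum_comm]
  have hq0 : 0 < q := by linarith
  have h1 : ∀ j ∈ range m, ∑ N ∈ Ico A B, (D (N + i + j) : ℝ) / q ^ (j + 1) ≤
      (P M / q) * (1 / (2 : ℝ)) ^ j := by
    intro j hj
    have hj' := Finset.mem_range.1 hj
    rw [← Finset.sum_div]
    have h2 : ∑ N ∈ Ico A B, (D (N + i + j) : ℝ) ≤ P M := by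
      have h3 := Lower_sumD (A := A) (B := B) (i := i + j) (M := M) (by omega)
      refine le_trans (le_of_eq ?_) h3
      refine Finset.sum_congr rfl fun N _ => ?_
      rw [show N + i + j = N + (i + j) by omega]
    have h4 : (2 : ℝ) ^ j ≤ q ^ j := pow_le_pow_left₀ (by norm_num) hq j
    rw [div_le_iff₀ (by positivity)]
    refine h2.trans ?_
    have h5 : (P M : ℝ) / q * (1 / 2) ^ j * q ^ (j + 1) = P M * (q ^ j / 2 ^ j) := by
      rw [pow_succ, one_div, inv_pow]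
      field_simp
    rw [h5]
    have h6 : 1 ≤ q ^ j / 2 ^ j := by
      rw [le_div_iff₀ (by positivity)]
      linarith
    exact le_mul_of_one_le_right (Nat.cast_nonneg _) h6
  refine (Finset.sum_le_sum h1).trans ?_
  rw [← Finset.mul_sum]
  have h7 := sum_geometric_two_le m
  calc (P M : ℝ) / q * ∑ j ∈ range m, (1 / (2 : ℝ)) ^ j ≤ P M / q * 2 :=
        mul_le_mul_of_nonneg_left h7 (by positivity)
    _ = P M * (2 / q) := by ring

theorem Lower_markov {S : Finset ℕ} {f : ℕ → ℝ} (hf : ∀ N ∈ S, 0 ≤ f N) {lam : ℝ} {T : Finset ℕ}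
    (hT : T ⊆ S) (hT2 : ∀ N ∈ T, lam ≤ f N) : (#T : ℝ) * lam ≤ ∑ N ∈ S, f N := by
  calc (#T : ℝ) * lam = ∑ N ∈ T, lam := by rw [Finset.sum_const, nsmul_eq_mul]
    _ ≤ ∑ N ∈ T, f N := Finset.sum_le_sum hT2
    _ ≤ ∑ N ∈ S, f N := Finset.sum_le_sum_of_subset_of_nonneg hT (fun N hN _ => hf N hN)

/-- number of jumps -/
theorem Lower_jumps {a : ℕ → ℕ} (ha : Monotone a) {A B k M : ℕ} (h : B + k ≤ M) :
    ∑ N ∈ Ico A B, ((a (N + k) : ℝ) - a N) ≤ k * a M := by
  have h1 : ∀ N, (a (N + k) : ℝ) - a N = ∑ i ∈ range k, ((a (N + (i + 1)) : ℝ) - a (N + i)) := by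
    intro N
    rw [Finset.sum_range_sub (fun i => (a (N + i) : ℝ)) k]
    rfl
  rw [Finset.sum_congr rfl (fun N _ => h1 N), Finset.sum_comm]
  have h2 : ∀ i ∈ range k, ∑ N ∈ Ico A B, ((a (N + (i + 1)) : ℝ) - a (N + i)) ≤ a M := by
    intro i hi
    have hi' := Finset.mem_range.1 hi
    have h3 : ∑ N ∈ Ico A B, ((a (N + (i + 1)) : ℝ) - a (N + i)) ≤
        ∑ N ∈ range B, ((a (N + (i + 1)) : ℝ) - a (N + i)) := by
      refine Finset.sum_le_sum_of_subset_of_nonneg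
        (fun x hx => Finset.mem_range.2 (Finset.mem_Ico.1 hx).2) (fun N _ _ => ?_)
      have h4 : (a (N + i) : ℝ) ≤ a (N + (i + 1)) := by exact_mod_cast ha (by omega)
      linarith
    have h5 : ∑ N ∈ range B, ((a (N + (i + 1)) : ℝ) - a (N + i)) = (a (B + i) : ℝ) - a (0 + i) := by
      rw [← Finset.sum_range_sub (fun n => (a (n + i) : ℝ)) B]
      refine Finset.sum_congr rfl fun N _ => ?_
      rw [show N + (i + 1) = N + 1 + i by omega]
    have h6 : (a (B + i) : ℝ) ≤ a M := by exact_mod_cast ha (by omega)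
    have h7 : (0 : ℝ) ≤ a (0 + i) := Nat.cast_nonneg _
    linarith
  refine (Finset.sum_le_sum h2).trans (le_of_eq ?_)
  rw [Finset.sum_const, Finset.card_range, nsmul_eq_mul]

theorem Lower_close {a : ℕ → ℕ} {b : ℕ} {C : ℝ} {c : ℕ → ℤ} (h : Cs a b C c) {N k i t M : ℕ}
    (ht : 2 ≤ t) (hk : ∀ i ≤ k, a (N + i) = t) (hi : i ≤ k) (hki : 9 * Real.log M ≤ ((k - i : ℕ) : ℝ))
    (hM : N + k + 1 ≤ M) (hC : 4 * C ≤ M) :
    |((c (N + i + 1) - c (N + i) : ℤ) : ℝ) -
      b * ∑ j ∈ range (k - i), (D (N + i + j) : ℝ) / (t : ℝ) ^ (j + 1)| ≤ 1 / (M : ℝ) ^ 3 := by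
  have h1 := Lower_ident h (N := N + i) (m := k - i) (t := t) (by omega) (fun i' hi' => by
    rw [show N + i + i' = N + (i + i') by omega]
    exact hk _ (by omega))
  have ht0 : (0 : ℝ) < t := by
    have : 0 < t := by omega
    exact_mod_cast this
  have hM1 : (1 : ℝ) ≤ M := by
    have : 1 ≤ M := by omega
    exact_mod_cast this
  have hM0 : (0 : ℝ) < M := by linarith
  rw [h1, add_sub_cancel_left, show N + i + (k - i) = N + k by omega, abs_div,
    abs_of_pos (a := (t : ℝ) ^ (k - i)) (by positivity)]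
  have h2 := Lower_err h (n := N + k) (M := M) hM
  have h3 := Lower_pow (m := k - i) (M := (M : ℝ)) ht hM1 hki
  rw [div_le_div_iff₀ (by positivity) (by positivity)]
  have h4 : C * ((M : ℝ) + 1) ^ 2 ≤ (M : ℝ) ^ 3 := by
    have h5 : C * ((M : ℝ) + 1) ^ 2 ≤ (M / 4 : ℝ) * ((M : ℝ) + 1) ^ 2 :=
      mul_le_mul_of_nonneg_right (by linarith) (by positivity)
    have h6 : ((M : ℝ) + 1) ^ 2 ≤ (2 * M) ^ 2 := pow_le_pow_left₀ (by linarith) (by linarith) 2
    have h7 : (M / 4 : ℝ) * ((M : ℝ) + 1) ^ 2 ≤ (M / 4 : ℝ) * (2 * M) ^ 2 :=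
      mul_le_mul_of_nonneg_left h6 (by positivity)
    calc C * ((M : ℝ) + 1) ^ 2 ≤ (M / 4 : ℝ) * (2 * M) ^ 2 := h5.trans h7
      _ = (M : ℝ) ^ 3 := by ring
  calc |((c (N + k + 1) - c (N + k) : ℤ) : ℝ)| * (M : ℝ) ^ 3 ≤ (M : ℝ) ^ 3 * (M : ℝ) ^ 3 :=
        mul_le_mul_of_nonneg_right (h2.trans h4) (by positivity)
    _ = (M : ℝ) ^ 6 := by ring
    _ ≤ 1 * (t : ℝ) ^ (k - i) := by rw [one_mul]; exact h3

theorem Lower_posn {a : ℕ → ℕ} {b : ℕ} {C : ℝ} {c : ℕ → ℤ} (h : Cs a b C c) {N k i t M : ℕ}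
    (ht : 2 ≤ t) (hk : ∀ i ≤ k, a (N + i) = t) (hi : i < k) (hki : 9 * Real.log M ≤ ((k - i : ℕ) : ℝ))
    (hM : N + k + 1 ≤ M) (hC : 4 * C ≤ M) (hb : 1 ≤ b) (htM : t ≤ M) :
    1 ≤ c (N + i + 1) - c (N + i) := by
  have h1 := Lower_close h ht hk hi.le hki hM hC
  have ht0 : (0 : ℝ) < t := by
    have : 0 < t := by omega
    exact_mod_cast this
  have htM' : (t : ℝ) ≤ M := by exact_mod_cast htM
  have hM2 : (2 : ℝ) ≤ M := by
    have : 2 ≤ M := by omega
    exact_mod_cast this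
  have h2 : (D (N + i + 0) : ℝ) / (t : ℝ) ^ (0 + 1) ≤
      ∑ j ∈ range (k - i), (D (N + i + j) : ℝ) / (t : ℝ) ^ (j + 1) :=
    Finset.single_le_sum (f := fun j => (D (N + i + j) : ℝ) / (t : ℝ) ^ (j + 1))
      (fun j _ => by positivity) (Finset.mem_range.2 (by omega : 0 < k - i))
  have h3 : (1 : ℝ) ≤ D (N + i + 0) := by exact_mod_cast Lower_D_pos _
  have h4 : 1 / (M : ℝ) ≤ (D (N + i + 0) : ℝ) / (t : ℝ) ^ (0 + 1) := by
    rw [zero_add, pow_one]
    exact div_le_div₀ (by linarith) h3 ht0 htM'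
  have hbr : (1 : ℝ) ≤ b := by exact_mod_cast hb
  have h5 : 1 / (M : ℝ) ≤ b * ∑ j ∈ range (k - i), (D (N + i + j) : ℝ) / (t : ℝ) ^ (j + 1) := by
    have h6 : (0 : ℝ) ≤ ∑ j ∈ range (k - i), (D (N + i + j) : ℝ) / (t : ℝ) ^ (j + 1) :=
      Finset.sum_nonneg (fun j _ => by positivity)
    have h7 := le_mul_of_one_le_left h6 hbr
    linarith
  have h8 : 1 / (M : ℝ) ^ 3 < 1 / (M : ℝ) := by
    refine one_div_lt_one_div_of_lt (by linarith) ?_
    have h9 : (M : ℝ) ^ 3 = M * (M * M) := by ring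
    rw [h9]
    nlinarith
  have h10 := (abs_le.1 h1).1
  have h11 : (0 : ℝ) < ((c (N + i + 1) - c (N + i) : ℤ) : ℝ) := by linarith
  have h12 : (0 : ℤ) < c (N + i + 1) - c (N + i) := by exact_mod_cast h11
  omega

set_option maxHeartbeats 2000000 in
theorem Lower_core {a : ℕ → ℕ} {b : ℕ} {C K : ℝ} {c : ℕ → ℤ} (ha : Monotone a) (hb : 1 ≤ b)
    (h : Cs a b C c) (hK : 1 ≤ K) {M I k : ℕ} (hk1 : 10 * Real.log M ≤ k)
    (hk2 : (k : ℝ) ≤ 10 * Real.log M + 1)
    (ha2 : ∀ n, M / 2 ≤ n → 2 ≤ a n) (hP : (P M : ℝ) ≤ 2 * K * M * Real.log M) (hl : 27 ≤ Real.log M)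
    (hl2 : 512 * b * K ≤ Real.log M) (hC : 4 * C ≤ M) (hM1 : 64 * (10 * Real.log M + 4) ≤ M)
    (haM : (a M : ℝ) ≤ M / (Real.log M) ^ 3) (hI : 1 ≤ I) (hI2 : (I : ℝ) ≤ Real.log M) :
    (M : ℝ) / 8 ≤ ∑ t ∈ TT a M, ∑ r ∈ range (⌊64 * b * K * Real.log M⌋₊ + 1),
          (#(NN M I t r b ⌊32 * K * I * Real.log M⌋₊) : ℝ) := by
  set l : ℝ := Real.log M with hldef
  have hl0 : 0 < l := by linarith
  have hM0 : (0 : ℝ) < M := by linarith
  have hbr : (1 : ℝ) ≤ b := by exact_mod_cast hb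
  have hIr : (1 : ℝ) ≤ I := by exact_mod_cast hI
  have hkM : k + 2 ≤ M := by
    have : ((k + 2 : ℕ) : ℝ) ≤ M := by push_cast; linarith
    exact_mod_cast this
  have hIk : I < k := by
    have : (I : ℝ) < k := by linarith
    exact_mod_cast this
  have hkI : 9 * Real.log M ≤ ((k - I : ℕ) : ℝ) := by
    rw [Nat.cast_sub hIk.le]
    linarith
  have hk0 : 9 * Real.log M ≤ ((k - 0 : ℕ) : ℝ) := by
    rw [Nat.sub_zero]
    linarith
  have haMM : a M ≤ M := by
    have h1 : (a M : ℝ) ≤ M := by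
      refine haM.trans (div_le_self hM0.le (one_le_pow₀ (by linarith)))
    exact_mod_cast h1
  set S : Finset ℕ := Ico (M / 2) (M - k - 1) with hS
  have hSm : ∀ N ∈ S, M / 2 ≤ N ∧ N + k + 1 < M := by
    intro N hN
    have := Finset.mem_Ico.1 hN
    omega
  -- the good windows
  have hwin : ∀ N ∈ S, ¬ a N < a (N + k) → (2 ≤ a N ∧ a N ≤ M ∧ ∀ i ≤ k, a (N + i) = a N) := by
    intro N hN hc
    obtain ⟨h1, h2⟩ := hSm N hN
    refine ⟨ha2 N h1, (ha (by omega)).trans haMM, fun i hi => ?_⟩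
    have h3 := ha (show N ≤ N + i by omega)
    have h4 := ha (show N + i ≤ N + k by omega)
    omega
  set B0 : Finset ℕ := S.filter (fun N => a N < a (N + k)) with hB0
  set B1 : Finset ℕ := S.filter (fun N => ¬ a N < a (N + k) ∧ l ^ 2 < a N) with hB1
  set B2 : Finset ℕ := S.filter (fun N => 32 * K * I * l < ∑ j ∈ range I, (D (N + j) : ℝ)) with hB2
  set B3 : Finset ℕ := S.filter (fun N => ¬ a N < a (N + k) ∧
    64 * b * K * l < ((c (N + I + 1) - c (N + I) : ℤ) : ℝ)) with hB3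
  have hc0 : (#B0 : ℝ) ≤ M / 64 := by
    have h1 := Lower_markov (S := S) (T := B0) (lam := 1) (f := fun N => (a (N + k) : ℝ) - a N)
      (fun N _ => by
        have : (a N : ℝ) ≤ a (N + k) := by exact_mod_cast ha (by omega)
        linarith) (Finset.filter_subset _ _) (fun N hN => by
        have h2 := (Finset.mem_filter.1 hN).2
        have h3 : (a N : ℝ) + 1 ≤ a (N + k) := by exact_mod_cast h2
        linarith)
    have h2 := Lower_jumps ha (A := M / 2) (B := M - k - 1) (k := k) (M := M) (by omega)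
    have h3 : (k : ℝ) * a M ≤ M / 64 := by
      calc (k : ℝ) * a M ≤ (11 * l) * (M / l ^ 3) :=
            mul_le_mul (by linarith) haM (Nat.cast_nonneg _) (by positivity)
        _ = 11 / l ^ 2 * M := by field_simp
        _ ≤ 1 / 64 * M := by
            refine mul_le_mul_of_nonneg_right ?_ hM0.le
            rw [div_le_div_iff₀ (by positivity) (by norm_num)]
            nlinarith
        _ = M / 64 := by ring
    rw [mul_one] at h1
    linarith
  have hc1 : (#B1 : ℝ) ≤ M / 64 := by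
    have h1 := Lower_markov (S := S) (T := B1) (lam := 1 / 2)
      (f := fun N => b * ∑ j ∈ range (k - 0), (D (N + 0 + j) : ℝ) / (l ^ 2) ^ (j + 1))
      (fun N _ => by positivity) (Finset.filter_subset _ _) (fun N hN => by
        obtain ⟨hNS, hN1, hN2⟩ := Finset.mem_filter.1 hN
        obtain ⟨g1, g2, g3⟩ := hwin N hNS hN1
        obtain ⟨g4, g5⟩ := hSm N hNS
        have g6 := Lower_posn h g1 g3 (i := 0) (by omega) hk0 (by omega) hC hb g2
        have g7 := Lower_close h g1 g3 (i := 0) (by omega) hk0 (by omega) hC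
        have g8 : (1 : ℝ) ≤ ((c (N + 0 + 1) - c (N + 0) : ℤ) : ℝ) := by exact_mod_cast g6
        have g9 := (abs_le.1 g7).2
        have g10 : 1 / (M : ℝ) ^ 3 ≤ 1 / 2 := by
          refine one_div_le_one_div_of_le (by norm_num) ?_
          have : (M : ℝ) ^ 1 ≤ (M : ℝ) ^ 3 := pow_le_pow_right₀ (by linarith) (by norm_num)
          rw [pow_one] at this
          linarith
        have g11 : ∑ j ∈ range (k - 0), (D (N + 0 + j) : ℝ) / (a N : ℝ) ^ (j + 1) ≤
            ∑ j ∈ range (k - 0), (D (N + 0 + j) : ℝ) / (l ^ 2) ^ (j + 1) := by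
          refine Finset.sum_le_sum fun j _ => ?_
          exact div_le_div_of_nonneg_left (Nat.cast_nonneg _) (by positivity)
            (pow_le_pow_left₀ (by positivity) hN2.le _)
        have g12 := mul_le_mul_of_nonneg_left g11 (by linarith : (0 : ℝ) ≤ b)
        show 1 / 2 ≤ (b : ℝ) * ∑ j ∈ range (k - 0), (D (N + 0 + j) : ℝ) / (l ^ 2) ^ (j + 1)
        linarith)
    rw [← Finset.mul_sum] at h1
    have h2 := Lower_sum (A := M / 2) (B := M - k - 1) (i := 0) (m := k - 0) (M := M) (by omega)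
      (q := l ^ 2) (by nlinarith)
    have h3 : (b : ℝ) * ((P M : ℝ) * (2 / l ^ 2)) ≤ M / 128 := by
      calc (b : ℝ) * ((P M : ℝ) * (2 / l ^ 2)) ≤ b * ((2 * K * M * l) * (2 / l ^ 2)) := by
            refine mul_le_mul_of_nonneg_left ?_ (by linarith)
            exact mul_le_mul_of_nonneg_right hP (by positivity)
        _ = 4 * b * K / l * M := by
            field_simp
            ring
        _ ≤ 1 / 128 * M := by
            refine mul_le_mul_of_nonneg_right ?_ hM0.le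
            rw [div_le_div_iff₀ hl0 (by norm_num)]
            linarith
        _ = M / 128 := by ring
    have h4 := mul_le_mul_of_nonneg_left h2 (by linarith : (0 : ℝ) ≤ b)
    linarith
  have hc2 : (#B2 : ℝ) ≤ M / 16 := by
    have h1 := Lower_markov (S := S) (T := B2) (lam := 32 * K * I * l)
      (f := fun N => ∑ j ∈ range I, (D (N + j) : ℝ))
      (fun N _ => by positivity) (Finset.filter_subset _ _)
      (fun N hN => (Finset.mem_filter.1 hN).2.le)
    rw [Finset.sum_comm] at h1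
    have h2 : ∑ j ∈ range I, ∑ N ∈ S, (D (N + j) : ℝ) ≤ ∑ j ∈ range I, (P M : ℝ) :=
      Finset.sum_le_sum fun j hj => Lower_sumD (by have := Finset.mem_range.1 hj; omega)
    rw [Finset.sum_const, Finset.card_range, nsmul_eq_mul] at h2
    have h3 : (#B2 : ℝ) * (32 * K * I * l) ≤ (M / 16) * (32 * K * I * l) := by
      calc (#B2 : ℝ) * (32 * K * I * l) ≤ I * P M := h1.trans h2
        _ ≤ I * (2 * K * M * l) := mul_le_mul_of_nonneg_left hP (by positivity)
        _ = (M / 16) * (32 * K * I * l) := by ring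
    exact le_of_mul_le_mul_right h3 (by positivity)
  have hc3 : (#B3 : ℝ) ≤ M / 16 := by
    have h1 := Lower_markov (S := S) (T := B3) (lam := 64 * b * K * l)
      (f := fun N => b * ∑ j ∈ range (k - I), (D (N + I + j) : ℝ) / (2 : ℝ) ^ (j + 1) + 1)
      (fun N _ => by positivity) (Finset.filter_subset _ _) (fun N hN => by
        obtain ⟨hNS, hN1, hN2⟩ := Finset.mem_filter.1 hN
        obtain ⟨g1, g2, g3⟩ := hwin N hNS hN1
        obtain ⟨g4, g5⟩ := hSm N hNS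
        have g7 := Lower_close h g1 g3 (i := I) (by omega) hkI (by omega) hC
        have g9 := (abs_le.1 g7).2
        have g10 : 1 / (M : ℝ) ^ 3 ≤ 1 := by
          rw [div_le_one (by positivity)]
          exact one_le_pow₀ (by linarith)
        have g11 : ∑ j ∈ range (k - I), (D (N + I + j) : ℝ) / (a N : ℝ) ^ (j + 1) ≤
            ∑ j ∈ range (k - I), (D (N + I + j) : ℝ) / (2 : ℝ) ^ (j + 1) := by
          refine Finset.sum_le_sum fun j _ => ?_
          exact div_le_div_of_nonneg_left (Nat.cast_nonneg _) (by positivity)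
            (pow_le_pow_left₀ (by positivity) (by exact_mod_cast g1) _)
        have g12 := mul_le_mul_of_nonneg_left g11 (by linarith : (0 : ℝ) ≤ b)
        show 64 * b * K * l ≤
          (b : ℝ) * ∑ j ∈ range (k - I), (D (N + I + j) : ℝ) / (2 : ℝ) ^ (j + 1) + 1
        linarith)
    rw [Finset.sum_add_distrib, ← Finset.mul_sum, Finset.sum_const, nsmul_eq_mul, mul_one] at h1
    have h2 := Lower_sum (A := M / 2) (B := M - k - 1) (i := I) (m := k - I) (M := M) (by omega)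
      (q := 2) le_rfl
    have h4 := mul_le_mul_of_nonneg_left h2 (by linarith : (0 : ℝ) ≤ b)
    have h5 : (#S : ℝ) ≤ M := by
      rw [hS, Nat.card_Ico]
      exact_mod_cast (by omega : M - k - 1 - M / 2 ≤ M)
    have h6 := mul_le_mul_of_nonneg_left hP (by linarith : (0 : ℝ) ≤ b)
    have h7 : (1 : ℝ) ≤ 2 * b * K * l := by
      have h8 : (1 : ℝ) ≤ b * K := one_le_mul_of_one_le_of_one_le hbr hK
      have h8' : (1 : ℝ) ≤ b * K * l := one_le_mul_of_one_le_of_one_le h8 (by linarith)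
      linarith
    have h9 : (M : ℝ) ≤ 2 * b * K * l * M := le_mul_of_one_le_left hM0.le h7
    have h3 : (#B3 : ℝ) * (64 * b * K * l) ≤ (M / 16) * (64 * b * K * l) := by
      have e1 : (P M : ℝ) * (2 / 2) = P M := by norm_num
      rw [e1] at h4
      have e2 : (M / 16 : ℝ) * (64 * b * K * l) = b * (2 * K * M * l) + 2 * b * K * l * M := by ring
      rw [e2]
      linarith
    exact le_of_mul_le_mul_right h3 (by positivity)
  -- the good set
  set G : Finset ℕ := S \ (B0 ∪ B1 ∪ B2 ∪ B3) with hG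
  have hcS : (#S : ℝ) ≥ M / 2 - M / 64 := by
    rw [hS, Nat.card_Ico]
    have h1 : M ≤ (M - k - 1 - M / 2) + (k + 1) + M / 2 := by omega
    have h2 : (M : ℝ) ≤ ((M - k - 1 - M / 2 : ℕ) : ℝ) + (k + 1) + ((M / 2 : ℕ) : ℝ) := by
      exact_mod_cast h1
    have h3 : ((M / 2 : ℕ) : ℝ) ≤ M / 2 := Nat.cast_div_le
    linarith
  have hcG : (#S : ℝ) ≤ #G + (#B0 + #B1 + #B2 + #B3) := by
    have h1 : S ⊆ G ∪ (B0 ∪ B1 ∪ B2 ∪ B3) := by
      rw [hG, Finset.sdiff_union_self_eq_union]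
      exact Finset.subset_union_left
    have h2 := (Finset.card_le_card h1).trans (Finset.card_union_le _ _)
    have h3 := Finset.card_union_le (B0 ∪ B1 ∪ B2) B3
    have h4 := Finset.card_union_le (B0 ∪ B1) B2
    have h5 := Finset.card_union_le B0 B1
    exact_mod_cast (by omega : #S ≤ #G + (#B0 + #B1 + #B2 + #B3))
  have hGs : G ⊆ (TT a M).biUnion (fun t => (range (⌊64 * b * K * l⌋₊ + 1)).biUnion
      (fun r => NN M I t r b ⌊32 * K * I * l⌋₊)) := by
    intro N hN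
    rw [hG, Finset.mem_sdiff, Finset.mem_union, Finset.mem_union, Finset.mem_union] at hN
    obtain ⟨hNS, hN2⟩ := hN
    push Not at hN2
    obtain ⟨⟨⟨n0, n1⟩, n2⟩, n3⟩ := hN2
    have m0 : ¬ a N < a (N + k) := fun hh => n0 (Finset.mem_filter.2 ⟨hNS, hh⟩)
    have m1 : (a N : ℝ) ≤ l ^ 2 := by
      by_contra hh
      push Not at hh
      exact n1 (Finset.mem_filter.2 ⟨hNS, m0, hh⟩)
    have m2 : ∑ j ∈ range I, (D (N + j) : ℝ) ≤ 32 * K * I * l := by
      by_contra hh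
      push Not at hh
      exact n2 (Finset.mem_filter.2 ⟨hNS, hh⟩)
    have m3 : ((c (N + I + 1) - c (N + I) : ℤ) : ℝ) ≤ 64 * b * K * l := by
      by_contra hh
      push Not at hh
      exact n3 (Finset.mem_filter.2 ⟨hNS, m0, hh⟩)
    obtain ⟨g1, g2, g3⟩ := hwin N hNS m0
    obtain ⟨g4, g5⟩ := hSm N hNS
    have g6 := Lower_posn h g1 g3 hIk hkI (by omega) hC hb g2
    rw [Finset.mem_biUnion]
    refine ⟨a N, ?_, ?_⟩
    · classical
      unfold TT
      exact Finset.mem_filter.2 ⟨Finset.mem_range.2 (Nat.lt_succ_iff.2 (Nat.le_floor m1)), N, g4, rfl⟩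
    · rw [Finset.mem_biUnion]
      have hr : (((c (N + I + 1) - c (N + I)).toNat : ℕ) : ℤ) = c (N + I + 1) - c (N + I) :=
        Int.toNat_of_nonneg (by omega)
      refine ⟨(c (N + I + 1) - c (N + I)).toNat, ?_, ?_⟩
      · rw [Finset.mem_range, Nat.lt_succ_iff]
        refine Nat.le_floor ?_
        have : (((c (N + I + 1) - c (N + I)).toNat : ℕ) : ℝ) =
            ((c (N + I + 1) - c (N + I) : ℤ) : ℝ) := by exact_mod_cast hr
        rw [this]
        exact m3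
      · unfold NN
        rw [Finset.mem_filter, Finset.mem_range]
        refine ⟨by omega, Nat.le_floor (by exact_mod_cast m2), ?_⟩
        have w := window h g3 I hIk.le
        have w2 : ((a N : ℕ) : ℤ) ^ I ∣ ((b * (∑ j ∈ range I, D (N + j) * a N ^ (I - 1 - j)) +
            (c (N + I + 1) - c (N + I)).toNat : ℕ) : ℤ) := by
          refine ⟨c (N + 1) - c N, ?_⟩
          rw [w]
          push_cast
          rw [hr]
        exact_mod_cast w2
  have hfin : (#G : ℝ) ≤ ∑ t ∈ TT a M, ∑ r ∈ range (⌊64 * b * K * l⌋₊ + 1),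
      (#(NN M I t r b ⌊32 * K * I * l⌋₊) : ℝ) := by
    have h1 := (Finset.card_le_card hGs).trans Finset.card_biUnion_le
    have h2 : ∑ t ∈ TT a M, #((range (⌊64 * b * K * l⌋₊ + 1)).biUnion
        (fun r => NN M I t r b ⌊32 * K * I * l⌋₊)) ≤
        ∑ t ∈ TT a M, ∑ r ∈ range (⌊64 * b * K * l⌋₊ + 1), #(NN M I t r b ⌊32 * K * I * l⌋₊) :=
      Finset.sum_le_sum fun t _ => Finset.card_biUnion_le
    exact_mod_cast h1.trans h2
  linarith

theorem lower : ∃ C1 : ℝ, 1 ≤ C1 ∧ ∀ (a : ℕ → ℕ) (b : ℕ) (C : ℝ) (c : ℕ → ℤ), Monotone a →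
    (∀ᶠ n in atTop, 2 ≤ a n) → 1 ≤ b → Cs a b C c → ∃ C2 : ℝ, 0 < C2 ∧ ∀ᶠ M : ℕ in atTop,
      (a M : ℝ) ≤ M / (Real.log M) ^ 3 → ∀ I : ℕ, 1 ≤ I → (I : ℝ) ≤ Real.log M →
        (M : ℝ) / 8 ≤ ∑ t ∈ TT a M, ∑ r ∈ range (⌊C2 * Real.log M⌋₊ + 1),
          (#(NN M I t r b ⌊C1 * I * Real.log M⌋₊) : ℝ) := by
  obtain ⟨K, hK, hP⟩ := P_le
  refine ⟨32 * K, by linarith, ?_⟩
  intro a b C c ha ha2 hb h
  have hbr : (1 : ℝ) ≤ b := by exact_mod_cast hb
  refine ⟨64 * b * K, by positivity, ?_⟩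
  obtain ⟨n0, hn0⟩ := eventually_atTop.1 ha2
  have hlt : Tendsto (fun M : ℕ => Real.log (M : ℝ)) atTop atTop :=
    Real.tendsto_log_atTop.comp tendsto_natCast_atTop_atTop
  have hsm : ∀ᶠ M : ℕ in atTop, Real.log (M : ℝ) ≤ 1 / 1000 * M := by
    have h1 := Real.isLittleO_log_id_atTop.bound (show (0 : ℝ) < 1 / 1000 by norm_num)
    filter_upwards [tendsto_natCast_atTop_atTop.eventually h1, eventually_ge_atTop 1] with M hM hM1
    have hM1r : (1 : ℝ) ≤ M := by exact_mod_cast hM1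
    rw [Real.norm_of_nonneg (Real.log_nonneg hM1r), id, Real.norm_of_nonneg (by linarith)] at hM
    exact hM
  filter_upwards [eventually_ge_atTop (2 * n0), hlt.eventually_ge_atTop 27,
    hlt.eventually_ge_atTop (512 * b * K), tendsto_natCast_atTop_atTop.eventually_ge_atTop (4 * C),
    hsm, eventually_ge_atTop 1000] with M hM1 hM2 hM3 hM4 hM5 hM6 haM I hI hI2
  have hM6r : (1000 : ℝ) ≤ M := by exact_mod_cast hM6
  have hl0 : 0 < Real.log (M : ℝ) := by linarith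
  have hPM : (P M : ℝ) ≤ 2 * K * M * Real.log M := by
    refine (hP M).trans ?_
    have h1 : Real.log ((M : ℝ) + 2) ≤ 3 / 2 * Real.log M := by
      have h2 : ((M : ℝ) + 2) ^ 2 ≤ (M : ℝ) ^ 3 := by nlinarith
      have h3 := Real.log_le_log (by positivity) h2
      rw [Real.log_pow, Real.log_pow] at h3
      push_cast at h3
      linarith
    have h2 : ((M : ℝ) + 1) * Real.log ((M : ℝ) + 2) ≤ (4 / 3 * M) * (3 / 2 * Real.log M) :=
      mul_le_mul (by linarith) h1 (Real.log_nonneg (by linarith)) (by linarith)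
    calc K * (((M : ℝ) + 1) * Real.log ((M : ℝ) + 2)) ≤ K * ((4 / 3 * M) * (3 / 2 * Real.log M)) :=
          mul_le_mul_of_nonneg_left h2 (by linarith)
      _ = 2 * K * M * Real.log M := by ring
  exact Lower_core (k := ⌈10 * Real.log (M : ℝ)⌉₊) ha hb h hK (Nat.le_ceil _)
    (Nat.ceil_lt_add_one (by positivity)).le (fun n hn => hn0 n (by omega)) hPM hM2 hM3 hM4
    (by linarith) haM hI hI2

end Pool.Agent.H47.IR
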