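import Pool.Agent.H47.IR.Count

/-!
JOB IR-8. From primes to patterns.
-/

set_option autoImplicit false

open Finset Filter Topology

namespace Pool.Agent.H47.IR

open Pool.Agent.H16

lemma Join_lt {m n : ℕ} (h : m < n) : P m < P n :=
  Nat.nth_strictMono Nat.infinite_setOfPred_prime h

lemma Join_le {m n : ℕ} (h : m ≤ n) : P m ≤ P n :=
  (Nat.nth_strictMono Nat.infinite_setOfPred_prime).monotone h

lemma Join_D (n : ℕ) : (D n : ℤ) = (P (n + 1) : ℤ) - P n := by
  have h := Join_lt (show n < n + 1 by omega)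
  unfold D
  push_cast [Nat.cast_sub h.le]
  rfl

lemma Join_Dpos (n : ℕ) : 1 ≤ D n := by
  have h := Join_lt (show n < n + 1 by omega)
  unfold D
  omega

/-- the tail sums of the gaps -/
lemma Join_tail (N : ℕ) : ∀ (I : ℕ) (j : Fin I),
    ∑ i ∈ univ.filter (fun i : Fin I => j ≤ i), ((D (N + (i : ℕ)) : ℕ) : ℤ) =
      (P (N + I) : ℤ) - P (N + (j : ℕ)) := by
  intro I
  induction I with
  | zero => exact fun j => j.elim0
  | succ I ih =>
    intro j
    refine Fin.lastCases ?_ (fun j' => ?_) j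
    · rw [Count_last I (fun i : Fin (I + 1) => D (N + (i : ℕ)))]
      simp only [Fin.val_last]
      exact Join_D (N + I)
    · rw [Count_tail I (fun i : Fin (I + 1) => D (N + (i : ℕ))) j']
      simp only [Fin.val_last, Fin.val_castSucc]
      rw [ih j', Join_D (N + I)]
      have e : N + I + 1 = N + (I + 1) := by ring
      rw [e]
      ring

/-- the set of the shifts -/
noncomputable def Join_E {I : ℕ} (g : Fin I → ℕ) : Finset ℕ := by
  classical
  exact insert 0 (univ.image (fun j : Fin I => ∑ i ∈ univ.filter (fun i : Fin I => j ≤ i), g i))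

lemma Join_memE {I : ℕ} {g : Fin I → ℕ} {e : ℕ} : e ∈ Join_E g ↔
    e = 0 ∨ ∃ j : Fin I, ∑ i ∈ univ.filter (fun i : Fin I => j ≤ i), g i = e := by
  classical
  simp [Join_E]

lemma Join_anti {I : ℕ} {g : Fin I → ℕ} (hg : ∀ j, 1 ≤ g j) {j k : Fin I} (h : j < k) :
    ∑ i ∈ univ.filter (fun i : Fin I => k ≤ i), g i <
      ∑ i ∈ univ.filter (fun i : Fin I => j ≤ i), g i := by
  refine Finset.sum_lt_sum_of_subset (i := j) ?_ (by simp) (by simp [h]) (hg j) (fun _ _ _ => Nat.zero_le _)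
  intro i hi
  rw [mem_filter] at hi ⊢
  exact ⟨hi.1, h.le.trans hi.2⟩

lemma Join_pos {I : ℕ} {g : Fin I → ℕ} (hg : ∀ j, 1 ≤ g j) (j : Fin I) :
    1 ≤ ∑ i ∈ univ.filter (fun i : Fin I => j ≤ i), g i := by
  have h : g j ≤ ∑ i ∈ univ.filter (fun i : Fin I => j ≤ i), g i :=
    Finset.single_le_sum (f := g) (fun _ _ => Nat.zero_le _) (by simp)
  exact (hg j).trans h

lemma Join_card {I : ℕ} {g : Fin I → ℕ} (hg : ∀ j, 1 ≤ g j) : #(Join_E g) = I + 1 := by
  classical
  unfold Join_E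
  rw [card_insert_of_notMem, card_image_of_injective]
  · simp
  · intro j k hjk
    rcases lt_trichotomy j k with h | h | h
    · exact absurd hjk (Join_anti hg h).ne'
    · exact h
    · exact absurd hjk (Join_anti hg h).ne
  · rw [mem_image]
    rintro ⟨j, -, hj⟩
    have := Join_pos hg j
    omega

lemma Join_leE {I L : ℕ} {g : Fin I → ℕ} (hL : ∑ j, g j ≤ L) {e : ℕ} (he : e ∈ Join_E g) : e ≤ L := by
  rw [Join_memE] at he
  rcases he with rfl | ⟨j, rfl⟩
  · exact Nat.zero_le _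
  · exact (Finset.sum_le_sum_of_subset (filter_subset _ _)).trans hL

/-- every `q - e` is one of the primes -/
lemma Join_sub {I N e : ℕ} (he : e ∈ Join_E (fun j : Fin I => D (N + (j : ℕ)))) :
    ∃ j ≤ I, (P (N + I) : ℤ) - e = P (N + j) := by
  rw [Join_memE] at he
  rcases he with rfl | ⟨j, rfl⟩
  · exact ⟨I, le_rfl, by simp⟩
  · refine ⟨j, j.isLt.le, ?_⟩
    have h := Join_tail N I j
    push_cast
    rw [h]
    ring

lemma Join_memGG {I t W r b L : ℕ} {c : ℤ} {g : Fin I → ℕ} : g ∈ GG I t W r b c L ↔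
    (∀ j, g j ∈ Icc 1 L) ∧ ∑ j, g j ≤ L ∧
    t ^ I ∣ b * (∑ j : Fin I, g j * t ^ (I - 1 - (j : ℕ))) + r ∧
    ∀ j : Fin I, IsCoprime (c - ∑ i ∈ univ.filter (fun i => j ≤ i), (g i : ℤ)) (W : ℤ) := by
  classical
  simp only [GG, mem_filter, Fintype.mem_piFinset]

lemma Join_memQQ {X κ z W c : ℕ} {E : Finset ℕ} {q : ℕ} : q ∈ QQ X κ z W c E ↔
    q ∈ Icc 1 X ∧ q ≡ c [MOD W] ∧ ∀ e ∈ E, ∀ p ∈ primesIoc z (yy X κ), ¬ (p : ℤ) ∣ (q : ℤ) - e := by
  classical
  simp only [QQ, mem_filter]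

/-- the pattern of `N` -/
noncomputable def Join_f (I W N : ℕ) : Σ _ : ℕ, Σ _ : Fin I → ℕ, ℕ :=
  ⟨P (N + I) % W, ⟨fun j => D (N + (j : ℕ)), P (N + I)⟩⟩

/-- the set of the patterns -/
noncomputable def Join_S (I t W r b L X z : ℕ) : Finset (Σ _ : ℕ, Σ _ : Fin I → ℕ, ℕ) :=
  (range W).sigma (fun c => (GG I t W r b c L).sigma (fun g => QQ X (I + 1) z W c (Join_E g)))

lemma Join_mem {M I t r b W L X z N : ℕ} (hX : P (M + I) ≤ X) (hzy : z ≤ yy X (I + 1)) (hW : 1 ≤ W)
    (hWz : ∀ p : ℕ, p.Prime → p ∣ W → p ≤ z) (hN : N ∈ NN M I t r b L)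
    (hy : yy X (I + 1) < P N) : Join_f I W N ∈ Join_S I t W r b L X z := by
  rw [NN, mem_filter, mem_range] at hN
  obtain ⟨hNM, hsum, hdvd⟩ := hN
  have hpr : ∀ j, (P (N + j)).Prime := fun j => Nat.prime_nth_prime _
  have hgt : ∀ j, yy X (I + 1) < P (N + j) := fun j => hy.trans_le (Join_le (Nat.le_add_right _ _))
  have hsum' : ∑ j : Fin I, D (N + (j : ℕ)) ≤ L := by
    rw [Fin.sum_univ_eq_sum_range (fun j => D (N + j)) I]
    exact hsum
  rw [Join_S, Join_f, mem_sigma, mem_sigma]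
  refine ⟨mem_range.2 (Nat.mod_lt _ hW), ?_, ?_⟩
  · rw [Join_memGG]
    refine ⟨fun j => ?_, hsum', ?_, fun j => ?_⟩
    · rw [mem_Icc]
      refine ⟨Join_Dpos _, ?_⟩
      have h : D (N + (j : ℕ)) ≤ ∑ j : Fin I, D (N + (j : ℕ)) :=
        Finset.single_le_sum (f := fun j : Fin I => D (N + (j : ℕ))) (fun _ _ => Nat.zero_le _)
          (mem_univ j)
      exact h.trans hsum'
    · have h := Fin.sum_univ_eq_sum_range (fun j => D (N + j) * t ^ (I - 1 - j)) I
      simp only at h ⊢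
      rw [h]
      exact hdvd
    · simp only
      rw [Join_tail N I j]
      have h1 : ((P (N + I) % W : ℕ) : ℤ) - ((P (N + I) : ℤ) - P (N + (j : ℕ))) =
          (P (N + (j : ℕ)) : ℤ) + (W : ℤ) * (-((P (N + I) / W : ℕ) : ℤ)) := by
        have h2 : ((P (N + I) % W : ℕ) : ℤ) + (W : ℤ) * ((P (N + I) / W : ℕ) : ℤ) =
            (P (N + I) : ℤ) := by
          exact_mod_cast Nat.mod_add_div (P (N + I)) W
        linear_combination h2
      rw [h1, IsCoprime.add_mul_left_left_iff, Nat.isCoprime_iff_coprime,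
        Nat.Prime.coprime_iff_not_dvd (hpr _)]
      intro h3
      have h4 := hWz _ (hpr _) h3
      have h5 := hgt (j : ℕ)
      omega
  · rw [Join_memQQ]
    refine ⟨?_, ?_, ?_⟩
    · rw [mem_Icc]
      refine ⟨(hpr I).one_lt.le, ?_⟩
      exact (Join_le (by omega)).trans hX
    · simp only
      exact (Nat.mod_modEq _ _).symm
    · intro e he p hp hdv
      simp only at he hdv
      obtain ⟨j, -, hj⟩ := Join_sub he
      rw [hj] at hdv
      rw [mem_primesIoc] at hp
      have h1 : p ∣ P (N + j) := by exact_mod_cast hdv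
      have h2 := (Nat.prime_dvd_prime_iff_eq hp.2.2 (hpr j)).1 h1
      have h3 := hgt j
      omega

lemma Join_inj {I W : ℕ} : Function.Injective (Join_f I W) := by
  intro N N' h
  unfold Join_f at h
  have h1 : P (N + I) = P (N' + I) := by
    have := congrArg (fun s : Σ _ : ℕ, Σ _ : Fin I → ℕ, ℕ => s.2.2) h
    exact this
  rcases lt_trichotomy N N' with h2 | h2 | h2
  · exact absurd h1 (Join_lt (by omega)).ne
  · exact h2
  · exact absurd h1 (Join_lt (by omega)).ne'

theorem nn_le {M I t r b W L X z : ℕ} {lam Θ B : ℝ} (hI : 1 ≤ I) (ht : 2 ≤ t) (hb : 1 ≤ b) (hlam : 0 < lam)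
    (hΘ0 : 0 ≤ Θ) (hΘ : Th W t lam Θ) (hX : P (M + I) ≤ X) (hzy : z ≤ yy X (I + 1)) (hLz : L ≤ z) (hW : 1 ≤ W)
    (hWz : ∀ p : ℕ, p.Prime → p ∣ W → p ≤ z) (hB0 : 0 ≤ B)
    (hB : ∀ (c : ℕ) (E : Finset ℕ), #E = I + 1 → (∀ e ∈ E, e ≤ z) → (#(QQ X (I + 1) z W c E) : ℝ) ≤ B) :
    (#(NN M I t r b L) : ℝ) ≤ yy X (I + 1) +
      W * (b * Real.exp (L / lam) * (Θ ^ (I - 1) * (1 + lam / t))) * B := by
  classical
  have h1 : #((NN M I t r b L).filter (fun N => ¬ yy X (I + 1) < P N)) ≤ yy X (I + 1) := by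
    have h2 : (NN M I t r b L).filter (fun N => ¬ yy X (I + 1) < P N) ⊆ range (yy X (I + 1)) := by
      intro N hN
      rw [mem_filter, not_lt] at hN
      rw [mem_range]
      have h3 : N + 2 ≤ P N := Nat.add_two_le_nth_prime N
      omega
    simpa using card_le_card h2
  have h2 : #((NN M I t r b L).filter (fun N => yy X (I + 1) < P N)) ≤ #(Join_S I t W r b L X z) := by
    refine card_le_card_of_injOn (Join_f I W) ?_ Join_inj.injOn
    intro N hN
    have hN' := mem_filter.1 hN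
    exact Join_mem hX hzy hW hWz hN'.1 hN'.2
  have h3 : (#(Join_S I t W r b L X z) : ℝ) ≤
      W * (b * Real.exp (L / lam) * (Θ ^ (I - 1) * (1 + lam / t))) * B := by
    unfold Join_S
    rw [card_sigma]
    push_cast
    have h4 : ∀ c ∈ range W, (#((GG I t W r b c L).sigma (fun g => QQ X (I + 1) z W c (Join_E g))) : ℝ) ≤
        b * Real.exp (L / lam) * (Θ ^ (I - 1) * (1 + lam / t)) * B := by
      intro c _
      rw [card_sigma]
      push_cast
      have h5 : ∀ g ∈ GG I t W r b c L, (#(QQ X (I + 1) z W c (Join_E g)) : ℝ) ≤ B := by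
        intro g hg
        rw [Join_memGG] at hg
        have hg1 : ∀ j, 1 ≤ g j := fun j => (mem_Icc.1 (hg.1 j)).1
        exact hB c (Join_E g) (Join_card hg1) (fun e he => (Join_leE hg.2.1 he).trans hLz)
      have h6 := Finset.sum_le_card_nsmul (GG I t W r b c L)
        (fun g => (#(QQ X (I + 1) z W c (Join_E g)) : ℝ)) B h5
      rw [nsmul_eq_mul] at h6
      have h7 : (#(GG I t W r b c L) : ℝ) ≤ b * Real.exp (L / lam) * (Θ ^ (I - 1) * (1 + lam / t)) := by
        have h8 := count_pat ht hb hW hlam hΘ (I - 1) r L (c : ℤ)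
        have h9 : I - 1 + 1 = I := by omega
        rw [h9] at h8
        exact h8
      exact h6.trans (mul_le_mul_of_nonneg_right h7 hB0)
    have h6 := Finset.sum_le_card_nsmul (range W)
      (fun c => (#((GG I t W r b c L).sigma (fun g => QQ X (I + 1) z W c (Join_E g))) : ℝ)) _ h4
    rw [nsmul_eq_mul, card_range] at h6
    linarith
  have h4 := card_filter_add_card_filter_not (s := NN M I t r b L) (fun N => yy X (I + 1) < P N)
  have h5 : (#(NN M I t r b L) : ℝ) =
      #((NN M I t r b L).filter (fun N => yy X (I + 1) < P N)) +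
      #((NN M I t r b L).filter (fun N => ¬ yy X (I + 1) < P N)) := by
    exact_mod_cast h4.symm
  have h6 : (#((NN M I t r b L).filter (fun N => ¬ yy X (I + 1) < P N)) : ℝ) ≤ yy X (I + 1) := by
    exact_mod_cast h1
  have h7 : (#((NN M I t r b L).filter (fun N => yy X (I + 1) < P N)) : ℝ) ≤
      #(Join_S I t W r b L X z) := by
    exact_mod_cast h2
  linarith

end Pool.Agent.H47.IR
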