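import Pool.Agent.H47.IR.Defs
import Pool.Agent.H47.WS.ASieve

/-!
JOB IR-6. The weights of sifted sets.
-/

set_option autoImplicit false

open Finset Filter Topology

namespace Pool.Agent.H47.IR

open Pool.Agent.H16 Pool.Agent.H81.AS

lemma theta_geom {x : ℝ} (hx0 : 0 ≤ x) (hx1 : x < 1) (Q : ℕ) :
    ∑ q ∈ range Q, x ^ q ≤ 1 / (1 - x) := by
  have h : 0 < 1 - x := by linarith
  rw [le_div_iff₀ h]
  have h2 : (∑ q ∈ range Q, x ^ q) * (1 - x) = 1 - x ^ Q := by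
    rw [geom_sum_mul_neg]
  rw [h2]
  have : 0 ≤ x ^ Q := pow_nonneg hx0 Q
  linarith

lemma theta_geom_exp {s : ℝ} (hs : 0 < s) (Q : ℕ) :
    ∑ q ∈ range Q, Real.exp (-(s * q)) ≤ 1 + 1 / s := by
  have h1 : ∀ q : ℕ, Real.exp (-(s * q)) = Real.exp (-s) ^ q := by
    intro q
    rw [← Real.exp_nat_mul]
    congr 1
    ring
  rw [Finset.sum_congr rfl (fun q _ => h1 q)]
  have h2 : Real.exp (-s) < 1 := by
    rw [Real.exp_lt_one_iff]
    linarith
  refine (theta_geom (Real.exp_pos _).le h2 Q).trans ?_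
  have h3 : Real.exp (-s) ≤ 1 / (1 + s) := by
    rw [Real.exp_neg, ← one_div]
    apply one_div_le_one_div_of_le (by linarith)
    have := Real.add_one_le_exp s
    linarith
  have h4 : s / (1 + s) ≤ 1 - Real.exp (-s) := by
    have : s / (1 + s) = 1 - 1 / (1 + s) := by
      field_simp
      ring
    rw [this]
    linarith
  have h5 : 0 < s / (1 + s) := by positivity
  calc 1 / (1 - Real.exp (-s)) ≤ 1 / (s / (1 + s)) := one_div_le_one_div_of_le h5 h4
    _ = 1 + 1 / s := by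
      field_simp
      ring

theorem th_one {t : ℕ} (ht : 1 ≤ t) {lam : ℝ} (hlam : 0 < lam) : Th 1 t lam (1 + lam / t) := by
  have ht0 : (0 : ℝ) < t := by exact_mod_cast ht
  intro r Q
  have hs : 0 < (t : ℝ) / lam := by positivity
  have h1 := theta_geom_exp hs Q
  have h2 : 1 / ((t : ℝ) / lam) = lam / t := by
    rw [one_div_div]
  rw [h2] at h1
  refine le_trans ?_ h1
  refine (Finset.sum_le_sum_of_subset_of_nonneg (Finset.filter_subset _ _)
    (fun _ _ _ => (Real.exp_pos _).le)).trans (le_of_eq ?_)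
  apply Finset.sum_congr rfl
  intro q _
  congr 2
  ring

lemma theta_prod (D : Finset ℕ) (hD : ∀ p ∈ D, p.Prime) (r : ℕ → ℤ) (R : ℤ)
    (hR : ∀ p ∈ D, (p : ℤ) ∣ R - r p) (n : ℕ) :
    ∏ p ∈ D, (if (p : ℤ) ∣ (n : ℤ) - r p then (1 : ℝ) else 0) =
      if (((∏ p ∈ D, p : ℕ) : ℤ)) ∣ (n : ℤ) - R then 1 else 0 := by
  rw [← Pool.Agent.H47.WS.asv_prod D hD ((n : ℤ) - R)]
  apply Finset.prod_congr rfl
  intro p hp
  have h : (p : ℤ) ∣ (n : ℤ) - r p ↔ (p : ℤ) ∣ (n : ℤ) - R := by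
    have h1 := hR p hp
    have h2 : (n : ℤ) - r p = ((n : ℤ) - R) + (R - r p) := by ring
    rw [h2]
    exact (dvd_add_left h1)
  simp only [h]

lemma theta_crt (D : Finset ℕ) (hD : ∀ p ∈ D, p.Prime) (r : ℕ → ℤ) :
    ∃ R : ℕ, ∀ p ∈ D, (p : ℤ) ∣ (R : ℤ) - r p := by
  have h1 : Set.Pairwise (D : Set ℕ) (Function.onFun Nat.Coprime (fun p : ℕ => p)) := by
    intro p hp q hq hpq
    exact (Nat.coprime_primes (hD p hp) (hD q hq)).2 hpq
  have h2 := Nat.chineseRemainderOfFinset (fun p : ℕ => (r p % p).toNat) (fun p : ℕ => p) D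
    (fun p hp => (hD p hp).ne_zero) h1
  refine ⟨h2.1, fun p hp => ?_⟩
  have h3 := h2.2 p hp
  have hp0 : (0 : ℤ) < p := by exact_mod_cast (hD p hp).pos
  have h4 : (((r p % p).toNat : ℕ) : ℤ) = r p % p := Int.toNat_of_nonneg (Int.emod_nonneg _ hp0.ne')
  have h5 : ((h2.1 : ℕ) : ℤ) ≡ ((r p % p).toNat : ℕ) [ZMOD (p : ℕ)] :=
    Int.natCast_modEq_iff.2 h3
  rw [h4] at h5
  have h6 : ((h2.1 : ℕ) : ℤ) ≡ r p [ZMOD (p : ℕ)] := h5.trans (Int.mod_modEq _ _)
  exact (Int.modEq_iff_dvd.1 h6.symm)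

lemma theta_count (K d R : ℕ) (hd : 1 ≤ d) :
    |(#((range K).filter (fun n : ℕ => (d : ℤ) ∣ (n : ℤ) - R)) : ℝ) - (K : ℝ) / d| ≤ 1 := by
  have h1 : (range K).filter (fun n : ℕ => (d : ℤ) ∣ (n : ℤ) - R) =
      (range K).filter (fun n : ℕ => n ≡ R [MOD d]) := by
    apply Finset.filter_congr
    intro n _
    rw [← Int.natCast_modEq_iff, Int.modEq_comm, Int.modEq_iff_dvd]
  rw [h1, ← Nat.count_eq_card_filter_range, Nat.count_modEq_card K (by omega : 0 < d) R]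
  have hd0 : (0 : ℝ) < d := by exact_mod_cast hd
  have h2 := Nat.div_add_mod K d
  have h3 := Nat.mod_lt K (by omega : d > 0)
  have h4 : (K : ℝ) / d = ((K / d : ℕ) : ℝ) + ((K % d : ℕ) : ℝ) / d := by
    have : (K : ℝ) = d * ((K / d : ℕ) : ℝ) + ((K % d : ℕ) : ℝ) := by exact_mod_cast h2.symm
    rw [this]
    field_simp
  have h5 : ((K % d : ℕ) : ℝ) / d < 1 := by
    rw [div_lt_one hd0]
    exact_mod_cast h3
  have h6 : 0 ≤ ((K % d : ℕ) : ℝ) / d := by positivity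
  rw [h4, abs_le]
  push_cast
  split_ifs <;> constructor <;> linarith

/-- the remainder bound -/
lemma theta_RD (r : ℕ → ℤ) (K : ℕ) (D : Finset ℕ) (hD : ∀ p ∈ D, p.Prime) :
    |RD (range K) (fun _ => (1 : ℝ)) (fun n p => if (p : ℤ) ∣ (n : ℤ) - r p then (1 : ℝ) else 0)
      (K : ℝ) (fun p => 1 / (p : ℝ)) D| ≤ 1 := by
  obtain ⟨R, hR⟩ := theta_crt D hD r
  have h1 : 1 ≤ ∏ p ∈ D, p := Finset.prod_pos (fun p hp => (hD p hp).pos)
  have h2 := theta_count K (∏ p ∈ D, p) R h1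
  unfold RD AD
  have h3 : ∀ n ∈ range K, (1 : ℝ) * ∏ p ∈ D, (if (p : ℤ) ∣ (n : ℤ) - r p then (1 : ℝ) else 0) =
      if (((∏ p ∈ D, p : ℕ) : ℤ)) ∣ (n : ℤ) - R then 1 else 0 := by
    intro n _
    rw [one_mul, theta_prod D hD r R hR]
  rw [Finset.sum_congr rfl h3, Finset.sum_boole]
  have h4 : (K : ℝ) * ∏ p ∈ D, 1 / (p : ℝ) = (K : ℝ) / ((∏ p ∈ D, p : ℕ) : ℝ) := by
    rw [Finset.prod_div_distrib, Finset.prod_const_one]
    push_cast
    ring
  rw [h4]
  exact h2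

/-- numerical bound for the error term -/
lemma theta_num (K : ℝ) (hK : 1 ≤ Real.log K) (hK0 : 0 < K) :
    (1 + 2 * Real.log K) * Real.sqrt K ≤ 192 * (K / Real.log K) := by
  have hl0 : 0 < Real.log K := by linarith
  have hK1 : 1 ≤ K := by
    by_contra h
    have := Real.log_nonpos hK0.le (not_le.1 h).le
    linarith
  set u := K ^ ((1 : ℝ) / 8) with hu
  have hu1 : 1 ≤ u := Real.one_le_rpow hK1 (by norm_num)
  have hu8 : u ^ 8 = K := by
    rw [hu, ← Real.rpow_natCast, ← Real.rpow_mul hK0.le]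
    norm_num
  have hs : Real.sqrt K = u ^ 4 := by
    rw [← hu8, show u ^ 8 = (u ^ 4) ^ 2 by ring, Real.sqrt_sq (by positivity)]
  have hl : Real.log K ≤ 8 * u := by
    have h1 : Real.log K = 8 * Real.log u := by
      rw [← hu8, Real.log_pow]; norm_num
    have h2 := Real.log_le_sub_one_of_pos (show 0 < u by linarith)
    rw [h1]; linarith
  rw [mul_div_assoc', le_div_iff₀ hl0, hs]
  set l := Real.log K with hl'
  have h3 : (1 + 2 * l) * l ≤ 3 * (8 * u) ^ 2 := by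
    have h4 : (1 + 2 * l) * l ≤ 3 * l ^ 2 := by nlinarith
    have h5 : l ^ 2 ≤ (8 * u) ^ 2 := pow_le_pow_left₀ hl0.le hl 2
    linarith
  have h6 : (1 + 2 * l) * u ^ 4 * l = ((1 + 2 * l) * l) * u ^ 4 := by ring
  rw [h6]
  have h7 : (0 : ℝ) ≤ u ^ 4 := by positivity
  refine (mul_le_mul_of_nonneg_right h3 h7).trans ?_
  have h8 : 3 * (8 * u) ^ 2 * u ^ 4 = 192 * u ^ 6 := by ring
  rw [h8]
  have h9 : u ^ 6 ≤ K := by
    rw [← hu8]
    exact pow_le_pow_right₀ hu1 (by norm_num)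
  linarith

theorem res_sieve : ∃ C : ℝ, 0 < C ∧ ∀ K : ℕ, 2 ≤ K → ∀ r : ℕ → ℤ,
    (#((range K).filter (fun q : ℕ => ∀ p ∈ Nat.primesLE ⌊(K : ℝ) ^ ((1 : ℝ) / 10)⌋₊,
      ¬ (p : ℤ) ∣ (q : ℤ) - r p)) : ℝ) ≤ C * (K / Real.log K) := by
  obtain ⟨s, hs0, hFL⟩ := flp_exists
  have hF : FLP 1 s := hFL 1 s le_rfl (by omega)
  set M : ℕ := 4 * s + 5 with hM
  have hM0 : (0 : ℝ) < M := by rw [hM]; positivity
  have hM9 : (9 : ℝ) ≤ M := by
    have : 9 ≤ M := by omega
    exact_mod_cast this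
  set z0 : ℕ := ⌈Real.exp 100⌉₊ with hz0
  have hz1 : Real.exp 100 ≤ z0 := Nat.le_ceil _
  have hz2 : 100 ≤ Real.log z0 := by
    rw [Real.le_log_iff_exp_le (lt_of_lt_of_le (Real.exp_pos _) hz1)]
    exact hz1
  have hz101 : (101 : ℝ) ≤ z0 := by
    have := Real.add_one_le_exp (100 : ℝ)
    linarith
  have hz0n : 2 ≤ z0 := by
    have : (2 : ℝ) ≤ z0 := by linarith
    exact_mod_cast this
  set L0 : ℝ := 4 * M * (Real.log z0 + 1) with hL0
  have hL0p : 0 < L0 := by positivity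
  set C1 : ℝ := 2 * (4 * M) / Vp z0 with hC1
  have hC1p : 0 < C1 := by
    have := Vp_pos z0
    positivity
  refine ⟨L0 + C1 + 192, by positivity, ?_⟩
  intro K hK r
  have hK0 : 0 < K := by omega
  have hKr : (2 : ℝ) ≤ K := by exact_mod_cast hK
  have hlogK : 0 < Real.log K := Real.log_pos (by linarith)
  have hfr : 0 ≤ (K : ℝ) / Real.log K := by positivity
  by_cases hbig : L0 ≤ Real.log K
  swap
  · -- small K
    have h1 : (#((range K).filter (fun q : ℕ => ∀ p ∈ Nat.primesLE ⌊(K : ℝ) ^ ((1 : ℝ) / 10)⌋₊,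
      ¬ (p : ℤ) ∣ (q : ℤ) - r p)) : ℝ) ≤ (K : ℝ) := by
      have h2 := Finset.card_filter_le (range K)
        (fun q : ℕ => ∀ p ∈ Nat.primesLE ⌊(K : ℝ) ^ ((1 : ℝ) / 10)⌋₊, ¬ (p : ℤ) ∣ (q : ℤ) - r p)
      rw [Finset.card_range] at h2
      exact_mod_cast h2
    refine h1.trans ?_
    have h3 : (K : ℝ) = Real.log K * ((K : ℝ) / Real.log K) := by field_simp
    calc (K : ℝ) = Real.log K * ((K : ℝ) / Real.log K) := h3
      _ ≤ (L0 + C1 + 192) * ((K : ℝ) / Real.log K) := by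
          apply mul_le_mul_of_nonneg_right _ hfr
          linarith [not_le.1 hbig]
  -- large K
  have hL1 : (1 : ℝ) ≤ Real.log K := by
    refine le_trans ?_ hbig
    rw [hL0]
    nlinarith
  set x : ℝ := (K : ℝ) ^ (1 / (2 * (M : ℝ))) with hx
  have hx0 : 0 < x := by positivity
  have hlx : Real.log x = Real.log K / (2 * M) := by
    rw [hx, Real.log_rpow (by linarith)]
    ring
  have hlx2 : 2 * (Real.log z0 + 1) ≤ Real.log x := by
    rw [hlx, le_div_iff₀ (by positivity)]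
    calc 2 * (Real.log z0 + 1) * (2 * M) = L0 := by rw [hL0]; ring
      _ ≤ Real.log K := hbig
  have hx10 : x ≤ (K : ℝ) ^ ((1 : ℝ) / 10) := by
    apply Real.rpow_le_rpow_of_exponent_le (by linarith)
    apply one_div_le_one_div_of_le (by norm_num)
    linarith
  set y : ℕ := ⌊x⌋₊ with hy
  have hyx : (y : ℝ) ≤ x := Nat.floor_le hx0.le
  have hxy : x < y + 1 := Nat.lt_floor_add_one x
  have hxz : (z0 : ℝ) ^ 2 ≤ x := by
    have h1 : (z0 : ℝ) ^ 2 = Real.exp (2 * Real.log z0) := by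
      rw [show 2 * Real.log (z0 : ℝ) = Real.log z0 + Real.log z0 by ring, Real.exp_add,
        Real.exp_log (by linarith)]
      ring
    rw [h1, ← Real.exp_log hx0]
    exact Real.exp_le_exp.2 (by linarith)
  have hzy : z0 ≤ y := by
    apply Nat.le_floor
    nlinarith
  have hy0 : (0 : ℝ) < y := by
    have : (z0 : ℝ) ≤ y := by exact_mod_cast hzy
    linarith
  have hy2 : x / 2 ≤ y := by
    have : (z0 : ℝ) ≤ y := by exact_mod_cast hzy
    linarith
  have hly : Real.log K / (4 * M) ≤ Real.log y := by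
    have h1 : Real.log (x / 2) ≤ Real.log y := Real.log_le_log (by positivity) hy2
    rw [Real.log_div hx0.ne' (by norm_num)] at h1
    have h2 : Real.log 2 ≤ 1 := by
      have := Real.log_le_sub_one_of_pos (show (0 : ℝ) < 2 by norm_num)
      linarith
    have h3 : Real.log K / (4 * M) = Real.log x / 2 := by
      rw [hlx]; field_simp; ring
    rw [h3]
    linarith
  have hlyp : 0 < Real.log y := lt_of_lt_of_le (by positivity) hly
  have hyM : (y : ℝ) ^ M ≤ Real.sqrt K := by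
    calc (y : ℝ) ^ M ≤ x ^ M := pow_le_pow_left₀ hy0.le hyx M
      _ = Real.sqrt K := by
          rw [hx, ← Real.rpow_natCast, ← Real.rpow_mul (by linarith), Real.sqrt_eq_rpow]
          congr 1
          field_simp
  have hsK : Real.sqrt K ≤ K := by
    rw [Real.sqrt_le_left (by linarith)]
    nlinarith
  have hyK : (y : ℝ) ≤ K := by
    have hM1 : M ≠ 0 := by omega
    have h1 : (1 : ℝ) ≤ y := by
      have : (z0 : ℝ) ≤ y := by exact_mod_cast hzy
      linarith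
    calc (y : ℝ) ≤ (y : ℝ) ^ M := le_self_pow₀ h1 hM1
      _ ≤ _ := hyM.trans hsK
  have hy10 : y ≤ ⌊(K : ℝ) ^ ((1 : ℝ) / 10)⌋₊ := Nat.floor_le_floor hx10
  set P : Finset ℕ := primesIoc z0 y with hP
  have hPp : ∀ p ∈ P, p.Prime := fun p hp => (mem_primesIoc.1 hp).2.2
  set c : ℕ → ℕ → ℝ := fun n p => if (p : ℤ) ∣ (n : ℤ) - r p then (1 : ℝ) else 0 with hc
  have hc0 : ∀ n p, 0 ≤ c n p := fun n p => by rw [hc]; dsimp only; split_ifs <;> norm_num
  have hc1 : ∀ n p, c n p ≤ 1 := fun n p => by rw [hc]; dsimp only; split_ifs <;> norm_num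
  have hmain := hF (range K) (fun _ => 1) c (K : ℝ) z0 y hz2 (by push_cast; linarith) hzy P hPp
    (fun p hp => (mem_primesIoc.1 hp).1)
    (fun p hp => (mem_primesIoc.1 hp).2.1)
    (fun p => 1 / (p : ℝ)) (fun p _ => by positivity) (fun p _ => by simp)
    (fun _ _ => zero_le_one) (fun n _ p _ => hc0 n p) (fun n _ p _ => hc1 n p) (by positivity)
  -- the count is at most the sieve sum
  have hcount : (#((range K).filter (fun q : ℕ => ∀ p ∈ Nat.primesLE ⌊(K : ℝ) ^ ((1 : ℝ) / 10)⌋₊,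
      ¬ (p : ℤ) ∣ (q : ℤ) - r p)) : ℝ) ≤
      ∑ n ∈ range K, (1 : ℝ) * ∏ p ∈ P, (1 - c n p) := by
    rw [Finset.card_filter]
    push_cast
    apply Finset.sum_le_sum
    intro n _
    rw [one_mul]
    split_ifs with h
    · rw [Finset.prod_eq_one]
      intro p hp
      have hp2 := mem_primesIoc.1 hp
      have h1 : ¬ (p : ℤ) ∣ (n : ℤ) - r p := by
        apply h p
        rw [Nat.mem_primesLE]
        exact ⟨hp2.2.1.trans hy10, hp2.2.2⟩
      rw [hc]
      dsimp only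
      rw [if_neg h1, sub_zero]
    · exact Finset.prod_nonneg (fun p _ => by linarith [hc1 n p])
  -- the remainder sum
  have hrem : ∑ D ∈ P.powerset.filter (fun D => (∏ p ∈ D, p) ≤ y ^ (4 * s + 5)),
      |RD (range K) (fun _ => (1 : ℝ)) c (K : ℝ) (fun p => 1 / (p : ℝ)) D| ≤
      Real.sqrt K := by
    have hmem : ∀ D ∈ P.powerset.filter (fun D => (∏ p ∈ D, p) ≤ y ^ (4 * s + 5)),
        (∀ p ∈ D, p.Prime) ∧ ((∏ p ∈ D, p : ℕ) : ℝ) ≤ Real.sqrt K := by
      intro D hD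
      rw [Finset.mem_filter, Finset.mem_powerset] at hD
      refine ⟨fun p hp => hPp p (hD.1 hp), ?_⟩
      refine le_trans ?_ hyM
      exact_mod_cast hD.2
    have h1 : ∀ D ∈ P.powerset.filter (fun D => (∏ p ∈ D, p) ≤ y ^ (4 * s + 5)),
        |RD (range K) (fun _ => (1 : ℝ)) c (K : ℝ) (fun p => 1 / (p : ℝ)) D| ≤ 1 := by
      intro D hD
      exact theta_RD r K D (hmem D hD).1
    refine (Finset.sum_le_sum h1).trans ?_
    rw [Finset.sum_const, nsmul_eq_mul, mul_one]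
    exact Pool.Agent.H47.WS.asv_card_D_le _ (fun D hD => (hmem D hD).1) _ (Real.sqrt_nonneg _)
      (fun D hD => (hmem D hD).2)
  -- the product
  have hprod : ∏ p ∈ P, (1 - 1 / (p : ℝ)) ≤ (1 / Real.log y) / Vp z0 := by
    have h2 := Vp_mul z0 y hzy
    have h3 := Vp_le y (hz0n.trans hzy)
    have h4 := Vp_pos z0
    rw [le_div_iff₀ h4, mul_comm, hP, h2]
    exact h3
  have hPi0 : 0 ≤ ∏ p ∈ P, (1 - 1 / (p : ℝ)) :=
    Finset.prod_nonneg (fun p hp => (one_sub_inv_pos (hPp p hp)).le)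
  set Pi : ℝ := ∏ p ∈ P, (1 - 1 / (p : ℝ)) with hPi
  have hup := (abs_le.1 hmain).2
  have hhalf : (1 / 2 : ℝ) ^ s ≤ 1 := pow_le_one₀ (by norm_num) (by norm_num)
  have hlyK : Real.log y ≤ Real.log K := Real.log_le_log hy0 hyK
  have hE : (1 + 2 * Real.log y) * ∑ D ∈ P.powerset.filter (fun D => (∏ p ∈ D, p) ≤ y ^ (4 * s + 5)),
      |RD (range K) (fun _ => (1 : ℝ)) c (K : ℝ) (fun p => 1 / (p : ℝ)) D| ≤
      192 * ((K : ℝ) / Real.log K) := by
    refine le_trans ?_ (theta_num K hL1 (by linarith))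
    apply mul_le_mul _ hrem (Finset.sum_nonneg (fun _ _ => abs_nonneg _)) (by linarith)
    linarith
  have hmainterm : (K : ℝ) * Pi + (1 / 2 : ℝ) ^ s * ((K : ℝ) * Pi) ≤
      C1 * ((K : ℝ) / Real.log K) := by
    have h0 : 0 ≤ (K : ℝ) * Pi := by positivity
    have h1 : (1 / 2 : ℝ) ^ s * ((K : ℝ) * Pi) ≤ 1 * ((K : ℝ) * Pi) :=
      mul_le_mul_of_nonneg_right hhalf h0
    have h2 : Pi ≤ (4 * M / Real.log K) / Vp z0 := by
      refine hprod.trans ?_
      have h4 := Vp_pos z0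
      apply div_le_div_of_nonneg_right _ h4.le
      rw [div_le_div_iff₀ hlyp hlogK]
      rw [div_le_iff₀ (by positivity)] at hly
      linarith
    have h3 : (K : ℝ) * Pi ≤ (K : ℝ) * ((4 * M / Real.log K) / Vp z0) :=
      mul_le_mul_of_nonneg_left h2 (by positivity)
    have h4 : 2 * ((K : ℝ) * ((4 * M / Real.log K) / Vp z0)) = C1 * ((K : ℝ) / Real.log K) := by
      rw [hC1]
      have := (Vp_pos z0).ne'
      field_simp
    linarith
  have hL0n : 0 ≤ L0 * ((K : ℝ) / Real.log K) := by positivity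
  have hfin : (L0 + C1 + 192) * ((K : ℝ) / Real.log K) = L0 * ((K : ℝ) / Real.log K) +
      C1 * ((K : ℝ) / Real.log K) + 192 * ((K : ℝ) / Real.log K) := by ring
  rw [hfin]
  linarith

/-- the residues of one block -/
lemma theta_block (F : Finset ℕ) (r : ℕ → ℕ) (Y : ℕ) (K i : ℕ) (hK : 0 < K)
    (hF : ∀ q ∈ F, ∀ p ∈ Nat.primesLE Y, ¬ q ≡ r p [MOD p]) :
    #(F.filter (fun q => q / K = i)) ≤
      #((range K).filter (fun q : ℕ => ∀ p ∈ Nat.primesLE Y, ¬ (p : ℤ) ∣ (q : ℤ) - ((r p : ℤ) - (i * K : ℕ)))) := by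
  apply Finset.card_le_card_of_injOn (fun q => q % K)
  · intro q hq
    rw [Finset.mem_coe, Finset.mem_filter] at hq
    rw [Finset.mem_coe, Finset.mem_filter, Finset.mem_range]
    refine ⟨Nat.mod_lt _ hK, fun p hp hd => hF q hq.1 p hp ?_⟩
    have h1 := Nat.div_add_mod q K
    rw [hq.2] at h1
    have h2 : (q : ℤ) = K * i + ((q % K : ℕ) : ℤ) := by exact_mod_cast h1.symm
    have h3 : (p : ℤ) ∣ (q : ℤ) - r p := by
      have h4 : (q : ℤ) - r p = ((q % K : ℕ) : ℤ) - ((r p : ℤ) - (i * K : ℕ)) := by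
        rw [h2]
        push_cast
        ring
      rw [h4]
      exact hd
    exact (Int.natCast_modEq_iff.1 (Int.modEq_iff_dvd.2 h3)).symm
  · intro q hq q' hq' h
    rw [Finset.mem_coe, Finset.mem_filter] at hq hq'
    simp only at h
    rw [← Nat.div_add_mod q K, ← Nat.div_add_mod q' K, hq.2, hq'.2, h]

lemma theta_WT_primeFactors (lam : ℝ) : (WT lam).primeFactors = Nat.primesLE ⌊lam ^ ((1 : ℝ) / 8)⌋₊ := by
  unfold WT
  exact Nat.primeFactors_prod (fun p hp => (Nat.mem_primesLE.1 hp).2)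

theorem th_WT : ∃ C : ℝ, 0 < C ∧ ∀ᶠ lam : ℝ in atTop, ∀ t : ℕ, 1 ≤ t → (t : ℝ) ≤ lam ^ ((1 : ℝ) / 2) →
    Th (WT lam) t lam (C * (lam / (t * Real.log lam))) := by
  obtain ⟨C0, hC0, hsieve⟩ := res_sieve
  refine ⟨8 * C0, by positivity, ?_⟩
  filter_upwards [eventually_ge_atTop (16 : ℝ)] with lam hlam t ht htl
  have ht0 : (0 : ℝ) < t := by exact_mod_cast ht
  have hlam0 : 0 < lam := by linarith
  have hloglam : 0 < Real.log lam := Real.log_pos (by linarith)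
  have hsq : lam ^ ((1 : ℝ) / 2) * lam ^ ((1 : ℝ) / 2) = lam := by
    rw [← Real.rpow_add hlam0]
    norm_num
  have hsq4 : (4 : ℝ) ≤ lam ^ ((1 : ℝ) / 2) := by
    rw [← Real.sqrt_eq_rpow]
    apply Real.le_sqrt_of_sq_le
    norm_num
    exact hlam
  have hlt : lam ^ ((1 : ℝ) / 2) ≤ lam / t := by
    rw [le_div_iff₀ ht0]
    calc lam ^ ((1 : ℝ) / 2) * t ≤ lam ^ ((1 : ℝ) / 2) * lam ^ ((1 : ℝ) / 2) :=
          mul_le_mul_of_nonneg_left htl (by linarith)
      _ = lam := hsq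
  set K : ℕ := ⌈lam / t⌉₊ with hKdef
  have hK1 : lam / t ≤ K := Nat.le_ceil _
  have hK2 : (K : ℝ) < lam / t + 1 := Nat.ceil_lt_add_one (by positivity)
  have hKr2 : (4 : ℝ) ≤ K := by linarith
  have hK4 : 2 ≤ K := by
    have : (2 : ℝ) ≤ K := by linarith
    exact_mod_cast this
  have hK0 : 0 < K := by omega
  have hK3 : (K : ℝ) ≤ 2 * (lam / t) := by linarith
  have hltl : lam / t ≤ lam := by
    apply div_le_self hlam0.le
    exact_mod_cast ht
  have hlogK : Real.log lam / 2 ≤ Real.log K := by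
    have h1 : Real.log (lam ^ ((1 : ℝ) / 2)) ≤ Real.log K :=
      Real.log_le_log (by linarith) (hlt.trans hK1)
    rw [Real.log_rpow hlam0] at h1
    linarith
  have hlogK0 : 0 < Real.log K := by linarith
  have hK10 : (K : ℝ) ^ ((1 : ℝ) / 10) ≤ lam ^ ((1 : ℝ) / 8) := by
    have h1 : (2 : ℝ) ≤ lam ^ ((1 : ℝ) / 4) := by
      have h2 : (16 : ℝ) ^ ((1 : ℝ) / 4) ≤ lam ^ ((1 : ℝ) / 4) :=
        Real.rpow_le_rpow (by norm_num) hlam (by norm_num)
      have h3 : (16 : ℝ) ^ ((1 : ℝ) / 4) = 2 := by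
        rw [show (16 : ℝ) = 2 ^ (4 : ℝ) by norm_num, ← Real.rpow_mul (by norm_num)]
        norm_num
      linarith
    have h4 : (K : ℝ) ≤ lam ^ ((5 : ℝ) / 4) := by
      have h5 : lam ^ ((5 : ℝ) / 4) = lam * lam ^ ((1 : ℝ) / 4) := by
        rw [show (5 : ℝ) / 4 = 1 + 1 / 4 by norm_num, Real.rpow_add hlam0, Real.rpow_one]
      rw [h5]
      nlinarith
    calc (K : ℝ) ^ ((1 : ℝ) / 10) ≤ (lam ^ ((5 : ℝ) / 4)) ^ ((1 : ℝ) / 10) :=
          Real.rpow_le_rpow (by positivity) h4 (by norm_num)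
      _ = lam ^ ((1 : ℝ) / 8) := by
          rw [← Real.rpow_mul hlam0.le]
          norm_num
  have htK : 1 ≤ (t : ℝ) * K / lam := by
    rw [le_div_iff₀ hlam0, one_mul]
    calc lam = t * (lam / t) := by field_simp
      _ ≤ t * K := mul_le_mul_of_nonneg_left hK1 ht0.le
  intro r Q
  rw [theta_WT_primeFactors]
  set F := (range Q).filter (fun q : ℕ => ∀ p ∈ Nat.primesLE ⌊lam ^ ((1 : ℝ) / 8)⌋₊, ¬ q ≡ r p [MOD p])
    with hF
  have hFp : ∀ q ∈ F, ∀ p ∈ Nat.primesLE ⌊(K : ℝ) ^ ((1 : ℝ) / 10)⌋₊, ¬ q ≡ r p [MOD p] := by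
    intro q hq p hp
    rw [hF, Finset.mem_filter] at hq
    apply hq.2 p
    rw [Nat.mem_primesLE] at hp ⊢
    exact ⟨hp.1.trans (Nat.floor_le_floor hK10), hp.2⟩
  have hmaps : ∀ q ∈ F, q / K ∈ range Q := by
    intro q hq
    rw [hF, Finset.mem_filter, Finset.mem_range] at hq
    rw [Finset.mem_range]
    exact lt_of_le_of_lt (Nat.div_le_self _ _) hq.1
  rw [← Finset.sum_fiberwise_of_maps_to hmaps]
  have hblock : ∀ i ∈ range Q, ∑ q ∈ F.filter (fun q => q / K = i), Real.exp (-((t : ℝ) * q / lam)) ≤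
      C0 * (K / Real.log K) * Real.exp (-((1 : ℝ) * i)) := by
    intro i _
    have h1 : ∀ q ∈ F.filter (fun q => q / K = i), Real.exp (-((t : ℝ) * q / lam)) ≤
        Real.exp (-((1 : ℝ) * i)) := by
      intro q hq
      rw [Finset.mem_filter] at hq
      apply Real.exp_le_exp.2
      rw [neg_le_neg_iff, one_mul]
      have h2 : (i : ℝ) * K ≤ q := by
        have : i * K ≤ q := by
          rw [← hq.2]
          exact Nat.div_mul_le_self q K
        exact_mod_cast this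
      calc (i : ℝ) = i * 1 := by ring
        _ ≤ i * ((t : ℝ) * K / lam) := mul_le_mul_of_nonneg_left htK (Nat.cast_nonneg _)
        _ = t * (i * K) / lam := by ring
        _ ≤ t * q / lam := by
            apply div_le_div_of_nonneg_right _ hlam0.le
            exact mul_le_mul_of_nonneg_left h2 ht0.le
    refine (Finset.sum_le_sum h1).trans ?_
    rw [Finset.sum_const, nsmul_eq_mul]
    apply mul_le_mul_of_nonneg_right _ (Real.exp_pos _).le
    have h3 := theta_block F r ⌊(K : ℝ) ^ ((1 : ℝ) / 10)⌋₊ K i hK0 hFp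
    have h4 := hsieve K hK4 (fun p => (r p : ℤ) - (i * K : ℕ))
    refine le_trans ?_ h4
    exact_mod_cast h3
  refine (Finset.sum_le_sum hblock).trans ?_
  rw [← Finset.mul_sum]
  have hgeo := theta_geom_exp (s := 1) one_pos Q
  have hKl0 : 0 ≤ C0 * (K / Real.log K) := by positivity
  refine (mul_le_mul_of_nonneg_left hgeo hKl0).trans ?_
  have h5 : (K : ℝ) / Real.log K ≤ 2 * (lam / t) / (Real.log lam / 2) := by
    apply div_le_div₀ (by positivity) hK3 (by positivity) hlogK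
  calc C0 * (K / Real.log K) * (1 + 1 / 1) = 2 * C0 * (K / Real.log K) := by ring
    _ ≤ 2 * C0 * (2 * (lam / t) / (Real.log lam / 2)) := mul_le_mul_of_nonneg_left h5 (by positivity)
    _ = 8 * C0 * (lam / (t * Real.log lam)) := by
        field_simp
        ring

end Pool.Agent.H47.IR
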