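import Pool.Agent.H47.IR.Cheb
import Pool.Agent.H47.IR.Join
import Pool.Agent.H47.IR.Theta
import Pool.Agent.H47.IR.Big

/-!
JOB IR-9. The upper bound for the number of `N` with the congruence.
-/

set_option autoImplicit false

open Finset Filter Topology

namespace Pool.Agent.H47.IR

open Pool.Agent.H16

theorem upper_ev_log (n : ℕ) (c : ℝ) {s : ℝ} (hs : 0 < s) :
    ∀ᶠ l : ℝ in atTop, c * (Real.log l) ^ n ≤ l ^ s := by
  have h := (isLittleO_log_rpow_rpow_atTop (n : ℝ) hs).def (c := 1 / (|c| + 1)) (by positivity)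
  filter_upwards [h, eventually_gt_atTop 1] with l hl h1
  have hlog : 0 < Real.log l := Real.log_pos h1
  have hl0 : (0 : ℝ) < l := by linarith
  rw [Real.norm_of_nonneg (Real.rpow_nonneg hlog.le _), Real.norm_of_nonneg (Real.rpow_nonneg hl0.le _),
    Real.rpow_natCast] at hl
  have hc : (0 : ℝ) < |c| + 1 := by positivity
  have h2 : (|c| + 1) * (Real.log l) ^ n ≤ l ^ s := by
    calc (|c| + 1) * (Real.log l) ^ n ≤ (|c| + 1) * (1 / (|c| + 1) * l ^ s) :=
          mul_le_mul_of_nonneg_left hl hc.le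
      _ = l ^ s := by field_simp
  have h3 : c * (Real.log l) ^ n ≤ (|c| + 1) * (Real.log l) ^ n :=
    mul_le_mul_of_nonneg_right (by linarith [le_abs_self c]) (pow_nonneg hlog.le n)
  linarith

theorem upper_ev_log1 (n : ℕ) (c : ℝ) : ∀ᶠ l : ℝ in atTop, c * (Real.log l) ^ n ≤ l := by
  filter_upwards [upper_ev_log n c (s := 1) one_pos] with l hl
  simpa using hl

theorem upper_ev_exp (n : ℕ) (c : ℝ) {s : ℝ} (hs : 0 < s) :
    ∀ᶠ l : ℝ in atTop, c * l ^ n ≤ Real.exp (s * l) := by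
  have h := (isLittleO_pow_exp_pos_mul_atTop n hs).def (c := 1 / (|c| + 1)) (by positivity)
  filter_upwards [h, eventually_gt_atTop 0] with l hl h1
  rw [Real.norm_of_nonneg (pow_nonneg h1.le _), Real.norm_of_nonneg (Real.exp_pos _).le] at hl
  have hc : (0 : ℝ) < |c| + 1 := by positivity
  have h2 : (|c| + 1) * l ^ n ≤ Real.exp (s * l) := by
    calc (|c| + 1) * l ^ n ≤ (|c| + 1) * (1 / (|c| + 1) * Real.exp (s * l)) :=
          mul_le_mul_of_nonneg_left hl hc.le
      _ = Real.exp (s * l) := by field_simp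
  have h3 : c * l ^ n ≤ (|c| + 1) * l ^ n :=
    mul_le_mul_of_nonneg_right (by linarith [le_abs_self c]) (pow_nonneg h1.le n)
  linarith

/-- the main part -/
theorem upper_main {l y b K C1 C3 Mr X W T E q r : ℝ} {J : ℕ} (hl : 1 ≤ l) (hy : y = Real.log l)
    (hb : 1 ≤ b) (hK : 1 ≤ K) (hC3 : 0 < C3) (hM : 0 ≤ Mr) (hX0 : 0 ≤ X) (hX : X ≤ 3 * K * Mr * l)
    (hW : 1 ≤ W) (hE0 : 0 ≤ E) (hE : E ≤ Real.exp C1 ^ (J + 1)) (hT0 : 0 ≤ T)
    (hTq : Real.exp C1 * T * (36 * C3 * y ^ 2 / l) ≤ Real.exp (-1)) (hq0 : 0 ≤ q)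
    (hq : q ≤ 36 * C3 * y ^ 2 / l) (hr0 : 0 ≤ r) (hr : r ≤ 2 * l) (hJ : 10 * y ≤ (J : ℝ) + 1)
    (hmain : 31104 * b * K * Real.exp C1 * Real.exp 1 * C3 ^ 2 * y ^ 4 ≤ l ^ 6) :
    W * (b * E * (T ^ J * r)) * (2 * (X / W) * q ^ (J + 2)) ≤ Mr / (2 * l ^ 4) := by
  have hl0 : 0 < l := by linarith
  have hW0 : 0 < W := by linarith
  have hec : 0 < Real.exp C1 := Real.exp_pos _
  set Q : ℝ := 36 * C3 * y ^ 2 / l with hQ
  have hQ0 : 0 ≤ Q := by rw [hQ]; positivity
  have e1 : W * (b * E * (T ^ J * r)) * (2 * (X / W) * q ^ (J + 2)) =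
      2 * b * X * r * (E * T ^ J * q ^ (J + 2)) := by
    field_simp
  rw [e1]
  have h1 : E * T ^ J * q ^ (J + 2) ≤ Real.exp C1 ^ (J + 1) * T ^ J * Q ^ (J + 2) := by
    gcongr
  have h2 : Real.exp C1 ^ (J + 1) * T ^ J * Q ^ (J + 2) = Real.exp C1 * Q ^ 2 * (Real.exp C1 * T * Q) ^ J := by
    rw [mul_pow, mul_pow]; ring
  have h3 : (Real.exp C1 * T * Q) ^ J ≤ Real.exp 1 / l ^ 10 := by
    have h31 : (Real.exp C1 * T * Q) ^ J ≤ Real.exp (-1) ^ J := by
      apply pow_le_pow_left₀ _ hTq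
      positivity
    have h32 : Real.exp (-1) ^ J = Real.exp (-(J : ℝ)) := by
      rw [← Real.exp_nat_mul]; ring_nf
    have h33 : Real.exp (-(J : ℝ)) ≤ Real.exp (1 - 10 * y) := by
      apply Real.exp_le_exp.mpr; linarith
    have h34 : Real.exp (1 - 10 * y) = Real.exp 1 / l ^ 10 := by
      rw [Real.exp_sub]
      congr 1
      rw [hy, show (10 : ℝ) * Real.log l = ((10 : ℕ) : ℝ) * Real.log l by norm_num, Real.exp_nat_mul,
        Real.exp_log hl0]
    rw [h32] at h31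
    linarith
  have h4 : 2 * b * X * r * (E * T ^ J * q ^ (J + 2)) ≤
      2 * b * (3 * K * Mr * l) * (2 * l) * (Real.exp C1 * Q ^ 2 * (Real.exp 1 / l ^ 10)) := by
    have h41 : E * T ^ J * q ^ (J + 2) ≤ Real.exp C1 * Q ^ 2 * (Real.exp 1 / l ^ 10) := by
      rw [h2] at h1
      refine h1.trans ?_
      gcongr
    gcongr
  refine h4.trans ?_
  have h5 : 2 * b * (3 * K * Mr * l) * (2 * l) * (Real.exp C1 * Q ^ 2 * (Real.exp 1 / l ^ 10)) =
      Mr * (31104 * b * K * Real.exp C1 * Real.exp 1 * C3 ^ 2 * y ^ 4) / (2 * l ^ 10) := by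
    rw [hQ]; field_simp; ring
  rw [h5]
  rw [div_le_div_iff₀ (by positivity) (by positivity)]
  calc Mr * (31104 * b * K * Real.exp C1 * Real.exp 1 * C3 ^ 2 * y ^ 4) * (2 * l ^ 4)
      ≤ Mr * l ^ 6 * (2 * l ^ 4) := by gcongr
    _ = Mr * (2 * l ^ 10) := by ring

/-- the error part -/
theorem upper_err {l y b K C1 C7 X W T E r : ℝ} {J : ℕ} (hl : 1 ≤ l) (hy : y = Real.log l)
    (hb : 1 ≤ b) (hK : 1 ≤ K) (hC7 : 1 ≤ C7) (hC1 : 0 ≤ C1) (hX0 : 0 ≤ X) (hX : X ≤ 3 * K * Real.exp l * l)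
    (hW : 1 ≤ W) (hW2 : W ≤ Real.exp (l / 20)) (hE0 : 0 ≤ E) (hE : E ≤ Real.exp C1 ^ (J + 1)) (hT0 : 0 ≤ T)
    (hT : T ≤ C7 * l) (hr0 : 0 ≤ r) (hr : r ≤ 2 * l) (hJ : (J : ℝ) + 1 ≤ 12 * y)
    (h7 : 3 * K * l ≤ Real.exp (l / 10)) (h8 : 2 * b * l ≤ Real.exp (l / 20))
    (h9 : 12 * y * (C1 + Real.log C7 + y) ≤ l / 10) (h10 : 4 * l ^ 4 ≤ Real.exp (l / 4)) :
    W * (b * E * (T ^ J * r)) * X ^ ((1 : ℝ) / 2) + X ^ ((1 : ℝ) / 2) ≤ Real.exp l / (2 * l ^ 4) := by
  have hl0 : 0 < l := by linarith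
  have hec : 0 < Real.exp C1 := Real.exp_pos _
  have hy0 : 0 ≤ y := by rw [hy]; exact Real.log_nonneg hl
  have hC70 : 0 < C7 := by linarith
  have hlC7 : 0 ≤ Real.log C7 := Real.log_nonneg hC7
  have hCl : 1 ≤ C7 * l := by nlinarith
  have hET : E * T ^ J ≤ Real.exp (l / 10) := by
    have a1 : E * T ^ J ≤ Real.exp C1 ^ (J + 1) * (C7 * l) ^ (J + 1) := by
      have : T ^ J ≤ (C7 * l) ^ (J + 1) := by
        calc T ^ J ≤ (C7 * l) ^ J := pow_le_pow_left₀ hT0 hT J
          _ ≤ (C7 * l) ^ (J + 1) := pow_le_pow_right₀ hCl (by omega)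
      gcongr
    have a2 : Real.exp C1 ^ (J + 1) * (C7 * l) ^ (J + 1) =
        Real.exp (((J : ℝ) + 1) * (C1 + Real.log C7 + y)) := by
      have : C7 * l = Real.exp (Real.log C7 + y) := by
        rw [Real.exp_add, Real.exp_log hC70, hy, Real.exp_log hl0]
      rw [this, ← mul_pow, ← Real.exp_add, ← Real.exp_nat_mul]
      congr 1
      push_cast
      ring
    rw [a2] at a1
    refine a1.trans (Real.exp_le_exp.mpr ?_)
    refine le_trans ?_ h9
    apply mul_le_mul_of_nonneg_right hJ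
    positivity
  have hXh : X ^ ((1 : ℝ) / 2) ≤ Real.exp (11 * l / 20) := by
    have b1 : X ≤ Real.exp (11 * l / 10) := by
      calc X ≤ 3 * K * Real.exp l * l := hX
        _ = (3 * K * l) * Real.exp l := by ring
        _ ≤ Real.exp (l / 10) * Real.exp l := by gcongr
        _ = Real.exp (11 * l / 10) := by rw [← Real.exp_add]; congr 1; ring
    calc X ^ ((1 : ℝ) / 2) ≤ (Real.exp (11 * l / 10)) ^ ((1 : ℝ) / 2) :=
          Real.rpow_le_rpow hX0 b1 (by norm_num)
      _ = Real.exp (11 * l / 20) := by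
          rw [← Real.exp_mul]; congr 1; ring
  have hbig : W * (b * E * (T ^ J * r)) ≤ Real.exp (l / 5) := by
    have c1 : W * (b * E * (T ^ J * r)) = W * ((E * T ^ J) * (b * r)) := by ring
    rw [c1]
    have c2 : b * r ≤ Real.exp (l / 20) := by
      calc b * r ≤ b * (2 * l) := by gcongr
        _ = 2 * b * l := by ring
        _ ≤ _ := h8
    calc W * ((E * T ^ J) * (b * r)) ≤ Real.exp (l / 20) * (Real.exp (l / 10) * Real.exp (l / 20)) := by
          gcongr
      _ = Real.exp (l / 5) := by rw [← Real.exp_add, ← Real.exp_add]; congr 1; ring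
  have hone : 1 ≤ Real.exp (l / 5) := Real.one_le_exp (by positivity)
  have hXh0 : 0 ≤ X ^ ((1 : ℝ) / 2) := Real.rpow_nonneg hX0 _
  calc W * (b * E * (T ^ J * r)) * X ^ ((1 : ℝ) / 2) + X ^ ((1 : ℝ) / 2)
      ≤ Real.exp (l / 5) * Real.exp (11 * l / 20) + Real.exp (l / 5) * Real.exp (11 * l / 20) := by
        have d1 : W * (b * E * (T ^ J * r)) * X ^ ((1 : ℝ) / 2) ≤ Real.exp (l / 5) * Real.exp (11 * l / 20) := by
          gcongr
        have d2 : X ^ ((1 : ℝ) / 2) ≤ Real.exp (l / 5) * Real.exp (11 * l / 20) := by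
          calc X ^ ((1 : ℝ) / 2) = 1 * X ^ ((1 : ℝ) / 2) := by ring
            _ ≤ _ := by gcongr
        linarith
    _ = 2 * Real.exp (3 * l / 4) := by
        rw [← Real.exp_add]
        have : l / 5 + 11 * l / 20 = 3 * l / 4 := by ring
        rw [this]; ring
    _ ≤ Real.exp l / (2 * l ^ 4) := by
        rw [le_div_iff₀ (by positivity)]
        calc 2 * Real.exp (3 * l / 4) * (2 * l ^ 4) = (4 * l ^ 4) * Real.exp (3 * l / 4) := by ring
          _ ≤ Real.exp (l / 4) * Real.exp (3 * l / 4) := by gcongr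
          _ = Real.exp l := by rw [← Real.exp_add]; congr 1; ring

theorem upper_WT_le {l : ℝ} (hl : 0 ≤ l) (h12 : Real.log 4 * l ^ ((1 : ℝ) / 8) ≤ l / 20) :
    ((WT l : ℕ) : ℝ) ≤ Real.exp (l / 20) := by
  have h0 : 0 ≤ l ^ ((1 : ℝ) / 8) := Real.rpow_nonneg hl _
  have h1 : WT l ≤ 4 ^ ⌊l ^ ((1 : ℝ) / 8)⌋₊ := primorial_le_four_pow _
  have h2 : ((WT l : ℕ) : ℝ) ≤ (4 : ℝ) ^ ⌊l ^ ((1 : ℝ) / 8)⌋₊ := by exact_mod_cast h1
  refine h2.trans ?_
  rw [← Real.rpow_natCast, Real.rpow_def_of_pos (by norm_num)]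
  apply Real.exp_le_exp.mpr
  refine le_trans ?_ h12
  exact mul_le_mul_of_nonneg_left (Nat.floor_le h0) (Real.log_nonneg (by norm_num))

theorem upper (C1 : ℝ) (hC1 : 1 ≤ C1) : ∃ A : ℝ, 0 < A ∧ ∀ b : ℕ, 1 ≤ b → ∀ᶠ M : ℕ in atTop, ∀ t : ℕ, 2 ≤ t →
    (t : ℝ) ≤ (Real.log M) ^ 2 → A * Real.log (Real.log M) ≤ t → ∀ r : ℕ,
      (#(NN M (II M) t r b ⌊C1 * II M * Real.log M⌋₊) : ℝ) ≤ M / (Real.log M) ^ 4 := by
  obtain ⟨K, hK1, hP⟩ := P_le
  obtain ⟨C3, hC3, hbig⟩ := big_sieve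
  obtain ⟨C6, hC6, hth⟩ := th_WT
  refine ⟨36 * C3 * C6 * Real.exp (C1 + 1), by positivity, fun b hb => ?_⟩
  have hbR : (1 : ℝ) ≤ b := by exact_mod_cast hb
  have tl : Tendsto (fun M : ℕ => Real.log (M : ℝ)) atTop atTop :=
    Real.tendsto_log_atTop.comp tendsto_natCast_atTop_atTop
  have tX : Tendsto (fun M : ℕ => ⌈2 * K * (M : ℝ) * Real.log M⌉₊) atTop atTop := by
    apply tendsto_atTop_mono' atTop _ tendsto_id
    filter_upwards [tl.eventually (eventually_ge_atTop 1)] with M hM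
    have : (M : ℝ) ≤ ⌈2 * K * (M : ℝ) * Real.log M⌉₊ := by
      refine le_trans ?_ (Nat.le_ceil _)
      have h1 : (1 : ℝ) ≤ 2 * K * Real.log M := by nlinarith
      have h0 : (0 : ℝ) ≤ M := Nat.cast_nonneg M
      calc (M : ℝ) = M * 1 := by ring
        _ ≤ M * (2 * K * Real.log M) := by gcongr
        _ = _ := by ring
    exact_mod_cast this
  have f0 : ∀ᶠ l : ℝ in atTop, 50 ≤ Real.log l := Real.tendsto_log_atTop.eventually (eventually_ge_atTop 50)
  have f8 : ∀ᶠ l : ℝ in atTop, 2 * (b : ℝ) * l ≤ Real.exp (l / 20) := by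
    filter_upwards [upper_ev_exp 1 (2 * (b : ℝ)) (s := 1 / 20) (by norm_num)] with l hl
    have e : (1 : ℝ) / 20 * l = l / 20 := by ring
    rw [e, pow_one] at hl
    exact hl
  have f7 : ∀ᶠ l : ℝ in atTop, 3 * K * l ≤ Real.exp (l / 10) := by
    filter_upwards [upper_ev_exp 1 (3 * K) (s := 1 / 10) (by norm_num)] with l hl
    have e : (1 : ℝ) / 10 * l = l / 10 := by ring
    rw [e, pow_one] at hl
    exact hl
  have f10 : ∀ᶠ l : ℝ in atTop, 4 * l ^ 4 ≤ Real.exp (l / 4) := by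
    filter_upwards [upper_ev_exp 4 4 (s := 1 / 4) (by norm_num)] with l hl
    have e : (1 : ℝ) / 4 * l = l / 4 := by ring
    rw [e] at hl
    exact hl
  have f11 : ∀ᶠ l : ℝ in atTop, 20 * l ≤ Real.exp l := by
    filter_upwards [upper_ev_exp 1 20 (s := 1) (by norm_num)] with l hl
    rw [one_mul, pow_one] at hl
    exact hl
  have f12 : ∀ᶠ l : ℝ in atTop, Real.log 4 * l ^ ((1 : ℝ) / 8) ≤ l / 20 := by
    filter_upwards [(tendsto_rpow_atTop (show (0 : ℝ) < 7 / 8 by norm_num)).eventually_ge_atTop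
      (20 * Real.log 4), eventually_gt_atTop 0] with l hl h1
    have e : l = l ^ ((1 : ℝ) / 8) * l ^ ((7 : ℝ) / 8) := by
      rw [← Real.rpow_add h1]; norm_num
    have h0 : 0 ≤ l ^ ((1 : ℝ) / 8) := Real.rpow_nonneg h1.le _
    have := mul_le_mul_of_nonneg_left hl h0
    rw [← e] at this
    linarith
  have f6 : ∀ᶠ l : ℝ in atTop,
      31104 * (b : ℝ) * K * Real.exp C1 * Real.exp 1 * C3 ^ 2 * Real.log l ^ 4 ≤ l ^ 6 := by
    filter_upwards [upper_ev_log1 4 (31104 * (b : ℝ) * K * Real.exp C1 * Real.exp 1 * C3 ^ 2),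
      eventually_ge_atTop 1] with l hl h1
    refine hl.trans ?_
    calc l = l ^ 1 := (pow_one l).symm
      _ ≤ l ^ 6 := pow_le_pow_right₀ h1 (by norm_num)
  have f9 : ∀ᶠ l : ℝ in atTop, 12 * Real.log l * (C1 + Real.log (2 + C6) + Real.log l) ≤ l / 10 := by
    have hlC : 0 ≤ Real.log (2 + C6) := Real.log_nonneg (by linarith)
    filter_upwards [upper_ev_log1 2 (120 * (C1 + Real.log (2 + C6) + 1)), f0] with l hl h1
    have h2 : 12 * Real.log l * (C1 + Real.log (2 + C6) + Real.log l) ≤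
        12 * (C1 + Real.log (2 + C6) + 1) * Real.log l ^ 2 := by
      nlinarith [mul_nonneg (by linarith : (0 : ℝ) ≤ C1 + Real.log (2 + C6)) (by linarith : (0 : ℝ) ≤ Real.log l),
        mul_nonneg (mul_nonneg (by linarith : (0 : ℝ) ≤ C1 + Real.log (2 + C6)) (by linarith : (0 : ℝ) ≤ Real.log l))
          (by linarith : (0 : ℝ) ≤ Real.log l - 1)]
    linarith
  filter_upwards [tl.eventually (eventually_ge_atTop 1), tl.eventually f0,
    tl.eventually (upper_ev_log1 1 (12 * C1)), tl.eventually (upper_ev_log1 1 12),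
    tl.eventually (upper_ev_log1 2 10380),
    tl.eventually (upper_ev_log 2 (72 * Real.exp C1 * C3 * Real.exp 1) (s := 1 / 2) (by norm_num)),
    tl.eventually f6, tl.eventually f7, tl.eventually f8, tl.eventually f9, tl.eventually f10,
    tl.eventually f11, tl.eventually f12, tl.eventually hth, tX.eventually hbig] with
    M h1 hy50 hf2 hf3 hf4 hf5 hf6 hf7 hf8 hf9 hf10 hf11 hf12 hthM hbigM
  intro t ht2 htl htA r
  set l : ℝ := Real.log M with hldef
  set y : ℝ := Real.log l with hydef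
  rw [pow_one] at hf2 hf3
  have hl0 : 0 < l := by linarith
  have hy0 : 0 < y := by linarith
  have hM0 : (0 : ℝ) < M := by
    rcases Nat.eq_zero_or_pos M with h | h
    · exfalso
      rw [hldef, h] at h1
      simp at h1
      linarith
    · exact_mod_cast h
  have hMexp : (M : ℝ) = Real.exp l := by rw [hldef, Real.exp_log hM0]
  have hey : l = Real.exp y := by rw [hydef, Real.exp_log hl0]
  have htR : (2 : ℝ) ≤ t := by exact_mod_cast ht2
  -- the number of gaps
  have hI1 : 10 * y ≤ (II M : ℝ) := Nat.le_ceil _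
  have hI2 : (II M : ℝ) ≤ 10 * y + 1 := (Nat.ceil_lt_add_one (by positivity)).le
  have hI3 : 1 ≤ II M := by
    have : (1 : ℝ) ≤ II M := by linarith
    exact_mod_cast this
  obtain ⟨J, hJ⟩ : ∃ J, II M = J + 1 := ⟨II M - 1, by omega⟩
  have hJR : (II M : ℝ) = (J : ℝ) + 1 := by rw [hJ]; push_cast; ring
  have hJ1 : 10 * y ≤ (J : ℝ) + 1 := by linarith
  have hJ2 : (J : ℝ) + 1 ≤ 12 * y := by linarith
  -- the sieving ranges
  set X : ℕ := ⌈2 * K * (M : ℝ) * l⌉₊ with hXdef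
  set z : ℕ := ⌈l ^ 2⌉₊ with hzdef
  set κ : ℕ := II M + 1 with hκdef
  have hκR : (κ : ℝ) ≤ 12 * y := by rw [hκdef]; push_cast; linarith
  have hKMl : 1 ≤ K * M * l := by
    have hM1 : (1 : ℝ) ≤ M := by rw [hMexp]; exact Real.one_le_exp hl0.le
    have := mul_le_mul hK1 hM1 (by norm_num) (by linarith)
    nlinarith
  have hX1 : 2 * K * M * l ≤ (X : ℝ) := Nat.le_ceil _
  have hX2 : (X : ℝ) ≤ 3 * K * M * l := by
    have : (X : ℝ) ≤ 2 * K * M * l + 1 := (Nat.ceil_lt_add_one (by positivity)).le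
    linarith
  have hXM : (M : ℝ) ≤ X := by
    refine le_trans ?_ hX1
    have h1' : (1 : ℝ) ≤ 2 * K * l := by nlinarith
    calc (M : ℝ) = M * 1 := by ring
      _ ≤ M * (2 * K * l) := by gcongr
      _ = _ := by ring
  have hX0 : (0 : ℝ) < X := lt_of_lt_of_le hM0 hXM
  have hlogX : l ≤ Real.log X := Real.log_le_log hM0 hXM
  have hz1 : l ^ 2 ≤ (z : ℝ) := Nat.le_ceil _
  have hl50 : 50 ≤ l := by
    have := Real.add_one_le_exp y
    rw [← hey] at this
    linarith
  have hz2 : (z : ℝ) ≤ l ^ 3 := by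
    have : (z : ℝ) ≤ l ^ 2 + 1 := (Nat.ceil_lt_add_one (by positivity)).le
    nlinarith [sq_nonneg l, mul_nonneg (sq_nonneg l) (by linarith : (0 : ℝ) ≤ l - 2)]
  have hz0 : (0 : ℝ) < z := lt_of_lt_of_le (by positivity) hz1
  have hlogz1 : 2 * y ≤ Real.log z := by
    have := Real.log_le_log (by positivity) hz1
    rw [Real.log_pow] at this
    exact_mod_cast this
  have hlogz2 : Real.log z ≤ 3 * y := by
    have := Real.log_le_log hz0 hz2
    rw [Real.log_pow] at this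
    exact_mod_cast this
  have hκz : κ ^ 2 ≤ z := by
    have : ((κ : ℝ)) ^ 2 ≤ z := by
      refine le_trans ?_ hz1
      have : (κ : ℝ) ≤ l := hκR.trans hf3
      gcongr
    exact_mod_cast this
  have hzy : z ≤ yy X κ := by
    apply Nat.le_floor
    have e0 : 0 < 4 * (72 * (κ : ℝ) + 5) := by positivity
    have e1 : 3 * y ≤ l * (1 / (4 * (72 * (κ : ℝ) + 5))) := by
      rw [mul_one_div, le_div_iff₀ e0]
      have : 4 * (72 * (κ : ℝ) + 5) ≤ 3460 * y := by nlinarith
      calc 3 * y * (4 * (72 * (κ : ℝ) + 5)) ≤ 3 * y * (3460 * y) := by gcongr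
        _ = 10380 * y ^ 2 := by ring
        _ ≤ l := hf4
    calc (z : ℝ) ≤ l ^ 3 := hz2
      _ = Real.exp (3 * y) := by
          rw [hey, ← Real.exp_nat_mul]; norm_num
      _ ≤ Real.exp (l * (1 / (4 * (72 * (κ : ℝ) + 5)))) := Real.exp_le_exp.mpr e1
      _ = (M : ℝ) ^ (1 / (4 * (72 * (κ : ℝ) + 5))) := by
          rw [hMexp, ← Real.exp_mul]
      _ ≤ (X : ℝ) ^ (1 / (4 * (72 * (κ : ℝ) + 5))) := Real.rpow_le_rpow hM0.le hXM (by positivity)
  set L : ℕ := ⌊C1 * II M * l⌋₊ with hLdef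
  have hL1 : (L : ℝ) ≤ C1 * II M * l := Nat.floor_le (by positivity)
  have hLz : L ≤ z := by
    have : (L : ℝ) ≤ z := by
      refine hL1.trans (le_trans ?_ hz1)
      have : C1 * (II M : ℝ) ≤ l := by
        calc C1 * (II M : ℝ) ≤ C1 * (12 * y) := by
              apply mul_le_mul_of_nonneg_left _ (by linarith)
              linarith
          _ = 12 * C1 * y := by ring
          _ ≤ l := hf2
      calc C1 * (II M : ℝ) * l ≤ l * l := by gcongr
        _ = l ^ 2 := by ring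
    exact_mod_cast this
  have hPX : P (M + II M) ≤ X := by
    have e0 := hP (M + II M)
    have e1 : (P (M + II M) : ℝ) ≤ X := by
      refine e0.trans (le_trans ?_ hX1)
      push_cast
      have a1 : (M : ℝ) + II M + 1 ≤ 11 / 10 * M := by
        have : 20 * l ≤ (M : ℝ) := by rw [hMexp]; exact hf11
        have : (II M : ℝ) ≤ l := by linarith
        linarith
      have a2 : Real.log ((M : ℝ) + II M + 2) ≤ 3 / 2 * l := by
        have b1 : (M : ℝ) + II M + 2 ≤ 3 * M := by linarith [a1, hl50, (by rw [hMexp]; exact hf11 : 20 * l ≤ (M : ℝ))]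
        have b2 : Real.log ((M : ℝ) + II M + 2) ≤ Real.log (3 * M) := Real.log_le_log (by positivity) b1
        rw [Real.log_mul (by norm_num) hM0.ne'] at b2
        have b3 : Real.log 3 ≤ 3 - 1 := Real.log_le_sub_one_of_pos (by norm_num)
        linarith
      have a0 : 0 ≤ Real.log ((M : ℝ) + II M + 2) := by
        apply Real.log_nonneg
        have : (0 : ℝ) ≤ II M := Nat.cast_nonneg _
        linarith
      calc K * (((M : ℝ) + II M + 1) * Real.log ((M : ℝ) + II M + 2)) ≤ K * ((11 / 10 * M) * (3 / 2 * l)) := by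
            gcongr
        _ = 33 / 20 * (K * M * l) := by ring
        _ ≤ 2 * K * M * l := by nlinarith
    exact_mod_cast e1
  -- the general estimate
  have gen : ∀ (W : ℕ) (T : ℝ), 1 ≤ W → (W : ℝ) ≤ Real.exp (l / 20) → (∀ p : ℕ, p.Prime → p ∣ W → p ≤ z) →
      0 ≤ T → Th W t l T → T ≤ (2 + C6) * l → Real.exp C1 * T * (36 * C3 * y ^ 2 / l) ≤ Real.exp (-1) →
      (#(NN M (II M) t r b L) : ℝ) ≤ M / l ^ 4 := by
    intro W T hW hW2 hWz hT0 hTh hT hTq
    have hWR : (1 : ℝ) ≤ W := by exact_mod_cast hW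
    set q : ℝ := C3 * κ * (Real.log z / Real.log X) with hqdef
    have hlogX0 : 0 < Real.log X := by linarith
    have hlogz0 : 0 ≤ Real.log z := by linarith
    have hq0 : 0 ≤ q := by positivity
    have hq : q ≤ 36 * C3 * y ^ 2 / l := by
      calc q ≤ C3 * (12 * y) * (3 * y / l) := by
            rw [hqdef]; gcongr
        _ = 36 * C3 * y ^ 2 / l := by ring
    have hBq := fun (c : ℕ) (E : Finset ℕ) (hE : #E = κ) (hE2 : ∀ e ∈ E, e ≤ z) =>
      hbigM κ z W c E (by omega) hκz (by linarith) hzy hE hE2 hW hWz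
    have key := nn_le (M := M) (I := II M) (t := t) (r := r) (b := b) (W := W) (L := L) (X := X) (z := z)
      (lam := l) (Θ := T) (B := 2 * ((X : ℝ) / W) * q ^ κ + (X : ℝ) ^ ((1 : ℝ) / 2)) hI3 ht2 hb hl0 hT0 hTh
      hPX hzy hLz hW hWz (by positivity) (fun c E hE hE2 => hBq c E hE hE2)
    have hJsub : II M - 1 = J := by omega
    have hκJ : κ = J + 2 := by omega
    rw [hJsub] at key
    set E : ℝ := Real.exp (L / l) with hEdef
    have hE0 : 0 ≤ E := (Real.exp_pos _).le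
    have hE : E ≤ Real.exp C1 ^ (J + 1) := by
      rw [← Real.exp_nat_mul]
      apply Real.exp_le_exp.mpr
      rw [div_le_iff₀ hl0]
      push_cast
      calc (L : ℝ) ≤ C1 * II M * l := hL1
        _ = ((J : ℝ) + 1) * C1 * l := by rw [hJR]; ring
    set rr : ℝ := 1 + l / t with hrrdef
    have hrr0 : 0 ≤ rr := by positivity
    have hrr : rr ≤ 2 * l := by
      have : l / t ≤ l := by
        apply div_le_self hl0.le
        linarith
      linarith
    have hmain := upper_main (l := l) (y := y) (b := b) (K := K) (C1 := C1) (C3 := C3) (Mr := M) (X := X) (W := W)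
      (T := T) (E := E) (q := q) (r := rr) (J := J) h1 hydef hbR hK1 hC3 hM0.le hX0.le hX2 hWR hE0 hE hT0 hTq
      hq0 hq hrr0 hrr hJ1 hf6
    have herr := upper_err (l := l) (y := y) (b := b) (K := K) (C1 := C1) (C7 := 2 + C6) (X := X) (W := W)
      (T := T) (E := E) (r := rr) (J := J) h1 hydef hbR hK1 (by linarith) (by linarith) hX0.le
      (by rw [← hMexp]; exact hX2) hWR hW2 hE0 hE hT0 hT hrr0 hrr hJ2 hf7 hf8 hf9 hf10
    have hyyX : (yy X κ : ℝ) ≤ (X : ℝ) ^ ((1 : ℝ) / 2) := by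
      have e0 : (0 : ℝ) ≤ (X : ℝ) ^ (1 / (4 * (72 * (κ : ℝ) + 5))) := by positivity
      refine (Nat.floor_le e0).trans ?_
      apply Real.rpow_le_rpow_of_exponent_le
      · have : (1 : ℝ) ≤ M := by rw [hMexp]; exact Real.one_le_exp hl0.le
        linarith
      · apply one_div_le_one_div_of_le (by norm_num)
        have : (0 : ℝ) ≤ κ := Nat.cast_nonneg _
        linarith
    rw [← hMexp] at herr
    rw [show II M + 1 = κ from rfl] at key
    rw [hκJ] at key hyyX
    have hfin : (M : ℝ) / (2 * l ^ 4) + (M : ℝ) / (2 * l ^ 4) = M / l ^ 4 := by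
      field_simp; ring
    have hexpand : (W : ℝ) * (b * E * (T ^ J * rr)) * (2 * ((X : ℝ) / W) * q ^ (J + 2) + (X : ℝ) ^ ((1 : ℝ) / 2)) =
        (W : ℝ) * (b * E * (T ^ J * rr)) * (2 * ((X : ℝ) / W) * q ^ (J + 2)) +
        (W : ℝ) * (b * E * (T ^ J * rr)) * (X : ℝ) ^ ((1 : ℝ) / 2) := by ring
    rw [hexpand] at key
    linarith
  rcases le_or_gt (t : ℝ) (l ^ ((1 : ℝ) / 2)) with hcase | hcase
  · -- small t
    have hWT0 : 1 ≤ WT l := primorial_pos _
    have hylt : (0 : ℝ) < t * y := by positivity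
    refine gen (WT l) (C6 * (l / (t * y))) hWT0 (upper_WT_le hl0.le hf12) ?_ (by positivity) ?_ ?_ ?_
    · intro p hp hpd
      have hp2 : p ≤ ⌊l ^ ((1 : ℝ) / 8)⌋₊ := (hp.dvd_primorial_iff).mp hpd
      have : (p : ℝ) ≤ z := by
        have a1 : (p : ℝ) ≤ l ^ ((1 : ℝ) / 8) := by
          refine le_trans ?_ (Nat.floor_le (Real.rpow_nonneg hl0.le _))
          exact_mod_cast hp2
        have a2 : l ^ ((1 : ℝ) / 8) ≤ l ^ (2 : ℝ) := Real.rpow_le_rpow_of_exponent_le h1 (by norm_num)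
        have a3 : l ^ (2 : ℝ) = l ^ (2 : ℕ) := Real.rpow_two l
        calc (p : ℝ) ≤ l ^ ((1 : ℝ) / 8) := a1
          _ ≤ l ^ (2 : ℝ) := a2
          _ = l ^ (2 : ℕ) := a3
          _ ≤ z := hz1
      exact_mod_cast this
    · exact hthM t (by omega) hcase
    · have : l / (t * y) ≤ l := by
        apply div_le_self hl0.le
        nlinarith
      nlinarith
    · have hexp : Real.exp (-1) = Real.exp C1 / Real.exp (C1 + 1) := by
        rw [← Real.exp_sub]; congr 1; ring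
      have e1 : Real.exp C1 * (C6 * (l / (t * y))) * (36 * C3 * y ^ 2 / l) =
          Real.exp C1 * (36 * C3 * C6 * y / t) := by
        field_simp
      rw [e1, hexp, div_eq_mul_inv (Real.exp C1)]
      apply mul_le_mul_of_nonneg_left _ (Real.exp_pos _).le
      rw [← one_div, div_le_div_iff₀ (by positivity) (Real.exp_pos _)]
      linarith
  · -- large t
    refine gen 1 (1 + l / t) le_rfl ?_ ?_ (by positivity) (th_one (by omega) hl0) ?_ ?_
    · push_cast
      exact Real.one_le_exp (by positivity)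
    · intro p hp hpd
      exact absurd (Nat.dvd_one.mp hpd) hp.one_lt.ne'
    · have : l / t ≤ l := by
        apply div_le_self hl0.le
        linarith
      nlinarith
    · set s : ℝ := l ^ ((1 : ℝ) / 2) with hsdef
      have hs0 : 0 < s := Real.rpow_pos_of_pos hl0 _
      have hss : s * s = l := by
        rw [hsdef, ← Real.rpow_add hl0]; norm_num
      have hs1 : 1 ≤ s := by
        by_contra hcon
        push_neg at hcon
        nlinarith
      have hT : 1 + l / t ≤ 2 * s := by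
        have : l / t ≤ s := by
          rw [div_le_iff₀ (by linarith)]
          nlinarith
        linarith
      have hnn : 0 ≤ 36 * C3 * y ^ 2 / l := by positivity
      calc Real.exp C1 * (1 + l / t) * (36 * C3 * y ^ 2 / l) ≤ Real.exp C1 * (2 * s) * (36 * C3 * y ^ 2 / l) := by
            gcongr
        _ = (72 * Real.exp C1 * C3 * Real.exp 1 * y ^ 2) * (Real.exp (-1) / s) := by
            rw [← hss, Real.exp_neg]
            field_simp
            ring
        _ ≤ s * (Real.exp (-1) / s) := by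
            apply mul_le_mul_of_nonneg_right _ (by positivity)
            exact hf5
        _ = Real.exp (-1) := by field_simp

end Pool.Agent.H47.IR
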