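import Pool.Agent.H47.IR.Seq
import Pool.Agent.H47.IR.CaseTwo
import Pool.Agent.H47.IR.Lower
import Pool.Agent.H47.IR.Upper

/-!
JOB IR-10. The theorem.
-/

set_option autoImplicit false

open Finset Filter Topology

namespace Pool.Agent.H47.IR

lemma final_tendsto_log : Tendsto (fun M : ℕ => Real.log (M : ℝ)) atTop atTop :=
  Real.tendsto_log_atTop.comp tendsto_natCast_atTop_atTop

lemma final_tendsto_loglog : Tendsto (fun M : ℕ => Real.log (Real.log (M : ℝ))) atTop atTop :=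
  Real.tendsto_log_atTop.comp final_tendsto_log

lemma final_loglog : ∀ᶠ M : ℕ in atTop, ∀ n : ℕ, M / 2 ≤ n →
    Real.log (Real.log M) ≤ 2 * Real.log (Real.log n) := by
  filter_upwards [eventually_ge_atTop 6, final_tendsto_log.eventually_ge_atTop 4] with M h6 h4 n hn
  have h3 : 3 ≤ M / 2 := by omega
  have hM : M ≤ 2 * (M / 2) + 1 := by omega
  have hnn : M ≤ n * n := by nlinarith
  have hM0 : (0 : ℝ) < M := by
    have : 0 < M := by omega
    exact_mod_cast this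
  have hn0 : (0 : ℝ) < n := by
    have : 0 < n := by omega
    exact_mod_cast this
  have hlog : Real.log (M : ℝ) ≤ 2 * Real.log (n : ℝ) := by
    have h5 : Real.log (M : ℝ) ≤ Real.log ((n : ℝ) * n) :=
      Real.log_le_log hM0 (by exact_mod_cast hnn)
    rw [Real.log_mul hn0.ne' hn0.ne'] at h5
    linarith
  have hn2 : 2 ≤ Real.log (n : ℝ) := by linarith
  have hsq : Real.log (M : ℝ) ≤ Real.log (n : ℝ) ^ 2 := by nlinarith
  calc Real.log (Real.log M) ≤ Real.log (Real.log (n : ℝ) ^ 2) :=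
        Real.log_le_log (by linarith) hsq
    _ = 2 * Real.log (Real.log n) := by
        rw [Real.log_pow]
        norm_num

lemma final_II : ∀ᶠ M : ℕ in atTop, 1 ≤ II M ∧ (II M : ℝ) ≤ Real.log M := by
  have h1 : ∀ᶠ y : ℝ in atTop, Real.log y ≤ (1 / 20) * y := by
    have h := Real.isLittleO_log_id_atTop.bound (show (0 : ℝ) < 1 / 20 by norm_num)
    filter_upwards [h, eventually_ge_atTop (1 : ℝ)] with y hy hy1
    rw [Real.norm_of_nonneg (Real.log_nonneg hy1), id, Real.norm_of_nonneg (by linarith)] at hy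
    exact hy
  filter_upwards [final_tendsto_loglog.eventually_gt_atTop 0, final_tendsto_log.eventually h1,
    final_tendsto_log.eventually_ge_atTop 2] with M hM0 hM1 hM2
  unfold II
  constructor
  · rw [Nat.one_le_ceil_iff]
    linarith
  · have h3 := Nat.ceil_lt_add_one (show (0 : ℝ) ≤ 10 * Real.log (Real.log M) by linarith)
    linarith

lemma final_small {C2 : ℝ} (hC2 : 0 < C2) : ∀ᶠ M : ℕ in atTop,
    ((Real.log M) ^ 2 + 1) * ((C2 * Real.log M + 1) * (M / (Real.log M) ^ 4)) < (M : ℝ) / 8 := by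
  filter_upwards [final_tendsto_log.eventually_gt_atTop (16 * (C2 + 1)),
    eventually_ge_atTop 1] with M hM hM1
  set L := Real.log (M : ℝ) with hL
  have hM0 : (0 : ℝ) < M := by exact_mod_cast hM1
  have hL1 : 1 < L := by linarith
  have hL0 : 0 < L := by linarith
  have h1 : (L ^ 2 + 1) ≤ 2 * L ^ 2 := by nlinarith
  have h2 : C2 * L + 1 ≤ (C2 + 1) * L := by nlinarith
  have h3 : 0 < (M : ℝ) / L ^ 4 := by positivity
  have h4 : (L ^ 2 + 1) * ((C2 * L + 1) * (M / L ^ 4)) ≤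
      2 * L ^ 2 * ((C2 + 1) * L * (M / L ^ 4)) := by
    refine mul_le_mul h1 (mul_le_mul_of_nonneg_right h2 h3.le) ?_ (by positivity)
    positivity
  have h5 : 2 * L ^ 2 * ((C2 + 1) * L * (M / L ^ 4)) = M * (2 * (C2 + 1)) / L := by
    field_simp
  rw [h5] at h4
  refine lt_of_le_of_lt h4 ?_
  rw [div_lt_div_iff₀ hL0 (by norm_num)]
  nlinarith

theorem main : ∃ A : ℝ, 0 < A ∧ ∀ a : ℕ → ℕ, Monotone a → (∀ n, 1 ≤ a n) →
    (∀ᶠ n : ℕ in atTop, A * Real.log (Real.log n) ≤ a n) →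
    (∀ ε : ℝ, 0 < ε → ∃ᶠ n : ℕ in atTop, (a n : ℝ) ≤ ε * Nat.nth Nat.Prime n) →
      Irrational (∑' n : ℕ, (Nat.nth Nat.Prime n : ℝ) / ∏ i ∈ range (n + 1), (a i : ℝ)) := by
  classical
  obtain ⟨C1, hC1, hlower⟩ := lower
  obtain ⟨A0, hA0, hupper⟩ := upper C1 hC1
  refine ⟨2 * A0, by positivity, ?_⟩
  intro a hmono h1 hphi hlim
  by_contra hirr
  have h2 : ∀ᶠ n in atTop, 2 ≤ a n := by
    filter_upwards [hphi, (final_tendsto_loglog.const_mul_atTop
      (show (0 : ℝ) < 2 * A0 by positivity)).eventually_gt_atTop 1] with n hn hn'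
    have h3 : (1 : ℝ) < a n := lt_of_lt_of_le hn' hn
    exact_mod_cast h3
  obtain ⟨b, C, c, hb, hC, hc⟩ := rat_seq h1 h2 hirr
  by_cases hbig : ∀ᶠ n : ℕ in atTop, (n : ℝ) / (Real.log n) ^ 3 < a n
  · exact case_two hmono hb hc hbig hlim
  have hfreq : ∃ᶠ n : ℕ in atTop, (a n : ℝ) ≤ (n : ℝ) / (Real.log n) ^ 3 := by
    rw [Filter.not_eventually] at hbig
    exact hbig.mono fun n hn => not_lt.1 hn
  obtain ⟨C2, hC2, hlow⟩ := hlower a b C c hmono h2 hb hc
  have hup := hupper b hb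
  obtain ⟨n0, hn0⟩ := eventually_atTop.1 (hphi.and h2)
  obtain ⟨M, haM, ⟨hlowM, hupM⟩, hII, hLL, hsmall, hMn0⟩ := (hfreq.and_eventually
    ((hlow.and hup).and (final_II.and (final_loglog.and ((final_small hC2).and
      (eventually_ge_atTop (2 * n0))))))).exists
  have hkey := hlowM haM (II M) hII.1 hII.2
  have hterm : ∀ t ∈ TT a M, ∀ r ∈ range (⌊C2 * Real.log M⌋₊ + 1),
      (#(NN M (II M) t r b ⌊C1 * II M * Real.log M⌋₊) : ℝ) ≤ M / (Real.log M) ^ 4 := by
    intro t ht r _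
    unfold TT at ht
    rw [mem_filter, mem_range] at ht
    obtain ⟨ht1, n, hn, hant⟩ := ht
    have hnn : n0 ≤ n := by omega
    obtain ⟨hp, h2n⟩ := hn0 n hnn
    rw [hant] at hp h2n
    refine hupM t h2n ?_ ?_ r
    · exact (Nat.le_floor_iff (by positivity)).1 (Nat.lt_succ_iff.1 ht1)
    · refine le_trans ?_ hp
      have h5 := hLL n hn
      nlinarith
  have hcardT : (#(TT a M) : ℝ) ≤ (Real.log M) ^ 2 + 1 := by
    have h5 : #(TT a M) ≤ ⌊(Real.log M) ^ 2⌋₊ + 1 := by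
      unfold TT
      exact (card_filter_le _ _).trans (by rw [card_range])
    have h6 : (#(TT a M) : ℝ) ≤ (⌊(Real.log M) ^ 2⌋₊ : ℝ) + 1 := by exact_mod_cast h5
    have h7 := Nat.floor_le (show (0 : ℝ) ≤ (Real.log M) ^ 2 by positivity)
    linarith
  have hlogM : 0 ≤ Real.log (M : ℝ) := Real.log_natCast_nonneg M
  have hcardR : ((⌊C2 * Real.log M⌋₊ + 1 : ℕ) : ℝ) ≤ C2 * Real.log M + 1 := by
    have h7 := Nat.floor_le (show (0 : ℝ) ≤ C2 * Real.log M by positivity)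
    push_cast
    linarith
  have hpos : 0 ≤ (M : ℝ) / (Real.log M) ^ 4 := by positivity
  have hsum : ∑ t ∈ TT a M, ∑ r ∈ range (⌊C2 * Real.log M⌋₊ + 1),
      (#(NN M (II M) t r b ⌊C1 * II M * Real.log M⌋₊) : ℝ) ≤
      ((Real.log M) ^ 2 + 1) * ((C2 * Real.log M + 1) * (M / (Real.log M) ^ 4)) := by
    have h5 : ∀ t ∈ TT a M, ∑ r ∈ range (⌊C2 * Real.log M⌋₊ + 1),
        (#(NN M (II M) t r b ⌊C1 * II M * Real.log M⌋₊) : ℝ) ≤
        (C2 * Real.log M + 1) * (M / (Real.log M) ^ 4) := by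
      intro t ht
      refine (sum_le_sum (hterm t ht)).trans ?_
      rw [sum_const, card_range, nsmul_eq_mul]
      exact mul_le_mul_of_nonneg_right hcardR hpos
    refine (sum_le_sum h5).trans ?_
    rw [sum_const, nsmul_eq_mul]
    refine mul_le_mul_of_nonneg_right hcardT ?_
    positivity
  linarith

end Pool.Agent.H47.IR
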