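import Pool.Agent.H47.IR.Cheb

/-!
JOB IR-2. The integer sequence attached to a rational value.
-/

set_option autoImplicit false

open Finset Filter Topology

namespace Pool.Agent.H47.IR

/-- the majorant -/
noncomputable def sqG (j : ℕ) : ℝ := ((j : ℝ) + 1) * ((j : ℝ) + 2) * (1 / 2) ^ (j + 1)

theorem sq_summable_G : Summable sqG := by
  have h2 := summable_pow_mul_geometric_of_norm_lt_one (R := ℝ) 2 (r := 1 / 2) (by norm_num)
  have h1 := summable_pow_mul_geometric_of_norm_lt_one (R := ℝ) 1 (r := 1 / 2) (by norm_num)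
  have h0 := summable_pow_mul_geometric_of_norm_lt_one (R := ℝ) 0 (r := 1 / 2) (by norm_num)
  have h := ((h2.add (h1.mul_left 3)).add (h0.mul_left 2)).mul_left (1 / 2)
  refine h.congr fun j => ?_
  unfold sqG
  rw [pow_succ]
  ring

theorem sq_G_nonneg (j : ℕ) : 0 ≤ sqG j := by
  unfold sqG
  positivity

theorem sq_pow_le {a : ℕ → ℕ} {n1 : ℕ} (hn1 : ∀ n, n1 ≤ n → 2 ≤ a n) {N : ℕ} (hN : n1 ≤ N) (j : ℕ) :
    (2 : ℝ) ^ j ≤ ∏ i ∈ range j, (a (N + i) : ℝ) := by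
  calc (2 : ℝ) ^ j = ∏ i ∈ range j, (2 : ℝ) := by simp
    _ ≤ _ := Finset.prod_le_prod (fun _ _ => by norm_num) fun i _ => by
        exact_mod_cast hn1 (N + i) (by omega)

theorem sq_P_le {K : ℝ} (hK1 : 1 ≤ K)
    (hK : ∀ n : ℕ, (P n : ℝ) ≤ K * (((n : ℝ) + 1) * Real.log ((n : ℝ) + 2))) (n : ℕ) :
    (P n : ℝ) ≤ K * (((n : ℝ) + 1) * ((n : ℝ) + 2)) := by
  refine (hK n).trans ?_
  have h1 : Real.log ((n : ℝ) + 2) ≤ (n : ℝ) + 2 := by
    have := Real.log_le_sub_one_of_pos (show (0 : ℝ) < (n : ℝ) + 2 by positivity)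
    linarith
  have h2 : (0 : ℝ) ≤ (n : ℝ) + 1 := by positivity
  exact mul_le_mul_of_nonneg_left (mul_le_mul_of_nonneg_left h1 h2) (by linarith)

theorem sq_term_le {a : ℕ → ℕ} {n1 : ℕ} (hn1 : ∀ n, n1 ≤ n → 2 ≤ a n) {K : ℝ} (hK1 : 1 ≤ K)
    (hK : ∀ n : ℕ, (P n : ℝ) ≤ K * (((n : ℝ) + 1) * Real.log ((n : ℝ) + 2)))
    {N : ℕ} (hN : n1 ≤ N) (j : ℕ) :
    (P (j + N) : ℝ) / ∏ i ∈ range (j + 1), (a (N + i) : ℝ) ≤ K * ((N : ℝ) + 1) ^ 2 * sqG j := by
  have h1 := sq_P_le hK1 hK (j + N)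
  have h2 := sq_pow_le hn1 hN (j + 1)
  have h3 : (0 : ℝ) < 2 ^ (j + 1) := by positivity
  rw [div_le_iff₀ (lt_of_lt_of_le h3 h2)]
  have h4 : (P (j + N) : ℝ) ≤ K * ((N : ℝ) + 1) ^ 2 * (((j : ℝ) + 1) * ((j : ℝ) + 2)) := by
    refine h1.trans ?_
    push_cast
    rw [mul_assoc]
    apply mul_le_mul_of_nonneg_left _ (by linarith)
    have hj : (0 : ℝ) ≤ j := by positivity
    have hn : (0 : ℝ) ≤ N := by positivity
    have h5 : (j : ℝ) + N + 1 ≤ ((N : ℝ) + 1) * ((j : ℝ) + 1) := by nlinarith [mul_nonneg hj hn]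
    have h6 : (j : ℝ) + N + 2 ≤ ((N : ℝ) + 1) * ((j : ℝ) + 2) := by nlinarith [mul_nonneg hj hn]
    calc ((j : ℝ) + N + 1) * ((j : ℝ) + N + 2)
        ≤ (((N : ℝ) + 1) * ((j : ℝ) + 1)) * (((N : ℝ) + 1) * ((j : ℝ) + 2)) :=
          mul_le_mul h5 h6 (by positivity) (by positivity)
      _ = _ := by ring
  have h7 : K * ((N : ℝ) + 1) ^ 2 * (((j : ℝ) + 1) * ((j : ℝ) + 2)) =
      K * ((N : ℝ) + 1) ^ 2 * sqG j * 2 ^ (j + 1) := by
    unfold sqG
    rw [one_div, inv_pow]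
    field_simp
  rw [h7] at h4
  refine h4.trans (mul_le_mul_of_nonneg_left h2 ?_)
  exact mul_nonneg (by positivity) (sq_G_nonneg j)

/-- the recursively defined integer sequence -/
def sqc (a : ℕ → ℕ) (p : ℕ → ℕ) (b : ℕ) (c0 : ℤ) : ℕ → ℤ
  | 0 => c0
  | n + 1 => a n * sqc a p b c0 n - b * p n

theorem rat_seq {a : ℕ → ℕ} (h1 : ∀ n, 1 ≤ a n) (h2 : ∀ᶠ n in atTop, 2 ≤ a n)
    (h : ¬ Irrational (∑' n : ℕ, (P n : ℝ) / ∏ i ∈ range (n + 1), (a i : ℝ))) :
    ∃ (b : ℕ) (C : ℝ) (c : ℕ → ℤ), 1 ≤ b ∧ 0 < C ∧ Cs a b C c := by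
  obtain ⟨n1, hn1⟩ := Filter.eventually_atTop.1 h2
  obtain ⟨K, hK1, hK⟩ := P_le
  set f : ℕ → ℝ := fun n => (P n : ℝ) / ∏ i ∈ range (n + 1), (a i : ℝ) with hf
  have ha0 : ∀ n, (0 : ℝ) < a n := fun n => by exact_mod_cast h1 n
  have hPi : ∀ n, (0 : ℝ) < ∏ i ∈ range n, (a i : ℝ) := fun n =>
    Finset.prod_pos fun i _ => ha0 i
  have hP : ∀ n, (0 : ℝ) < P n := fun n => by
    exact_mod_cast (Nat.prime_nth_prime n).pos
  have hfpos : ∀ n, 0 < f n := fun n => div_pos (hP n) (hPi (n + 1))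
  -- the terms after a shift
  have hsh : ∀ N j, (∏ i ∈ range N, (a i : ℝ)) * f (j + N) =
      (P (j + N) : ℝ) / ∏ i ∈ range (j + 1), (a (N + i) : ℝ) := by
    intro N j
    have h3 : ∏ i ∈ range (j + N + 1), (a i : ℝ) =
        (∏ i ∈ range N, (a i : ℝ)) * ∏ i ∈ range (j + 1), (a (N + i) : ℝ) := by
      rw [show j + N + 1 = N + (j + 1) by ring, Finset.prod_range_add]
    have h4 : (∏ i ∈ range (j + 1), (a (N + i) : ℝ)) ≠ 0 :=
      (Finset.prod_pos fun i _ => ha0 (N + i)).ne'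
    simp only [hf]
    rw [h3]
    field_simp [(hPi N).ne', h4]
  have hsum : Summable f := by
    rw [← summable_nat_add_iff n1]
    refine Summable.of_nonneg_of_le (fun j => (hfpos _).le) (fun j => ?_)
      ((sq_summable_G.mul_left (K * ((n1 : ℝ) + 1) ^ 2)).mul_left
        (∏ i ∈ range n1, (a i : ℝ))⁻¹)
    have h5 := sq_term_le (a := a) hn1 hK1 hK le_rfl j
    rw [← hsh] at h5
    rw [← div_eq_inv_mul, le_div_iff₀ (hPi n1)]
    linarith
  -- the remainders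
  set R : ℕ → ℝ := fun N => (∏ i ∈ range N, (a i : ℝ)) * ∑' j, f (j + N) with hR
  have hsumN : ∀ N, Summable fun j => f (j + N) := fun N => (summable_nat_add_iff N).2 hsum
  have hRpos : ∀ N, 0 < R N := by
    intro N
    refine mul_pos (hPi N) ?_
    exact (hsumN N).tsum_pos (fun j => (hfpos _).le) 0 (hfpos _)
  have hRstep : ∀ N, R (N + 1) = a N * R N - P N := by
    intro N
    have h6 : ∑' j, f (j + N) = f N + ∑' j, f (j + (N + 1)) := by
      rw [(hsumN N).tsum_eq_zero_add]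
      congr 1
      · rw [zero_add]
      · refine tsum_congr fun j => ?_
        rw [show j + 1 + N = j + (N + 1) by ring]
    have h7 : (∏ i ∈ range (N + 1), (a i : ℝ)) * f N = P N := by
      simp only [hf]
      exact mul_div_cancel₀ _ (hPi (N + 1)).ne'
    simp only [hR]
    rw [h6, mul_add, mul_add, ← mul_assoc, ← mul_assoc]
    have h8 : (a N : ℝ) * ∏ i ∈ range N, (a i : ℝ) = ∏ i ∈ range (N + 1), (a i : ℝ) := by
      rw [Finset.prod_range_succ]
      ring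
    rw [h8, h7]
    ring
  have hRle : ∀ N, n1 ≤ N → R N ≤ K * (∑' j, sqG j) * ((N : ℝ) + 1) ^ 2 := by
    intro N hN
    simp only [hR]
    rw [← tsum_mul_left]
    have h9 : K * (∑' j, sqG j) * ((N : ℝ) + 1) ^ 2 = ∑' j, K * ((N : ℝ) + 1) ^ 2 * sqG j := by
      rw [tsum_mul_left]
      ring
    rw [h9]
    refine Summable.tsum_le_tsum (fun j => ?_) ((hsumN N).mul_left _)
      (sq_summable_G.mul_left _)
    rw [hsh]
    exact sq_term_le (a := a) hn1 hK1 hK hN j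
  -- the rational value
  have hrat : ∃ q : ℚ, (q : ℝ) = R 0 := by
    have h10 : R 0 = ∑' n : ℕ, (P n : ℝ) / ∏ i ∈ range (n + 1), (a i : ℝ) := by
      simp only [hR, hf, Finset.range_zero, Finset.prod_empty, one_mul, add_zero]
    rw [h10]
    by_contra hcon
    apply h
    rintro ⟨q, hq⟩
    exact hcon ⟨q, hq⟩
  obtain ⟨q, hq⟩ := hrat
  set c : ℕ → ℤ := sqc a P q.den q.num with hc
  have hcR : ∀ n, (c n : ℝ) = q.den * R n := by
    intro n
    induction n with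
    | zero =>
      rw [← hq]
      have h11 : (q.den : ℝ) * (q : ℝ) = q.num := by
        exact_mod_cast Rat.den_mul_eq_num q
      rw [h11]
      rfl
    | succ n ih =>
      have h12 : c (n + 1) = a n * c n - q.den * P n := rfl
      rw [h12]
      push_cast
      rw [ih, hRstep]
      ring
  have hden : (0 : ℝ) < q.den := by exact_mod_cast q.pos
  have hG : 0 ≤ ∑' j, sqG j := tsum_nonneg sq_G_nonneg
  have hS : 0 ≤ ∑ i ∈ range n1, R i := Finset.sum_nonneg fun i _ => (hRpos i).le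
  refine ⟨q.den, q.den * (K * (∑' j, sqG j) + ∑ i ∈ range n1, R i) + 1, c, q.pos, ?_, ?_, ?_, ?_⟩
  · positivity
  · intro n
    have h13 : (0 : ℝ) < c n := by
      rw [hcR]
      exact mul_pos hden (hRpos n)
    exact_mod_cast h13
  · intro n
    rfl
  · intro n
    rw [hcR]
    have hsq : (1 : ℝ) ≤ ((n : ℝ) + 1) ^ 2 := by
      have : (0 : ℝ) ≤ n := by positivity
      nlinarith
    have h14 : R n ≤ (K * (∑' j, sqG j) + ∑ i ∈ range n1, R i) * ((n : ℝ) + 1) ^ 2 := by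
      rcases le_or_gt n1 n with hn | hn
      · refine (hRle n hn).trans ?_
        apply mul_le_mul_of_nonneg_right _ (by positivity)
        linarith
      · have h15 : R n ≤ ∑ i ∈ range n1, R i :=
          Finset.single_le_sum (f := R) (fun i _ => (hRpos i).le) (Finset.mem_range.2 hn)
        have h16 : 0 ≤ K * (∑' j, sqG j) := by positivity
        nlinarith
    have h17 := mul_le_mul_of_nonneg_left h14 hden.le
    nlinarith
end Pool.Agent.H47.IR
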